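import Mathlib

/-!
# MP_dbd377_co : definitions for the squad TCH

Planar graphs without cycles of lengths 4 to 7 are 3-choosable.
-/

set_option autoImplicit false

namespace Pool.Agent.TCH

open MvPolynomial

noncomputable section

/-! ## Part A : block structures and their graph polynomials -/

/-- product of all differences `X p - X q`, `p` before `q` in the list -/
def lv {V : Type} : List V → MvPolynomial V ℤ
  | [] => 1
  | p :: l => (l.map (fun q => (X p - X q : MvPolynomial V ℤ))).prod * lv l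

/-- some monomial with all exponents at most `2` has a nonzero coefficient -/
def Good {V : Type} (P : MvPolynomial V ℤ) : Prop :=
  ∃ m : V →₀ ℕ, (∀ v, m v ≤ 2) ∧ P.coeff m ≠ 0

/-- the graph polynomial of a block structure -/
def PP {V ι : Type} (I : Finset ι) (b : ι → List V) : MvPolynomial V ℤ := ∏ i ∈ I, lv (b i)

/-- the points covered by the blocks in `Y` -/
def cov {V ι : Type} [DecidableEq V] (b : ι → List V) (Y : Finset ι) : Finset V :=
  Y.biUnion (fun i => (b i).toFinset)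

/-- weight: a triangle block has weight `5`, an edge block weight `2` -/
def wt {V ι : Type} (b : ι → List V) (Y : Finset ι) : ℕ := ∑ i ∈ Y, (3 * (b i).length - 4)

/-- block structures all of whose sub-structures have potential at least `3` -/
structure C3 {V ι : Type} [DecidableEq V] (I : Finset ι) (b : ι → List V) : Prop where
  len : ∀ i ∈ I, (b i).length = 2 ∨ (b i).length = 3
  pot : ∀ Y ⊆ I, Y.Nonempty → wt b Y + 3 ≤ 3 * (cov b Y).card

/-- degree of a point in the graph of the block structure -/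
def dg {V ι : Type} [DecidableEq V] (I : Finset ι) (b : ι → List V) (v : V) : ℕ :=
  ∑ i ∈ I.filter (fun i => v ∈ b i), ((b i).length - 1)

/-- the polynomial of the gadget: triangle `x1 x2 c`, edges `x1 a`, `x2 a'` -/
def gad {V : Type} (x1 x2 a a' c : V) : MvPolynomial V ℤ :=
  (X x1 - X x2) * (X x1 - X c) * (X x2 - X c) * (X x1 - X a) * (X x2 - X a')

/-- the reducible configuration: a triangle block `h` with two points `x1`, `x2` of degree three -/
structure Cfg {V ι : Type} [DecidableEq V] (I : Finset ι) (b : ι → List V)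
    (h e1 e2 : ι) (x1 x2 a a' c : V) : Prop where
  hI : h ∈ I
  e1I : e1 ∈ I
  e2I : e2 ∈ I
  he1 : h ≠ e1
  he2 : h ≠ e2
  e12 : e1 ≠ e2
  bh : (b h).Perm [x1, x2, c]
  be1 : (b e1).Perm [x1, a]
  be2 : (b e2).Perm [x2, a']
  x1_only : ∀ i ∈ I, x1 ∈ b i → i = h ∨ i = e1
  x2_only : ∀ i ∈ I, x2 ∈ b i → i = h ∨ i = e2

/-! ## Part B : graphs -/

/-- no cycles of lengths 4, 5, 6, 7 -/
def NoC {V : Type} (G : SimpleGraph V) : Prop :=
  ∀ (v : V) (c : G.Walk v v), c.IsCycle → c.length < 4 ∨ 7 < c.length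

/-- drawable in the plane (exactly the hypothesis of the frozen statement) -/
def Dr {V : Type} (G : SimpleGraph V) : Prop :=
  ∃ p : V → ℝ × ℝ, Function.Injective p ∧
      ∃ γ : V → V → ℝ → ℝ × ℝ,
        (∀ u v, G.Adj u v →
          ContinuousOn (γ u v) (Set.Icc 0 1) ∧ Set.InjOn (γ u v) (Set.Icc 0 1) ∧
          γ u v 0 = p u ∧ γ u v 1 = p v ∧
          ∀ t ∈ Set.Ioo (0:ℝ) 1, ∀ w, γ u v t ≠ p w) ∧
        (∀ u v x y, G.Adj u v → G.Adj x y → s(u, v) ≠ s(x, y) →
          ∀ t ∈ Set.Ioo (0:ℝ) 1, ∀ t' ∈ Set.Ioo (0:ℝ) 1, γ u v t ≠ γ x y t')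

/-- number of edges -/
def nE {V : Type} (X : SimpleGraph V) : ℕ := X.edgeSet.ncard
/-- number of non-isolated vertices -/
def nV {V : Type} (X : SimpleGraph V) : ℕ := X.support.ncard
/-- number of triangles -/
def nT {V : Type} (X : SimpleGraph V) : ℕ := {s : Finset V | X.IsNClique 3 s}.ncard

/-- the inequality `3V - 2E + T ≥ 3` -/
def Ineq {V : Type} (X : SimpleGraph V) : Prop := 2 * nE X + 3 ≤ 3 * nV X + nT X

/-- even edge sets (elements of the cycle space over `F_2`) -/
def EvenS {V : Type} [DecidableEq V] (X : SimpleGraph V) (C : Finset (Sym2 V)) : Prop :=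
  (∀ e ∈ C, e ∈ X.edgeSet) ∧ ∀ v, Even (C.filter (fun e => v ∈ e)).card

/-- a (MacLane type) face system -/
def FaceSys {V : Type} [DecidableEq V] (X : SimpleGraph V) : Prop :=
  ∃ (κ : Type) (_ : Fintype κ) (D : κ → Finset (Sym2 V)),
    (∀ k, EvenS X (D k)) ∧
    (∀ e, (Finset.univ.filter (fun k => e ∈ D k)).card ≤ 2) ∧
    ∀ C, EvenS X C → ∃ T : Finset κ, ∀ e, (e ∈ C ↔ Odd (T.filter (fun k => e ∈ D k)).card)

/-- indicator function of an edge set, with values in `F_2` -/
def ind {V : Type} [DecidableEq V] (C : Finset (Sym2 V)) : Sym2 V → ZMod 2 :=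
  fun e => if e ∈ C then 1 else 0

/-- the cycle space of `X` over `F_2` -/
def cyc {V : Type} [Fintype V] [DecidableEq V] (X : SimpleGraph V) :
    Submodule (ZMod 2) (Sym2 V → ZMod 2) where
  carrier := {f | (∀ e, e ∉ X.edgeSet → f e = 0) ∧
    ∀ v : V, ∑ e ∈ Finset.univ.filter (fun e : Sym2 V => v ∈ e), f e = 0}
  add_mem' := by
    intro f g hf hg
    refine ⟨fun e he => ?_, fun v => ?_⟩
    · simp [hf.1 e he, hg.1 e he]
    · simp only [Pi.add_apply, Finset.sum_add_distrib, hf.2 v, hg.2 v, add_zero]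
  zero_mem' := by
    refine ⟨fun e _ => rfl, fun v => ?_⟩
    simp
  smul_mem' := by
    intro c f hf
    refine ⟨fun e he => ?_, fun v => ?_⟩
    · simp [hf.1 e he]
    · simp only [Pi.smul_apply, smul_eq_mul, ← Finset.mul_sum, hf.2 v, mul_zero]

/-! ## Geometry : crossing parity of segments in the complex plane -/

/-- height of the line through `s` above the abscissa `x` -/
def lineval (s : ℂ × ℂ) (x : ℝ) : ℝ :=
  s.1.im + (s.2.im - s.1.im) / (s.2.re - s.1.re) * (x - s.1.re)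

open Classical in
/-- does the upward vertical ray from `z` cross the segment `s` (half-open convention) -/
def chi (s : ℂ × ℂ) (z : ℂ) : ZMod 2 :=
  if min s.1.re s.2.re ≤ z.re ∧ z.re < max s.1.re s.2.re ∧ z.im < lineval s z.re then 1 else 0

/-- crossing parity of a list of segments -/
def par (S : List (ℂ × ℂ)) (z : ℂ) : ZMod 2 := (S.map (fun s => chi s z)).sum

open Classical in
/-- number of ends of segments at `z` -/
def endc (S : List (ℂ × ℂ)) (z : ℂ) : ℕ :=
  (S.map (fun s => (if s.1 = z then 1 else 0) + (if s.2 = z then 1 else 0))).sum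

/-- a closed chain mod 2 -/
def ClosedS (S : List (ℂ × ℂ)) : Prop := ∀ z, Even (endc S z)

/-- union of the segments -/
def supp (S : List (ℂ × ℂ)) : Set ℂ := {z | ∃ s ∈ S, z ∈ segment ℝ s.1 s.2}

/-- on which side of the line through `s` is `z` -/
def side (s : ℂ × ℂ) (z : ℂ) : ℝ :=
  (s.2 - s.1).re * (z - s.1).im - (s.2 - s.1).im * (z - s.1).re

/-- a drawing whose arcs are cut off at the boundary of small discs around the vertices;
`g e` is the middle part of the arc of the edge `e` (oriented by `Quot.out e`) -/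
structure TD {V : Type} (X : SimpleGraph V) where
  p : V → ℂ
  r : ℝ
  r_pos : 0 < r
  sep : ∀ v w, v ≠ w → 2 * r < dist (p v) (p w)
  g : Sym2 V → ℝ → ℂ
  cont : ∀ e ∈ X.edgeSet, ContinuousOn (g e) (Set.Icc 0 1)
  start : ∀ e ∈ X.edgeSet, dist (g e 0) (p (Quot.out e).1) = r
  stop : ∀ e ∈ X.edgeSet, dist (g e 1) (p (Quot.out e).2) = r
  away : ∀ e ∈ X.edgeSet, ∀ w, ∀ x ∈ Set.Icc (0:ℝ) 1, r ≤ dist (g e x) (p w)
  disj : ∀ e ∈ X.edgeSet, ∀ e' ∈ X.edgeSet, e ≠ e' →
    ∀ x ∈ Set.Icc (0:ℝ) 1, ∀ y ∈ Set.Icc (0:ℝ) 1, g e x ≠ g e' y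

/-- a polygonal drawing: near each vertex the edges are radial segments; the middle part `M e` of
the edge `e` may cross itself, but different edges are disjoint outside their common ends -/
structure PD {V : Type} (X : SimpleGraph V) where
  p : V → ℂ
  r : ℝ
  r_pos : 0 < r
  sep : ∀ v w, v ≠ w → 2 * r < dist (p v) (p w)
  a : V → Sym2 V → ℂ
  a_dist : ∀ e ∈ X.edgeSet, ∀ v ∈ e, dist (a v e) (p v) = r
  a_inj : ∀ e ∈ X.edgeSet, ∀ e' ∈ X.edgeSet, ∀ v, v ∈ e → v ∈ e' → e ≠ e' → a v e ≠ a v e'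
  M : Sym2 V → List (ℂ × ℂ)
  M_ends : ∀ e ∈ X.edgeSet,
    ClosedS ((a (Quot.out e).1 e, a (Quot.out e).2 e) :: M e)
  M_ball : ∀ e ∈ X.edgeSet, ∀ w, ∀ z ∈ supp (M e), r / 2 < dist z (p w)
  M_disj : ∀ e ∈ X.edgeSet, ∀ e' ∈ X.edgeSet, e ≠ e' → Disjoint (supp (M e)) (supp (M e'))
  M_rad : ∀ e ∈ X.edgeSet, ∀ e' ∈ X.edgeSet, e ≠ e' → ∀ w ∈ e',
    Disjoint (supp (M e)) (segment ℝ (p w) (a w e'))
  M_conn : ∀ e ∈ X.edgeSet, IsPreconnected (supp (M e))
  M_mem : ∀ e ∈ X.edgeSet, ∀ v ∈ e, a v e ∈ supp (M e)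

namespace PD

variable {V : Type} {X : SimpleGraph V}

/-- all segments of the edge `e` -/
def K (D : PD X) (e : Sym2 V) : List (ℂ × ℂ) :=
  (D.p (Quot.out e).1, D.a (Quot.out e).1 e) :: (D.p (Quot.out e).2, D.a (Quot.out e).2 e) :: D.M e

/-- crossing parity of the edge set `C` -/
def W (D : PD X) (C : Finset (Sym2 V)) (z : ℂ) : ZMod 2 := ∑ e ∈ C, par (D.K e) z

/-- the part of the plane covered by the edges in `C` -/
def sup (D : PD X) (C : Set (Sym2 V)) : Set ℂ := {z | ∃ e ∈ C, z ∈ supp (D.K e)}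

/-- a point of the radial segment of `e` at `u` -/
def m (D : PD X) (u : V) (e : Sym2 V) : ℂ := D.p u + (1 / 4 : ℝ) • (D.a u e - D.p u)

open Classical in
/-- the boundary of the face with the functional `φ` -/
def fc [Fintype V] [DecidableEq V] (D : PD X) (φ : Finset (Sym2 V) → ZMod 2) :
    Finset (Sym2 V) :=
  Finset.univ.filter (fun e => e ∈ X.edgeSet ∧ (∃ C, EvenS X C ∧ e ∈ C) ∧
    ∀ C, EvenS X C → e ∉ C → φ C = D.W C (D.m (Quot.out e).1 e))

end PD

end

end Pool.Agent.TCH
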