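import Pool.Agent.TCH.Api

/-!
# MP_dbd377_co, squad TCH, module ALG : the two reductions on the level of polynomials
-/

set_option autoImplicit false

namespace Pool.Agent.TCH

open MvPolynomial

namespace ALG_

variable {V : Type}

theorem coeff_supported {s : Set V} {R : MvPolynomial V ℤ} (hR : R ∈ supported ℤ s)
    {n : V →₀ ℕ} {x : V} (hx : x ∉ s) (hn : n x ≠ 0) : R.coeff n = 0 := by
  by_contra h
  rw [mem_supported] at hR
  apply hx
  apply hR
  simp only [Finset.mem_coe, mem_vars_iff_mem_support]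
  exact ⟨n, by simpa [mem_support_iff] using h, by simpa using hn⟩

/-- the coefficient of `x1 ^ i0 * x2 ^ j0 * m` in a term -/
theorem term_coeff [DecidableEq V] {x1 x2 : V} (h12 : x1 ≠ x2) {s : Set V} (h1 : x1 ∉ s)
    (h2 : x2 ∉ s) {R : MvPolynomial V ℤ} (hR : R ∈ supported ℤ s) {m : V →₀ ℕ}
    (hm1 : m x1 = 0) (hm2 : m x2 = 0) (i j i0 j0 : ℕ) :
    (X x1 ^ i * X x2 ^ j * R).coeff (m + Finsupp.single x1 i0 + Finsupp.single x2 j0)
      = if i = i0 ∧ j = j0 then R.coeff m else 0 := by
  have e : (X x1 ^ i * X x2 ^ j : MvPolynomial V ℤ)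
      = monomial (Finsupp.single x1 i + Finsupp.single x2 j) 1 := by
    rw [X_pow_eq_monomial, X_pow_eq_monomial, monomial_mul, one_mul]
  rw [e, coeff_monomial_mul', one_mul]
  by_cases hij : i = i0 ∧ j = j0
  · obtain ⟨rfl, rfl⟩ := hij
    have hle : Finsupp.single x1 i + Finsupp.single x2 j
        ≤ m + Finsupp.single x1 i + Finsupp.single x2 j := by
      rw [add_assoc]; exact le_add_self
    rw [if_pos hle, if_pos ⟨rfl, rfl⟩]
    congr 1
    rw [add_assoc, add_tsub_cancel_right]
  · rw [if_neg hij]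
    split_ifs with hle
    · have v1 := hle x1
      have v2 := hle x2
      simp only [Finsupp.add_apply, Finsupp.single_eq_same, Finsupp.single_eq_of_ne h12,
        Finsupp.single_eq_of_ne h12.symm, hm1, hm2, zero_add, add_zero] at v1 v2
      by_cases hi : i = i0
      · have hj : j ≠ j0 := fun h => hij ⟨hi, h⟩
        apply coeff_supported hR h2
        simp only [Finsupp.tsub_apply, Finsupp.add_apply, Finsupp.single_eq_same,
          Finsupp.single_eq_of_ne h12, Finsupp.single_eq_of_ne h12.symm, hm2, zero_add, add_zero]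
        omega
      · apply coeff_supported hR h1
        simp only [Finsupp.tsub_apply, Finsupp.add_apply, Finsupp.single_eq_same,
          Finsupp.single_eq_of_ne h12, Finsupp.single_eq_of_ne h12.symm, hm1, zero_add, add_zero]
        omega
    · rfl

theorem gad_expand (x1 x2 a a' c : V) (Q : MvPolynomial V ℤ) :
    gad x1 x2 a a' c * Q =
      X x1 ^ 2 * X x2 ^ 2 * ((X a' - X a) * Q)
      + X x1 ^ 2 * X x2 ^ 1 * ((X c ^ 2 + X c * X a + X a * X a') * Q)
      + X x1 ^ 3 * X x2 ^ 2 * Q
      + X x1 ^ 1 * X x2 ^ 2 * ((X c * X a - (X c + X a) * (X c + X a')) * Q)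
      + X x1 ^ 3 * X x2 ^ 1 * (-(X c + X a') * Q)
      + X x1 ^ 1 * X x2 ^ 1 * ((-(X c * X a * (X c + X a')) + (X c + X a) * X c * X a') * Q)
      + X x1 ^ 3 * X x2 ^ 0 * (X c * X a' * Q)
      + X x1 ^ 2 * X x2 ^ 0 * (-((X c + X a) * X c * X a') * Q)
      + X x1 ^ 1 * X x2 ^ 0 * (X c ^ 2 * X a * X a' * Q)
      + X x1 ^ 2 * X x2 ^ 3 * (-Q)
      + X x1 ^ 1 * X x2 ^ 3 * ((X c + X a) * Q)
      + X x1 ^ 0 * X x2 ^ 3 * (-(X c * X a) * Q)
      + X x1 ^ 0 * X x2 ^ 2 * (X c * X a * (X c + X a') * Q)
      + X x1 ^ 0 * X x2 ^ 1 * (-(X c ^ 2 * X a * X a') * Q) := by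
  unfold gad
  ring

theorem gad_coeff [DecidableEq V] {x1 x2 a a' c : V} {Q : MvPolynomial V ℤ} (h12 : x1 ≠ x2)
    {s : Set V} (h1 : x1 ∉ s) (h2 : x2 ∉ s) (ha : a ∈ s) (ha' : a' ∈ s) (hc : c ∈ s)
    (hQ : Q ∈ supported ℤ s) {m : V →₀ ℕ} (hm1 : m x1 = 0) (hm2 : m x2 = 0) :
    (gad x1 x2 a a' c * Q).coeff (m + Finsupp.single x1 2 + Finsupp.single x2 2)
        = ((X a' - X a) * Q).coeff m ∧
    (gad x1 x2 a a' c * Q).coeff (m + Finsupp.single x1 2 + Finsupp.single x2 1)
        = ((X c ^ 2 + X c * X a + X a * X a') * Q).coeff m := by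
  have xa : (X a : MvPolynomial V ℤ) ∈ supported ℤ s := X_mem_supported.2 ha
  have xa' : (X a' : MvPolynomial V ℤ) ∈ supported ℤ s := X_mem_supported.2 ha'
  have xc : (X c : MvPolynomial V ℤ) ∈ supported ℤ s := X_mem_supported.2 hc
  have T : ∀ {R : MvPolynomial V ℤ}, R ∈ supported ℤ s → ∀ i j i0 j0 : ℕ,
      (X x1 ^ i * X x2 ^ j * R).coeff (m + Finsupp.single x1 i0 + Finsupp.single x2 j0)
        = if i = i0 ∧ j = j0 then R.coeff m else 0 :=
    fun hR i j i0 j0 => term_coeff h12 h1 h2 hR hm1 hm2 i j i0 j0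
  have mm := fun {p q : MvPolynomial V ℤ} (hp : p ∈ supported ℤ s) (hq : q ∈ supported ℤ s) =>
    (supported ℤ s).mul_mem hp hq
  have am := fun {p q : MvPolynomial V ℤ} (hp : p ∈ supported ℤ s) (hq : q ∈ supported ℤ s) =>
    (supported ℤ s).add_mem hp hq
  have sm := fun {p q : MvPolynomial V ℤ} (hp : p ∈ supported ℤ s) (hq : q ∈ supported ℤ s) =>
    (supported ℤ s).sub_mem hp hq
  have nm := fun {p : MvPolynomial V ℤ} (hp : p ∈ supported ℤ s) =>
    (supported ℤ s).neg_mem hp
  have xc2 : (X c ^ 2 : MvPolynomial V ℤ) ∈ supported ℤ s := (supported ℤ s).pow_mem xc 2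
  have k1 := mm (sm xa' xa) hQ
  have k2 := mm (am (am xc2 (mm xc xa)) (mm xa xa')) hQ
  have k3 := mm (sm (mm xc xa) (mm (am xc xa) (am xc xa'))) hQ
  have k4 := mm (nm (am xc xa')) hQ
  have k5 := mm (am (nm (mm (mm xc xa) (am xc xa'))) (mm (mm (am xc xa) xc) xa')) hQ
  have k6 := mm (mm xc xa') hQ
  have k7 := mm (nm (mm (mm (am xc xa) xc) xa')) hQ
  have k8 := mm (mm (mm xc2 xa) xa') hQ
  have k9 := nm hQ
  have k10 := mm (am xc xa) hQ
  have k11 := mm (nm (mm xc xa)) hQ
  have k12 := mm (mm (mm xc xa) (am xc xa')) hQ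
  have k13 := mm (nm (mm (mm xc2 xa) xa')) hQ
  rw [gad_expand]
  constructor
  · simp only [coeff_add, T hQ, T k1, T k2, T k3, T k4, T k5, T k6, T k7, T k8, T k9, T k10,
      T k11, T k12, T k13]
    norm_num
  · simp only [coeff_add, T hQ, T k1, T k2, T k3, T k4, T k5, T k6, T k7, T k8, T k9, T k10,
      T k11, T k12, T k13]
    norm_num

theorem mapDomain_merge [DecidableEq V] {a c : V} (n : V →₀ ℕ) :
    Finsupp.mapDomain (fun v => if v = c then a else v) n
      = n.erase c + Finsupp.single a (n c) := by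
  conv_lhs => rw [← Finsupp.erase_add_single c n]
  rw [Finsupp.mapDomain_add, Finsupp.mapDomain_single, if_pos rfl]
  congr 1
  conv_rhs => rw [← Finsupp.mapDomain_id (v := n.erase c)]
  apply Finsupp.mapDomain_congr
  intro x hx
  have : x ≠ c := by
    rintro rfl
    simp at hx
  simp [this]

theorem rename_coeff [DecidableEq V] {a c : V} (hac : a ≠ c) {m : V →₀ ℕ} (hma : m a ≤ 2)
    (hmc : m c = 0) (Q : MvPolynomial V ℤ) :
    (rename (fun v => if v = c then a else v) Q).coeff m
      = ((X c ^ 2 + X c * X a + X a ^ 2) * Q).coeff (m + Finsupp.single c 2) := by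
  induction Q using MvPolynomial.induction_on' with
  | add p q hp hq => rw [map_add, coeff_add, hp, hq, mul_add, coeff_add]
  | monomial n r =>
    rw [rename_monomial, coeff_monomial, mapDomain_merge]
    have e : ((X c ^ 2 + X c * X a + X a ^ 2) * monomial n r : MvPolynomial V ℤ)
        = monomial (Finsupp.single c 2 + n) r
          + monomial (Finsupp.single c 1 + Finsupp.single a 1 + n) r
          + monomial (Finsupp.single a 2 + n) r := by
      rw [X_pow_eq_monomial, X_pow_eq_monomial, X, X, monomial_mul, add_mul, add_mul,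
        monomial_mul, monomial_mul, monomial_mul]
      simp
    rw [e, coeff_add, coeff_add, coeff_monomial, coeff_monomial, coeff_monomial]
    have c0 : (n.erase c + Finsupp.single a (n c) = m) ↔
        ((∀ v, v ≠ a → v ≠ c → n v = m v) ∧ n a + n c = m a) := by
      constructor
      · rintro rfl
        refine ⟨fun v hva hvc => ?_, ?_⟩
        · simp [Finsupp.erase_ne hvc, Finsupp.single_eq_of_ne hva]
        · simp [Finsupp.erase_ne hac]
      · rintro ⟨h1, h2⟩
        ext v
        by_cases hva : v = a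
        · subst hva
          simp [Finsupp.erase_ne hac, h2]
        · by_cases hvc : v = c
          · subst hvc
            simp [Finsupp.single_eq_of_ne hva, hmc]
          · simp [Finsupp.erase_ne hvc, Finsupp.single_eq_of_ne hva, h1 v hva hvc]
    have gen : ∀ i j : ℕ, (Finsupp.single c i + Finsupp.single a j + n
        = m + Finsupp.single c 2) ↔
        ((∀ v, v ≠ a → v ≠ c → n v = m v) ∧ (j + n a = m a ∧ i + n c = 2)) := by
      intro i j
      constructor
      · intro h
        refine ⟨fun v hva hvc => ?_, ?_, ?_⟩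
        · have := DFunLike.congr_fun h v
          simpa [Finsupp.single_eq_of_ne hva, Finsupp.single_eq_of_ne hvc] using this
        · have := DFunLike.congr_fun h a
          simpa [Finsupp.single_eq_of_ne hac] using this
        · have := DFunLike.congr_fun h c
          simpa [Finsupp.single_eq_of_ne hac.symm, hmc] using this
      · rintro ⟨h1, h2, h3⟩
        ext v
        by_cases hva : v = a
        · subst hva
          simp [Finsupp.single_eq_of_ne hac, h2]
        · by_cases hvc : v = c
          · subst hvc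
            simp [Finsupp.single_eq_of_ne hva, hmc, h3]
          · simp [Finsupp.single_eq_of_ne hvc, Finsupp.single_eq_of_ne hva, h1 v hva hvc]
    obtain ⟨E, hEd⟩ : ∃ E : Prop, (∀ v, v ≠ a → v ≠ c → n v = m v) = E := ⟨_, rfl⟩
    rw [hEd] at c0
    simp only [hEd] at gen
    have g1 := gen 2 0
    have g2 := gen 1 1
    have g3 := gen 0 2
    simp only [Finsupp.single_zero, add_zero, zero_add] at g1 g3
    classical
    rw [if_congr c0 rfl rfl, if_congr g1 rfl rfl, if_congr g2 rfl rfl, if_congr g3 rfl rfl]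
    by_cases hE : E
    · simp only [hE, true_and]
      split_ifs <;> first | omega | simp
    · simp [hE]

end ALG_

open ALG_ in
theorem alg_proof : Stmt_ALG := by
  intro V _ x1 x2 a a' c Q h12 h1c h2c ha1 ha2 ha'1 ha'2 hac ha'c hx1 hx2 h
  set s : Set V := {x1, x2}ᶜ with hs
  have s1 : x1 ∉ s := by simp [hs]
  have s2 : x2 ∉ s := by simp [hs]
  have sa : a ∈ s := by simp [hs, ha1, ha2]
  have sa' : a' ∈ s := by simp [hs, ha'1, ha'2]
  have sc : c ∈ s := by simp [hs, h1c.symm, h2c.symm]
  have sQ : Q ∈ supported ℤ s := by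
    rw [mem_supported]
    intro v hv
    simp only [hs, Set.mem_compl_iff, Set.mem_insert_iff, Set.mem_singleton_iff, not_or]
    exact ⟨fun e => hx1 (e ▸ hv), fun e => hx2 (e ▸ hv)⟩
  have xa : (X a : MvPolynomial V ℤ) ∈ supported ℤ s := X_mem_supported.2 sa
  have xa' : (X a' : MvPolynomial V ℤ) ∈ supported ℤ s := X_mem_supported.2 sa'
  -- the first reduction
  have case1 : Good ((X a - X a') * Q) → Good (gad x1 x2 a a' c * Q) := by
    rintro ⟨m, hm, hne⟩
    have hS : (X a - X a') * Q ∈ supported ℤ s :=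
      (supported ℤ s).mul_mem ((supported ℤ s).sub_mem xa xa') sQ
    have m1 : m x1 = 0 := by
      by_contra h0; exact hne (coeff_supported hS s1 h0)
    have m2 : m x2 = 0 := by
      by_contra h0; exact hne (coeff_supported hS s2 h0)
    refine ⟨m + Finsupp.single x1 2 + Finsupp.single x2 2, ?_, ?_⟩
    · intro v
      by_cases v1 : v = x1
      · subst v1; simp [m1, Finsupp.single_eq_of_ne h12]
      · by_cases v2 : v = x2
        · subst v2; simp [m2, Finsupp.single_eq_of_ne v1]
        · simp [Finsupp.single_eq_of_ne v1, Finsupp.single_eq_of_ne v2, hm v]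
    · rw [(gad_coeff h12 s1 s2 sa sa' sc sQ m1 m2).1]
      have : (X a' - X a) * Q = -((X a - X a') * Q) := by ring
      rw [this, coeff_neg]
      exact neg_ne_zero.2 hne
  rcases h with h | ⟨m, hm, hne⟩
  · exact case1 h
  · -- the second reduction
    have hvars : ∀ v, v ∉ Q.vars → v ≠ a → m v = 0 := by
      intro v hv hva
      by_contra h0
      apply hne
      have hsub : rename (fun v => if v = c then a else v) Q ∈ supported ℤ ({v}ᶜ : Set V) := by
        rw [mem_supported]
        intro w hw
        have hw' := vars_rename _ _ hw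
        simp only [Finset.mem_image] at hw'
        obtain ⟨u, hu, rfl⟩ := hw'
        simp only [Set.mem_compl_iff, Set.mem_singleton_iff]
        split_ifs with huc
        · exact fun e => hva e.symm
        · exact fun e => hv (e ▸ hu)
      exact coeff_supported hsub (by simp) h0
    have m1 : m x1 = 0 := hvars x1 hx1 ha1.symm
    have m2 : m x2 = 0 := hvars x2 hx2 ha2.symm
    have mc : m c = 0 := by
      by_contra h0
      apply hne
      have hsub : rename (fun v => if v = c then a else v) Q ∈ supported ℤ ({c}ᶜ : Set V) := by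
        rw [mem_supported]
        intro w hw
        have hw' := vars_rename _ _ hw
        simp only [Finset.mem_image] at hw'
        obtain ⟨u, hu, rfl⟩ := hw'
        simp only [Set.mem_compl_iff, Set.mem_singleton_iff]
        split_ifs with huc
        · exact hac
        · exact huc
      exact coeff_supported hsub (by simp) h0
    rw [rename_coeff hac (hm a) mc] at hne
    have esum : ((X c ^ 2 + X c * X a + X a ^ 2) * Q : MvPolynomial V ℤ)
        = (X c ^ 2 + X c * X a + X a * X a') * Q + X a * ((X a - X a') * Q) := by ring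
    rw [esum, coeff_add] at hne
    set k : V →₀ ℕ := m + Finsupp.single c 2 with hk
    have hk2 : ∀ v, k v ≤ 2 := by
      intro v
      by_cases hvc : v = c
      · subst hvc; simp [hk, mc]
      · simp [hk, Finsupp.single_eq_of_ne hvc, hm v]
    by_cases hz : ((X c ^ 2 + X c * X a + X a * X a') * Q : MvPolynomial V ℤ).coeff k = 0
    · rw [hz, zero_add, coeff_X_mul'] at hne
      split_ifs at hne with hka
      · apply case1
        refine ⟨k - Finsupp.single a 1, fun v => ?_, hne⟩
        have := hk2 v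
        simp only [Finsupp.tsub_apply]
        omega
      · exact absurd rfl hne
    · have k1 : k x1 = 0 := by simp [hk, m1, Finsupp.single_eq_of_ne h1c]
      have k2 : k x2 = 0 := by simp [hk, m2, Finsupp.single_eq_of_ne h2c]
      refine ⟨k + Finsupp.single x1 2 + Finsupp.single x2 1, ?_, ?_⟩
      · intro v
        by_cases v1 : v = x1
        · subst v1; simp [k1, Finsupp.single_eq_of_ne h12]
        · by_cases v2 : v = x2
          · subst v2; simp [k2, Finsupp.single_eq_of_ne v1]
          · simp [Finsupp.single_eq_of_ne v1, Finsupp.single_eq_of_ne v2, hk2 v]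
      · rw [(gad_coeff h12 s1 s2 sa sa' sc sQ k1 k2).2]
        exact hz

end Pool.Agent.TCH
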