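import Pool.Agent.TCH.Api

/-!
# MP_dbd377_co : module BLK of the squad TCH
-/

set_option autoImplicit false
set_option linter.unusedSectionVars false

namespace Pool.Agent.TCH

namespace BLK_

open Finset

section

variable {V : Type} [Fintype V] [DecidableEq V]

/-- no four-cycle -/
theorem no4 {G : SimpleGraph V} (hG : NoC G) {a b c d : V} (hab : G.Adj a b) (hbc : G.Adj b c)
    (hcd : G.Adj c d) (hda : G.Adj d a) (hac : a ≠ c) (hbd : b ≠ d) : False := by
  let p : G.Walk b a := SimpleGraph.Walk.cons hbc (SimpleGraph.Walk.cons hcd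
    (SimpleGraph.Walk.cons hda SimpleGraph.Walk.nil))
  have hp : (SimpleGraph.Walk.cons hab p).IsCycle := by
    rw [SimpleGraph.Walk.cons_isCycle_iff]
    constructor
    · rw [SimpleGraph.Walk.isPath_def]
      simp only [p, SimpleGraph.Walk.support_cons, SimpleGraph.Walk.support_nil,
        List.nodup_cons, List.mem_cons, List.not_mem_nil, or_false, not_or, not_false_eq_true,
        List.nodup_nil, and_true]
      exact ⟨⟨hbc.ne, hbd, hab.ne'⟩, ⟨hcd.ne, hac.symm⟩, hda.ne⟩
    · simp only [p, SimpleGraph.Walk.edges_cons, SimpleGraph.Walk.edges_nil,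
        List.mem_cons, List.not_mem_nil, or_false, not_or]
      refine ⟨?_, ?_, ?_⟩
      · intro h
        rcases Sym2.eq_iff.1 h with ⟨h1, _⟩ | ⟨h1, _⟩
        · exact hab.ne h1
        · exact hac h1
      · intro h
        rcases Sym2.eq_iff.1 h with ⟨h1, _⟩ | ⟨h1, h2⟩
        · exact hac h1
        · exact hbc.ne h2
      · intro h
        rcases Sym2.eq_iff.1 h with ⟨h1, _⟩ | ⟨_, h2⟩
        · exact hda.ne h1.symm
        · exact hbd h2
  have h := hG a _ hp
  have hl : (SimpleGraph.Walk.cons hab p).length = 4 := rfl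
  rw [hl] at h
  omega

/-- two different 3-cliques share at most one vertex -/
theorem share {G : SimpleGraph V} (hG : NoC G) {s t : Finset V} (hs : G.IsNClique 3 s)
    (ht : G.IsNClique 3 t) {u v : V} (huv : u ≠ v) (hus : u ∈ s) (hvs : v ∈ s) (hut : u ∈ t)
    (hvt : v ∈ t) : s = t := by
  classical
  by_contra hne
  -- third vertices
  have key : ∀ r : Finset V, G.IsNClique 3 r → u ∈ r → v ∈ r →
      ∃ w, w ≠ u ∧ w ≠ v ∧ r = {u, v, w} := by
    intro r hr hu hv
    have h1 : ((r.erase u).erase v).card = 1 := by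
      rw [Finset.card_erase_of_mem (Finset.mem_erase.2 ⟨huv.symm, hv⟩),
        Finset.card_erase_of_mem hu, hr.card_eq]
    obtain ⟨w, hw⟩ := Finset.card_eq_one.1 h1
    have hwm : w ∈ (r.erase u).erase v := by
      rw [hw]
      exact Finset.mem_singleton_self w
    have h2 := Finset.mem_erase.1 hwm
    have h3 := Finset.mem_erase.1 h2.2
    refine ⟨w, h3.1, h2.1, ?_⟩
    ext x
    simp only [Finset.mem_insert, Finset.mem_singleton]
    constructor
    · intro hx
      by_cases hxu : x = u
      · exact Or.inl hxu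
      by_cases hxv : x = v
      · exact Or.inr (Or.inl hxv)
      have hx2 : x ∈ (r.erase u).erase v :=
        Finset.mem_erase.2 ⟨hxv, Finset.mem_erase.2 ⟨hxu, hx⟩⟩
      rw [hw] at hx2
      exact Or.inr (Or.inr (Finset.mem_singleton.1 hx2))
    · rintro (rfl | rfl | rfl)
      · exact hu
      · exact hv
      · exact h3.2
  obtain ⟨w, hwu, hwv, hsw⟩ := key s hs hus hvs
  obtain ⟨w', hwu', hwv', htw⟩ := key t ht hut hvt
  have hww : w ≠ w' := by
    rintro rfl
    exact hne (hsw.trans htw.symm)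
  have hws : w ∈ s := by rw [hsw]; simp
  have hwt : w' ∈ t := by rw [htw]; simp
  have a1 : G.Adj u w := hs.isClique (by exact_mod_cast hus) (by exact_mod_cast hws) hwu.symm
  have a2 : G.Adj w v := hs.isClique (by exact_mod_cast hws) (by exact_mod_cast hvs) hwv
  have a3 : G.Adj v w' := ht.isClique (by exact_mod_cast hvt) (by exact_mod_cast hwt) hwv'.symm
  have a4 : G.Adj w' u := ht.isClique (by exact_mod_cast hwt) (by exact_mod_cast hut) hwu'
  exact no4 hG a1 a2 a3 a4 huv hww

/-- the blocks -/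
def Bl (G : SimpleGraph V) (s : Finset V) : Prop :=
  G.IsNClique 3 s ∨ (G.IsNClique 2 s ∧ ∀ t, G.IsNClique 3 t → ¬ s ⊆ t)

theorem Bl.clique {G : SimpleGraph V} {s : Finset V} (h : Bl G s) {u v : V} (hu : u ∈ s)
    (hv : v ∈ s) (huv : u ≠ v) : G.Adj u v := by
  rcases h with h | h
  · exact h.isClique (by exact_mod_cast hu) (by exact_mod_cast hv) huv
  · exact h.1.isClique (by exact_mod_cast hu) (by exact_mod_cast hv) huv

theorem Bl.card {G : SimpleGraph V} {s : Finset V} (h : Bl G s) : s.card = 2 ∨ s.card = 3 := by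
  rcases h with h | h
  · exact Or.inr h.card_eq
  · exact Or.inl h.1.card_eq

/-- two blocks with two common vertices are equal -/
theorem Bl.eq {G : SimpleGraph V} (hG : NoC G) {s t : Finset V} (hs : Bl G s) (ht : Bl G t)
    {u v : V} (huv : u ≠ v) (hus : u ∈ s) (hvs : v ∈ s) (hut : u ∈ t) (hvt : v ∈ t) : s = t := by
  have pair : ∀ r : Finset V, r.card = 2 → u ∈ r → v ∈ r → r = {u, v} := by
    intro r hr hu hv
    symm
    apply Finset.eq_of_subset_of_card_le
    · intro x hx
      simp only [Finset.mem_insert, Finset.mem_singleton] at hx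
      rcases hx with rfl | rfl
      · exact hu
      · exact hv
    · rw [hr, Finset.card_pair huv]
  have sub : ∀ r : Finset V, u ∈ r → v ∈ r → ({u, v} : Finset V) ⊆ r := by
    intro r hu hv x hx
    simp only [Finset.mem_insert, Finset.mem_singleton] at hx
    rcases hx with rfl | rfl
    · exact hu
    · exact hv
  rcases hs with hs | ⟨hs, hs2⟩ <;> rcases ht with ht | ⟨ht, ht2⟩
  · exact share hG hs ht huv hus hvs hut hvt
  · exfalso
    apply ht2 s hs
    rw [pair t ht.card_eq hut hvt]
    exact sub s hus hvs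
  · exfalso
    apply hs2 t ht
    rw [pair s hs.card_eq hus hvs]
    exact sub t hut hvt
  · rw [pair s hs.card_eq hus hvs, pair t ht.card_eq hut hvt]

/-- every edge lies in a block -/
theorem exists_block {G : SimpleGraph V} {u v : V} (h : G.Adj u v) :
    ∃ s, Bl G s ∧ u ∈ s ∧ v ∈ s := by
  classical
  by_cases ht : ∃ t, G.IsNClique 3 t ∧ ({u, v} : Finset V) ⊆ t
  · obtain ⟨t, ht1, ht2⟩ := ht
    exact ⟨t, Or.inl ht1, ht2 (by simp), ht2 (by simp)⟩
  · refine ⟨{u, v}, Or.inr ⟨⟨?_, Finset.card_pair h.ne⟩, fun t ht1 ht2 => ht ⟨t, ht1, ht2⟩⟩,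
      by simp, by simp⟩
    intro x hx y hy hxy
    simp only [Finset.coe_insert, Finset.coe_singleton, Set.mem_insert_iff,
      Set.mem_singleton_iff] at hx hy
    rcases hx with rfl | rfl <;> rcases hy with rfl | rfl
    · exact absurd rfl hxy
    · exact h
    · exact h.symm
    · exact absurd rfl hxy

/-- the graph of a set of blocks -/
def XG (Y : Finset (Finset V)) : SimpleGraph V :=
  SimpleGraph.fromRel (fun u v => ∃ i ∈ Y, u ∈ i ∧ v ∈ i)

theorem XG_adj {Y : Finset (Finset V)} {u v : V} :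
    (XG Y).Adj u v ↔ u ≠ v ∧ ∃ i ∈ Y, u ∈ i ∧ v ∈ i := by
  unfold XG
  rw [SimpleGraph.fromRel_adj]
  constructor
  · rintro ⟨h, ⟨i, hi, h1, h2⟩ | ⟨i, hi, h1, h2⟩⟩
    · exact ⟨h, i, hi, h1, h2⟩
    · exact ⟨h, i, hi, h2, h1⟩
  · rintro ⟨h, h1⟩
    exact ⟨h, Or.inl h1⟩

/-- the edges inside a block -/
def E (i : Finset V) : Finset (Sym2 V) := i.offDiag.image (fun q => s(q.1, q.2))

theorem mem_E {i : Finset V} {e : Sym2 V} :
    e ∈ E i ↔ ∃ u v, u ∈ i ∧ v ∈ i ∧ u ≠ v ∧ s(u, v) = e := by
  unfold E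
  simp only [Finset.mem_image, Finset.mem_offDiag, Prod.exists]
  constructor
  · rintro ⟨u, v, ⟨hu, hv, huv⟩, h⟩
    exact ⟨u, v, hu, hv, huv, h⟩
  · rintro ⟨u, v, hu, hv, huv, h⟩
    exact ⟨u, v, ⟨hu, hv, huv⟩, h⟩

theorem card_E (i : Finset V) : (E i).card = i.card.choose 2 := by
  unfold E
  exact Sym2.card_image_offDiag i

end

end BLK_

open BLK_ in
theorem blk_proof : Stmt_BLK := by
  classical
  intro V _ _ G hG hX
  refine ⟨Finset.univ.filter (fun s => Bl G s), fun s => s.toList, ⟨?_, ?_⟩, ?_⟩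
  · intro i hi
    rw [Finset.length_toList]
    exact (Finset.mem_filter.1 hi).2.card
  · intro Y hY hYne
    have hB : ∀ i ∈ Y, Bl G i := fun i hi => (Finset.mem_filter.1 (hY hi)).2
    have hle : XG Y ≤ G := by
      intro u v huv
      obtain ⟨h1, i, hi, hu, hv⟩ := XG_adj.1 huv
      exact (hB i hi).clique hu hv h1
    have hne : XG Y ≠ ⊥ := by
      obtain ⟨i, hi⟩ := hYne
      have hc : 1 < i.card := by
        rcases (hB i hi).card with h | h <;> omega
      obtain ⟨u, hu, v, hv, huv⟩ := Finset.one_lt_card.1 hc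
      intro h
      have h1 : (XG Y).Adj u v := XG_adj.2 ⟨huv, i, hi, hu, hv⟩
      rw [h] at h1
      exact h1
    have hI := hX (XG Y) hle hne
    unfold Ineq at hI
    -- vertices
    have hcov : cov (fun s : Finset V => s.toList) Y = Y.biUnion id := by
      unfold cov
      apply Finset.biUnion_congr rfl
      intro i _
      exact Finset.toList_toFinset i
    have hV : nV (XG Y) = (cov (fun s : Finset V => s.toList) Y).card := by
      unfold nV
      rw [← Set.ncard_coe_finset, hcov]
      congr 1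
      ext v
      rw [SimpleGraph.mem_support]
      simp only [Finset.coe_biUnion, id_eq, Set.mem_iUnion, Finset.mem_coe, exists_prop]
      constructor
      · rintro ⟨w, hw⟩
        obtain ⟨_, i, hi, hv, _⟩ := XG_adj.1 hw
        exact ⟨i, hi, hv⟩
      · rintro ⟨i, hi, hv⟩
        have hc : 1 < i.card := by
          rcases (hB i hi).card with h | h <;> omega
        obtain ⟨w, hw, hwv⟩ := Finset.exists_mem_ne hc v
        exact ⟨w, XG_adj.2 ⟨hwv.symm, i, hi, hv, hw⟩⟩
    -- edges
    have hE : ∑ i ∈ Y, i.card.choose 2 ≤ nE (XG Y) := by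
      have h1 : (Y.biUnion E).card = ∑ i ∈ Y, i.card.choose 2 := by
        rw [Finset.card_biUnion]
        · exact Finset.sum_congr rfl fun i _ => card_E i
        · intro i hi j hj hij
          refine Finset.disjoint_left.2 fun e he he' => ?_
          obtain ⟨u, v, hu, hv, huv, rfl⟩ := mem_E.1 he
          obtain ⟨u', v', hu', hv', _, h2⟩ := mem_E.1 he'
          apply hij
          rcases Sym2.eq_iff.1 h2 with ⟨rfl, rfl⟩ | ⟨rfl, rfl⟩
          · exact (hB i hi).eq hG (hB j hj) huv hu hv hu' hv'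
          · exact (hB i hi).eq hG (hB j hj) huv hu hv hv' hu'
      rw [← h1, ← Set.ncard_coe_finset]
      unfold nE
      apply Set.ncard_le_ncard _ (Set.toFinite _)
      intro e he
      obtain ⟨i, hi, he⟩ := Finset.mem_biUnion.1 (Finset.mem_coe.1 he)
      obtain ⟨u, v, hu, hv, huv, rfl⟩ := mem_E.1 he
      rw [SimpleGraph.mem_edgeSet]
      exact XG_adj.2 ⟨huv, i, hi, hu, hv⟩
    -- triangles
    have hT : nT (XG Y) ≤ (Y.filter (fun i => i.card = 3)).card := by
      unfold nT
      rw [← Set.ncard_coe_finset]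
      apply Set.ncard_le_ncard _ (Set.toFinite _)
      intro t ht
      have ht' : (XG Y).IsNClique 3 t := ht
      have htG : G.IsNClique 3 t := ht'.mono hle
      have hc : 1 < t.card := by
        rw [ht'.card_eq]
        omega
      obtain ⟨u, hu, v, hv, huv⟩ := Finset.one_lt_card.1 hc
      have h1 : (XG Y).Adj u v :=
        ht'.isClique (by exact_mod_cast hu) (by exact_mod_cast hv) huv
      obtain ⟨_, i, hi, hui, hvi⟩ := XG_adj.1 h1
      have h2 : i = t := (hB i hi).eq hG (Or.inl htG) huv hui hvi hu hv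
      rw [Finset.mem_coe, Finset.mem_filter]
      rw [← h2]
      refine ⟨hi, ?_⟩
      rw [h2]
      exact ht'.card_eq
    -- arithmetic
    have hW : wt (fun s : Finset V => s.toList) Y + (Y.filter (fun i => i.card = 3)).card
        = 2 * ∑ i ∈ Y, i.card.choose 2 := by
      unfold wt
      rw [Finset.card_filter, ← Finset.sum_add_distrib, Finset.mul_sum]
      apply Finset.sum_congr rfl
      intro i hi
      simp only [Finset.length_toList]
      rcases (hB i hi).card with h | h
      · rw [h]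
        decide
      · rw [h]
        decide
    rw [← hV]
    omega
  · intro u v huv
    obtain ⟨s, hs, hu, hv⟩ := exists_block huv
    exact ⟨s, Finset.mem_filter.2 ⟨Finset.mem_univ s, hs⟩, Finset.mem_toList.2 hu,
      Finset.mem_toList.2 hv⟩

end Pool.Agent.TCH
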