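import Pool.Agent.TCH.Api

/-!
# MP_dbd377_co : module CHO (from the graph polynomial to colourings from lists)
-/

set_option autoImplicit false

namespace Pool.Agent.TCH

open MvPolynomial

namespace CHO_

theorem list_prod_hom {V : Type} (p : V) (l : List V) :
    ((l.map (fun q => (X p - X q : MvPolynomial V ℤ))).prod).IsHomogeneous l.length := by
  induction l with
  | nil => simpa using isHomogeneous_one V ℤ
  | cons q l ih =>
    simp only [List.map_cons, List.prod_cons, List.length_cons]
    have h : (X p - X q : MvPolynomial V ℤ).IsHomogeneous 1 :=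
      (isHomogeneous_X ℤ p).sub (isHomogeneous_X ℤ q)
    have h2 := h.mul ih
    rwa [add_comm] at h2

theorem lv_hom {V : Type} (l : List V) : ∃ n, (lv l).IsHomogeneous n := by
  induction l with
  | nil => exact ⟨0, isHomogeneous_one V ℤ⟩
  | cons p l ih =>
    obtain ⟨n, hn⟩ := ih
    exact ⟨_, (list_prod_hom p l).mul hn⟩

theorem eval_lv {V : Type} (s : V → ℤ) (l : List V) (h : eval s (lv l) ≠ 0) :
    l.Pairwise (fun u v => s u ≠ s v) := by
  induction l with
  | nil => exact List.Pairwise.nil
  | cons p l ih =>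
    simp only [lv, map_mul] at h
    have h1 := left_ne_zero_of_mul h
    have h2 := right_ne_zero_of_mul h
    refine List.Pairwise.cons ?_ (ih h2)
    intro q hq hpq
    apply h1
    rw [map_list_prod, List.map_map, List.prod_eq_zero_iff, List.mem_map]
    exact ⟨q, hq, by simp [hpq]⟩

end CHO_

theorem cho_proof : Stmt_CHO := by
  intro V ι _ _ _ I b _ hG L hL
  obtain ⟨m, hm2, hm⟩ := hG
  choose n hn using fun i : ι => CHO_.lv_hom (b i)
  have hP : (PP I b).IsHomogeneous (∑ i ∈ I, n i) :=
    IsHomogeneous.prod I (fun i => lv (b i)) n (fun i _ => hn i)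
  have hP0 : PP I b ≠ 0 := by
    intro h0
    rw [h0] at hm
    simp at hm
  have hdeg : m.degree = ∑ i ∈ I, n i := by
    by_contra hne
    exact hm (hP.coeff_eq_zero hne)
  have htd : (PP I b).totalDegree = m.degree := by
    rw [hP.totalDegree hP0, hdeg]
  obtain ⟨s, hs, hev⟩ := combinatorial_nullstellensatz_exists_eval_nonzero (PP I b) m hm htd
    (fun v => (L v).image (fun c : ℕ => (c : ℤ))) (by
      intro v
      rw [Finset.card_image_of_injective _ Nat.cast_injective]
      have h1 := hm2 v
      have h2 := hL v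
      omega)
  have hs' : ∀ v, ∃ c, c ∈ L v ∧ (c : ℤ) = s v := by
    intro v
    have h1 := hs v
    rw [Finset.mem_image] at h1
    exact h1
  choose f hfL hfs using hs'
  refine ⟨f, hfL, ?_⟩
  intro i hi u hu v hv huv hfuv
  have h1 : eval s (lv (b i)) ≠ 0 := by
    intro h0
    apply hev
    unfold PP
    rw [map_prod]
    exact Finset.prod_eq_zero hi h0
  have h2 := CHO_.eval_lv s (b i) h1
  have hsym : Std.Symm (fun u v : V => s u ≠ s v) := ⟨fun a b h => h.symm⟩
  have h3 := h2.forall hu hv huv
  apply h3
  rw [← hfs u, ← hfs v, hfuv]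

end Pool.Agent.TCH
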