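import Pool.Agent.TCH.Api

/-!
# TCH, module CNT : if all degrees are at least three there is a reducible configuration
-/

set_option autoImplicit false

namespace Pool.Agent.TCH

namespace CNT_

variable {V ι : Type} [DecidableEq V] [DecidableEq ι]

/-- triangle blocks through `v` -/
def TT (I : Finset ι) (b : ι → List V) (v : V) : Finset ι :=
  I.filter (fun i => v ∈ b i ∧ (b i).length = 3)

/-- edge blocks through `v` -/
def EE (I : Finset ι) (b : ι → List V) (v : V) : Finset ι :=
  I.filter (fun i => v ∈ b i ∧ (b i).length = 2)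

/-- special points -/
def Sp (I : Finset ι) (b : ι → List V) (v : V) : Prop :=
  (TT I b v).card = 1 ∧ (EE I b v).card = 1

instance (I : Finset ι) (b : ι → List V) (v : V) : Decidable (Sp I b v) := by
  unfold Sp; infer_instance

theorem filter_eq {I : Finset ι} {b : ι → List V} (hC : C3 I b) (v : V) :
    I.filter (fun i => v ∈ b i) = TT I b v ∪ EE I b v := by
  ext i
  simp only [TT, EE, Finset.mem_filter, Finset.mem_union]
  constructor
  · rintro ⟨h1, h2⟩
    rcases hC.len i h1 with h | h
    · exact Or.inr ⟨h1, h2, h⟩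
    · exact Or.inl ⟨h1, h2, h⟩
  · rintro (⟨h1, h2, _⟩ | ⟨h1, h2, _⟩) <;> exact ⟨h1, h2⟩

theorem disj (I : Finset ι) (b : ι → List V) (v : V) : Disjoint (TT I b v) (EE I b v) := by
  rw [Finset.disjoint_left]
  intro i hi hi'
  simp only [TT, EE, Finset.mem_filter] at hi hi'
  omega

theorem sum_eq {I : Finset ι} {b : ι → List V} (hC : C3 I b) (v : V) (f : ι → ℕ) (p q : ℕ)
    (hp : ∀ i, (b i).length = 3 → f i = p) (hq : ∀ i, (b i).length = 2 → f i = q) :
    ∑ i ∈ I.filter (fun i => v ∈ b i), f i = (TT I b v).card * p + (EE I b v).card * q := by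
  rw [filter_eq hC v, Finset.sum_union (disj I b v)]
  congr 1
  · rw [Finset.sum_congr rfl (g := fun _ => p), Finset.sum_const, smul_eq_mul]
    intro i hi
    simp only [TT, Finset.mem_filter] at hi
    exact hp i hi.2.2
  · rw [Finset.sum_congr rfl (g := fun _ => q), Finset.sum_const, smul_eq_mul]
    intro i hi
    simp only [EE, Finset.mem_filter] at hi
    exact hq i hi.2.2

theorem dg_eq {I : Finset ι} {b : ι → List V} (hC : C3 I b) (v : V) :
    dg I b v = (TT I b v).card * 2 + (EE I b v).card * 1 := by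
  unfold dg
  refine sum_eq hC v _ 2 1 ?_ ?_
  · intro i hi
    rw [hi]
  · intro i hi
    rw [hi]

/-- a nodup list of length two through `x` -/
theorem perm2 {l : List V} {x : V} (hl : l.length = 2) (hx : x ∈ l) :
    ∃ a, l.Perm [x, a] := by
  have h := List.perm_cons_erase hx
  have h1 : (l.erase x).length = 1 := by
    rw [List.length_erase_of_mem hx, hl]
  obtain ⟨a, ha⟩ := List.length_eq_one_iff.1 h1
  exact ⟨a, by rw [ha] at h; exact h⟩

theorem perm3 {l : List V} {x y : V} (hl : l.length = 3) (hx : x ∈ l) (hy : y ∈ l)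
    (hxy : x ≠ y) : ∃ c, l.Perm [x, y, c] := by
  have h := List.perm_cons_erase hx
  have h1 : (l.erase x).length = 2 := by
    rw [List.length_erase_of_mem hx, hl]
  have hy' : y ∈ l.erase x := (List.mem_erase_of_ne hxy.symm).2 hy
  obtain ⟨c, hc⟩ := perm2 h1 hy'
  exact ⟨c, h.trans (hc.cons x)⟩

/-- two special points in a triangle give a configuration -/
theorem cfg {I : Finset ι} {b : ι → List V} (hC : C3 I b) (hnd : ∀ i ∈ I, (b i).Nodup)
    {h : ι} (hI : h ∈ I) (hl : (b h).length = 3) {x1 x2 : V} (h1 : x1 ∈ b h) (h2 : x2 ∈ b h)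
    (hne : x1 ≠ x2) (s1 : Sp I b x1) (s2 : Sp I b x2) :
    ∃ (e1 e2 : ι) (a a' c : V), Cfg I b h e1 e2 x1 x2 a a' c := by
  obtain ⟨t1, e1'⟩ := s1
  obtain ⟨t2, e2'⟩ := s2
  obtain ⟨c, hc⟩ := perm3 hl h1 h2 hne
  obtain ⟨e1, he1⟩ := Finset.card_eq_one.1 e1'
  obtain ⟨e2, he2⟩ := Finset.card_eq_one.1 e2'
  obtain ⟨k1, hk1⟩ := Finset.card_eq_one.1 t1
  obtain ⟨k2, hk2⟩ := Finset.card_eq_one.1 t2
  have m1 : e1 ∈ EE I b x1 := by rw [he1]; exact Finset.mem_singleton_self _
  have m2 : e2 ∈ EE I b x2 := by rw [he2]; exact Finset.mem_singleton_self _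
  have hk1' : h = k1 := by
    rw [← Finset.mem_singleton, ← hk1]
    exact Finset.mem_filter.2 ⟨hI, h1, hl⟩
  have hk2' : h = k2 := by
    rw [← Finset.mem_singleton, ← hk2]
    exact Finset.mem_filter.2 ⟨hI, h2, hl⟩
  obtain ⟨i1, m1x, m1l⟩ := Finset.mem_filter.1 m1
  obtain ⟨i2, m2x, m2l⟩ := Finset.mem_filter.1 m2
  obtain ⟨a, ha⟩ := perm2 m1l m1x
  obtain ⟨a', ha'⟩ := perm2 m2l m2x
  have hhe1 : h ≠ e1 := by
    rintro rfl
    omega
  have hhe2 : h ≠ e2 := by
    rintro rfl
    omega
  refine ⟨e1, e2, a, a', c, hI, i1, i2, hhe1, hhe2, ?_, hc, ha, ha', ?_, ?_⟩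
  · rintro rfl
    -- the triangle `h` and the edge `e1` cover only three points
    have hp := hC.pot {h, e1} (by
      intro i hi
      rcases Finset.mem_insert.1 hi with rfl | hi
      · exact hI
      · rw [Finset.mem_singleton.1 hi]; exact i1) ⟨h, Finset.mem_insert_self _ _⟩
    have hw : wt b {h, e1} = 7 := by
      unfold wt
      rw [Finset.sum_pair hhe1, hl, m1l]
    have hcov : cov b {h, e1} ⊆ (b h).toFinset := by
      intro v hv
      unfold cov at hv
      rw [Finset.mem_biUnion] at hv
      obtain ⟨i, hi, hvi⟩ := hv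
      rcases Finset.mem_insert.1 hi with rfl | hi
      · exact hvi
      · rw [Finset.mem_singleton.1 hi, List.mem_toFinset] at hvi
        have hb : (b e1).Perm [x1, x2] := by
          have hx2 : x2 ∈ [x1, a] := ha.mem_iff.1 m2x
          rcases List.mem_cons.1 hx2 with h | h
          · exact absurd h.symm hne
          · rw [List.mem_singleton.1 h]; exact ha
        rw [List.mem_toFinset]
        have := hb.mem_iff.1 hvi
        simp only [List.mem_cons, List.not_mem_nil, or_false] at this
        rcases this with rfl | rfl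
        · exact h1
        · exact h2
    have h3 : (cov b {h, e1}).card ≤ 3 := by
      calc (cov b {h, e1}).card ≤ (b h).toFinset.card := Finset.card_le_card hcov
        _ ≤ (b h).length := List.toFinset_card_le _
        _ = 3 := hl
    omega
  · intro i hi hx
    rcases hC.len i hi with hl' | hl'
    · right
      rw [← Finset.mem_singleton, ← he1]
      exact Finset.mem_filter.2 ⟨hi, hx, hl'⟩
    · left
      rw [hk1', ← Finset.mem_singleton, ← hk1]
      exact Finset.mem_filter.2 ⟨hi, hx, hl'⟩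
  · intro i hi hx
    rcases hC.len i hi with hl' | hl'
    · right
      rw [← Finset.mem_singleton, ← he2]
      exact Finset.mem_filter.2 ⟨hi, hx, hl'⟩
    · left
      rw [hk2', ← Finset.mem_singleton, ← hk2]
      exact Finset.mem_filter.2 ⟨hi, hx, hl'⟩

/-- the charges -/
def ff (I : Finset ι) (b : ι → List V) (i : ι) (v : V) : ℕ :=
  if (b i).length = 3 then (if Sp I b v then 12 else 9) else 6

theorem low {I : Finset ι} {b : ι → List V} (hC : C3 I b) {v : V} (hd : 3 ≤ dg I b v) :
    18 ≤ ∑ i ∈ I.filter (fun i => v ∈ b i), ff I b i v := by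
  rw [sum_eq hC v (fun i => ff I b i v) (if Sp I b v then 12 else 9) 6
    (fun i hi => by simp only [ff]; rw [if_pos hi])
    (fun i hi => by simp only [ff]; rw [if_neg (by omega)])]
  rw [dg_eq hC v] at hd
  split_ifs with hs
  · obtain ⟨h1, h2⟩ := hs
    omega
  · unfold Sp at hs
    by_contra hlt
    apply hs
    omega

theorem up {I : Finset ι} {b : ι → List V} (hC : C3 I b) (hnd : ∀ i ∈ I, (b i).Nodup)
    (hno : ∀ i ∈ I, (b i).length = 3 → ∀ v ∈ b i, ∀ w ∈ b i, Sp I b v → Sp I b w → v = w)
    {i : ι} (hi : i ∈ I) :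
    ∑ v ∈ (b i).toFinset, ff I b i v ≤ 6 * (3 * (b i).length - 4) := by
  have hcard : (b i).toFinset.card = (b i).length := List.toFinset_card_of_nodup (hnd i hi)
  rcases hC.len i hi with hl | hl
  · have h1 : ∀ v ∈ (b i).toFinset, ff I b i v = 6 := by
      intro v _
      unfold ff
      rw [if_neg (by omega)]
    rw [Finset.sum_congr rfl h1, Finset.sum_const, hcard, hl]
    simp
  · have h1 : ∀ v ∈ (b i).toFinset, ff I b i v = 9 + (if Sp I b v then 3 else 0) := by
      intro v _
      unfold ff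
      rw [if_pos hl]
      split_ifs <;> rfl
    rw [Finset.sum_congr rfl h1, Finset.sum_add_distrib, Finset.sum_const, hcard, hl,
      ← Finset.sum_filter, Finset.sum_const]
    have h2 : ((b i).toFinset.filter (fun v => Sp I b v)).card ≤ 1 := by
      rw [Finset.card_le_one]
      intro v hv w hw
      rw [Finset.mem_filter, List.mem_toFinset] at hv hw
      exact hno i hi hl v hv.1 w hw.1 hv.2 hw.2
    simp only [smul_eq_mul]
    omega

end CNT_

open CNT_ in
theorem cnt_proof (hFCT : Stmt_FCT) : Stmt_CNT := by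
  intro V ι _ _ I b hC hne hdeg
  have hnd := (hFCT V ι I b hC).1
  by_contra hcon
  have hno : ∀ i ∈ I, (b i).length = 3 → ∀ v ∈ b i, ∀ w ∈ b i, Sp I b v → Sp I b w → v = w := by
    intro i hi hl v hv w hw sv sw
    by_contra hvw
    obtain ⟨e1, e2, a, a', c, h⟩ := cfg hC hnd hi hl hv hw hvw sv sw
    exact hcon ⟨i, e1, e2, v, w, a, a', c, h⟩
  have hpot := hC.pot I (Finset.Subset.refl I) hne
  have key : 18 * (cov b I).card ≤ 6 * wt b I := by
    calc 18 * (cov b I).card = ∑ v ∈ cov b I, 18 := by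
          rw [Finset.sum_const, smul_eq_mul, mul_comm]
      _ ≤ ∑ v ∈ cov b I, ∑ i ∈ I.filter (fun i => v ∈ b i), ff I b i v :=
          Finset.sum_le_sum (fun v hv => low hC (hdeg v hv))
      _ = ∑ i ∈ I, ∑ v ∈ (b i).toFinset, ff I b i v := by
          refine Finset.sum_comm' ?_
          intro v i
          rw [Finset.mem_filter, List.mem_toFinset]
          constructor
          · rintro ⟨_, h1, h2⟩
            exact ⟨h2, h1⟩
          · rintro ⟨h1, h2⟩
            refine ⟨?_, h2, h1⟩
            unfold cov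
            exact Finset.mem_biUnion.2 ⟨i, h2, List.mem_toFinset.2 h1⟩
      _ ≤ ∑ i ∈ I, 6 * (3 * (b i).length - 4) :=
          Finset.sum_le_sum (fun i hi => up hC hnd hno hi)
      _ = 6 * wt b I := by
          unfold wt
          rw [Finset.mul_sum]
  omega

end Pool.Agent.TCH
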