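import Pool.Agent.TCH.Api

/-!
# MP_dbd377_co, module COR: reduction of the inequality `Ineq` to the Euler inequality
-/

set_option autoImplicit false

namespace Pool.Agent.TCH

namespace COR_

open Classical Finset

variable {V : Type} [Fintype V]

/-- number of 3-cliques through `v` -/
noncomputable def tn (X : SimpleGraph V) (v : V) : ℕ := ((X.cliqueFinset 3).filter (fun s => v ∈ s)).card

theorem nE_eq (X : SimpleGraph V) : nE X = X.edgeFinset.card := by
  unfold nE
  rw [← SimpleGraph.coe_edgeFinset, Set.ncard_coe_finset]

theorem nT_eq (X : SimpleGraph V) : nT X = (X.cliqueFinset 3).card := by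
  unfold nT
  rw [← Set.ncard_coe_finset, SimpleGraph.coe_cliqueFinset]
  rfl

theorem mem_cf (X : SimpleGraph V) (s : Finset V) : s ∈ X.cliqueFinset 3 ↔ X.IsNClique 3 s :=
  SimpleGraph.mem_cliqueFinset_iff

theorem mem_sp (X : SimpleGraph V) (w : V) : w ∈ univ.filter (fun v => v ∈ X.support) ↔ w ∈ X.support := by
  simp

theorem nV_eq (X : SimpleGraph V) : nV X = (univ.filter (fun v => v ∈ X.support)).card := by
  unfold nV
  rw [← Set.ncard_coe_finset]
  congr 1
  ext v
  simp

theorem sum_tn (X : SimpleGraph V) : ∑ v, tn X v = 3 * nT X := by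
  unfold tn
  simp_rw [Finset.card_filter]
  rw [Finset.sum_comm]
  have h : ∀ s ∈ X.cliqueFinset 3, ∑ v : V, (if v ∈ s then 1 else 0) = 3 := by
    intro s hs
    rw [← Finset.card_filter]
    have h1 : (univ.filter (fun v => v ∈ s)) = s := by ext v; simp
    rw [h1]
    exact (SimpleGraph.mem_cliqueFinset_iff.1 hs).card_eq
  rw [Finset.sum_congr rfl h, Finset.sum_const, nT_eq, smul_eq_mul, mul_comm]

omit [Fintype V] in
/-- two triangles with a common edge give a 4-cycle -/
theorem no_share (X : SimpleGraph V) (hX : NoC X) {v w a b : V} (h1 : X.Adj v a) (h2 : X.Adj a w)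
    (h3 : X.Adj w b) (h4 : X.Adj b v) (hvw : v ≠ w) (hab : a ≠ b) : False := by
  let c : X.Walk v v := SimpleGraph.Walk.cons h1 (SimpleGraph.Walk.cons h2 (SimpleGraph.Walk.cons h3
    (SimpleGraph.Walk.cons h4 SimpleGraph.Walk.nil)))
  have hc : c.IsCycle := by
    rw [SimpleGraph.Walk.cons_isCycle_iff]
    constructor
    · simp only [SimpleGraph.Walk.cons_isPath_iff, SimpleGraph.Walk.IsPath.nil,
        SimpleGraph.Walk.support_cons, SimpleGraph.Walk.support_nil, List.mem_cons, List.not_mem_nil,
        or_false, true_and]
      refine ⟨⟨h4.ne, ?_⟩, ?_⟩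
      · rintro (h | h)
        · exact h3.ne h
        · exact hvw h.symm
      · rintro (h | h | h)
        · exact h2.ne h
        · exact hab h
        · exact h1.ne h.symm
    · simp only [SimpleGraph.Walk.edges_cons, SimpleGraph.Walk.edges_nil, List.mem_cons,
        List.not_mem_nil, or_false, Sym2.eq_iff, not_or]
      refine ⟨?_, ?_, ?_⟩
      · constructor
        · rintro ⟨h, _⟩
          exact h1.ne h
        · rintro ⟨h, _⟩
          exact hvw h
      · constructor
        · rintro ⟨h, _⟩
          exact hvw h
        · rintro ⟨h, _⟩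
          exact h4.ne h.symm
      · constructor
        · rintro ⟨h, _⟩
          exact h4.ne h.symm
        · rintro ⟨_, h⟩
          exact hab h
  have hl : c.length = 4 := rfl
  have := hX v c hc
  rw [hl] at this
  omega

theorem two_tn_le (X : SimpleGraph V) (hX : NoC X) (v : V) : 2 * tn X v ≤ X.degree v := by
  have hdis : ∀ s ∈ (X.cliqueFinset 3).filter (fun s => v ∈ s),
      ∀ s' ∈ (X.cliqueFinset 3).filter (fun s => v ∈ s), s ≠ s' → Disjoint (s.erase v) (s'.erase v) := by
    intro s hs s' hs' hne
    rw [Finset.mem_filter, SimpleGraph.mem_cliqueFinset_iff] at hs hs'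
    rw [Finset.disjoint_left]
    intro w hw hw'
    rw [Finset.mem_erase] at hw hw'
    have hpos : 0 < ((s.erase v).erase w).card := by
      rw [Finset.card_erase_of_mem (Finset.mem_erase.2 hw), Finset.card_erase_of_mem hs.2, hs.1.card_eq]
      norm_num
    have hpos' : 0 < ((s'.erase v).erase w).card := by
      rw [Finset.card_erase_of_mem (Finset.mem_erase.2 hw'), Finset.card_erase_of_mem hs'.2, hs'.1.card_eq]
      norm_num
    obtain ⟨a, ha⟩ := Finset.card_pos.1 hpos
    obtain ⟨b, hb⟩ := Finset.card_pos.1 hpos'
    rw [Finset.mem_erase, Finset.mem_erase] at ha hb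
    have hs3 : s = {v, w, a} := by
      refine (Finset.eq_of_subset_of_card_le ?_ ?_).symm
      · intro x hx
        simp only [Finset.mem_insert, Finset.mem_singleton] at hx
        rcases hx with rfl | rfl | rfl
        · exact hs.2
        · exact hw.2
        · exact ha.2.2
      · rw [hs.1.card_eq, Finset.card_eq_three.2 ⟨v, w, a, hw.1.symm, ha.2.1.symm, ha.1.symm, rfl⟩]
    have hs3' : s' = {v, w, b} := by
      refine (Finset.eq_of_subset_of_card_le ?_ ?_).symm
      · intro x hx
        simp only [Finset.mem_insert, Finset.mem_singleton] at hx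
        rcases hx with rfl | rfl | rfl
        · exact hs'.2
        · exact hw'.2
        · exact hb.2.2
      · rw [hs'.1.card_eq, Finset.card_eq_three.2 ⟨v, w, b, hw.1.symm, hb.2.1.symm, hb.1.symm, rfl⟩]
    have hab : a ≠ b := by
      rintro rfl
      exact hne (hs3.trans hs3'.symm)
    have hcl := hs.1.isClique
    have hcl' := hs'.1.isClique
    refine no_share X hX (v := v) (w := w) (a := a) (b := b) ?_ ?_ ?_ ?_ hw.1.symm hab
    · exact hcl hs.2 ha.2.2 ha.2.1.symm
    · exact hcl ha.2.2 hw.2 ha.1
    · exact hcl' hw'.2 hb.2.2 hb.1.symm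
    · exact hcl' hb.2.2 hs'.2 hb.2.1
  have hcard : (((X.cliqueFinset 3).filter (fun s => v ∈ s)).biUnion (fun s => s.erase v)).card =
      2 * tn X v := by
    rw [Finset.card_biUnion hdis]
    have h1 : ∀ s ∈ (X.cliqueFinset 3).filter (fun s => v ∈ s), (s.erase v).card = 2 := by
      intro s hs
      rw [Finset.mem_filter, SimpleGraph.mem_cliqueFinset_iff] at hs
      rw [Finset.card_erase_of_mem hs.2, hs.1.card_eq]
    rw [Finset.sum_congr rfl h1, Finset.sum_const, smul_eq_mul, mul_comm]
    rfl
  rw [← hcard, ← SimpleGraph.card_neighborFinset_eq_degree]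
  refine Finset.card_le_card ?_
  intro w hw
  rw [Finset.mem_biUnion] at hw
  obtain ⟨s, hs, hws⟩ := hw
  rw [Finset.mem_filter, SimpleGraph.mem_cliqueFinset_iff] at hs
  rw [Finset.mem_erase] at hws
  rw [SimpleGraph.mem_neighborFinset]
  exact hs.1.isClique hs.2 hws.2 hws.1.symm

theorem nT_del (X : SimpleGraph V) (v : V) : nT X = nT (X.deleteIncidenceSet v) + tn X v := by
  rw [nT_eq, nT_eq]
  unfold tn
  rw [← Finset.card_filter_add_card_filter_not (s := X.cliqueFinset 3) (fun s => v ∈ s), add_comm]
  congr 2
  ext s
  rw [Finset.mem_filter, mem_cf, mem_cf]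
  constructor
  · rintro ⟨hs, hv⟩
    refine ⟨fun a ha b hb hab => ?_, hs.card_eq⟩
    rw [SimpleGraph.deleteIncidenceSet_adj]
    refine ⟨hs.isClique ha hb hab, ?_, ?_⟩
    · rintro rfl
      exact hv ha
    · rintro rfl
      exact hv hb
  · intro hs
    refine ⟨⟨fun a ha b hb hab => ?_, hs.card_eq⟩, ?_⟩
    · exact (SimpleGraph.deleteIncidenceSet_adj.1 (hs.isClique ha hb hab)).1
    · intro hv
      obtain ⟨a, ha, hav⟩ : ∃ a ∈ s, a ≠ v := by
        by_contra hcon
        push Not at hcon
        have h1 : s ⊆ {v} := fun x hx => Finset.mem_singleton.2 (hcon x hx)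
        have := Finset.card_le_card h1
        rw [hs.card_eq, Finset.card_singleton] at this
        omega
      have := SimpleGraph.deleteIncidenceSet_adj.1 (hs.isClique ha hv hav)
      exact this.2.2 rfl

theorem nE_del (X : SimpleGraph V) (v : V) : nE X = nE (X.deleteIncidenceSet v) + X.degree v := by
  have h1 := X.card_edgeFinset_deleteIncidenceSet v
  have h2 : X.degree v ≤ X.edgeFinset.card := X.degree_le_card_edgeFinset v
  have h3 : nE (X.deleteIncidenceSet v) = X.edgeFinset.card - X.degree v := by
    rw [nE_eq]
    convert h1 using 2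
    ext e
    simp only [SimpleGraph.mem_edgeFinset]
  rw [nE_eq X, h3]
  omega

theorem nV_del (X : SimpleGraph V) (v : V) (hv : v ∈ X.support) :
    nV (X.deleteIncidenceSet v) + 1 ≤ nV X := by
  have h2 : nV (X.deleteIncidenceSet v) ≤ ((univ.filter (fun w => w ∈ X.support)).erase v).card := by
    rw [nV_eq]
    refine Finset.card_le_card ?_
    intro w hw
    rw [mem_sp] at hw
    have := SimpleGraph.support_deleteIncidenceSet_subset X v hw
    rw [Finset.mem_erase, mem_sp]
    exact ⟨this.2, this.1⟩
  rw [nV_eq X]
  have hv' : v ∈ univ.filter (fun w => w ∈ X.support) := Finset.mem_filter.2 ⟨Finset.mem_univ _, hv⟩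
  rw [Finset.card_erase_of_mem hv'] at h2
  have h3 := Finset.card_pos.2 ⟨v, hv'⟩
  omega

theorem main (K : SimpleGraph V → Prop) (hmono : ∀ X Y, Y ≤ X → K X → K Y) (hNoC : ∀ X, K X → NoC X)
    (hE : ∀ X, K X → X ≠ ⊥ → 6 * nE X + 8 ≤ 5 * nT X + 8 * nV X) :
    ∀ (m : ℕ) (X : SimpleGraph V), nE X = m → K X → X ≠ ⊥ → Ineq X := by
  intro m
  induction m using Nat.strong_induction_on with
  | _ m ih =>
    intro X hm hK hX
    have hN := hNoC X hK
    by_cases hex : ∃ v ∈ X.support, X.degree v ≤ tn X v + 1
    · obtain ⟨v, hv, hd⟩ := hex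
      have h2 := two_tn_le X hN v
      have hdpos : 0 < X.degree v := by
        rw [SimpleGraph.degree_pos_iff_exists_adj]
        exact hv
      have hT := nT_del X v
      have hEd := nE_del X v
      have hVd := nV_del X v hv
      by_cases hbot : X.deleteIncidenceSet v = ⊥
      · -- a single edge
        have hE0 : nE (X.deleteIncidenceSet v) = 0 := by
          rw [hbot]
          unfold nE
          simp
        have hT0 : nT (X.deleteIncidenceSet v) = 0 := by
          rw [hbot]
          unfold nT
          rw [Set.ncard_eq_zero]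
          ext s
          simp only [Set.mem_ofPred_eq, Set.mem_empty_iff_false, iff_false]
          intro hs
          have := hs.isClique
          have hc := hs.card_eq
          obtain ⟨a, b, c, hab, -, -, rfl⟩ := Finset.card_eq_three.1 hc
          have := this (by simp : a ∈ (({a, b, c} : Finset V) : Set V)) (by simp) hab
          simp at this
        have hV2 : 2 ≤ nV X := by
          obtain ⟨w, hw⟩ := hv
          rw [nV_eq]
          have h1 : ({v, w} : Finset V) ⊆ univ.filter (fun x => x ∈ X.support) := by
            intro x hx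
            rw [Finset.mem_filter]
            refine ⟨Finset.mem_univ _, ?_⟩
            simp only [Finset.mem_insert, Finset.mem_singleton] at hx
            rcases hx with rfl | rfl
            · exact ⟨w, hw⟩
            · exact ⟨v, hw.symm⟩
          have := Finset.card_le_card h1
          rwa [Finset.card_pair hw.ne] at this
        -- a triangle at `v` is impossible
        have ht0 : tn X v = 0 := by
          by_contra hne
          have hpos : 0 < ((X.cliqueFinset 3).filter (fun s => v ∈ s)).card := Nat.pos_of_ne_zero hne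
          obtain ⟨s, hs⟩ := Finset.card_pos.1 hpos
          rw [Finset.mem_filter, SimpleGraph.mem_cliqueFinset_iff] at hs
          have h3 : (s.erase v).card = 2 := by
            rw [Finset.card_erase_of_mem hs.2, hs.1.card_eq]
          obtain ⟨a, b, hab, hse⟩ := Finset.card_eq_two.1 h3
          have ha : a ∈ s.erase v := by rw [hse]; simp
          have hb : b ∈ s.erase v := by rw [hse]; simp
          rw [Finset.mem_erase] at ha hb
          have h4 : (X.deleteIncidenceSet v).Adj a b := by
            rw [SimpleGraph.deleteIncidenceSet_adj]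
            exact ⟨hs.1.isClique ha.2 hb.2 hab, ha.1, hb.1⟩
          rw [hbot] at h4
          exact h4
        unfold Ineq
        omega
      · have hK' : K (X.deleteIncidenceSet v) := hmono X _ (X.deleteIncidenceSet_le v) hK
        have hI := ih (nE (X.deleteIncidenceSet v)) (by omega) _ rfl hK' hbot
        unfold Ineq at hI ⊢
        omega
    · push Not at hex
      have h1 := hE X hK hX
      have h2 : 2 * nV X + 3 * nT X ≤ 2 * nE X := by
        have hs : ∑ v, X.degree v = 2 * X.edgeFinset.card := X.sum_degrees_eq_twice_card_edges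
        rw [nE_eq, ← hs, ← sum_tn, nV_eq, mul_comm 2, ← smul_eq_mul, ← Finset.sum_const, Finset.sum_filter,
          ← Finset.sum_add_distrib]
        refine Finset.sum_le_sum (fun v _ => ?_)
        by_cases hv : v ∈ X.support
        · rw [if_pos hv]
          have := hex v hv
          omega
        · rw [if_neg hv]
          have := two_tn_le X hN v
          omega
      unfold Ineq
      omega

end COR_

theorem cor_proof : Stmt_COR := by
  intro V _ _ K hmono hNoC hE X hK hX
  exact COR_.main K hmono hNoC hE (nE X) X rfl hK hX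

end Pool.Agent.TCH
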