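import Pool.Agent.TCH.Api

/-!
# TCH.DEL: deleting a point keeps `C3`
-/

set_option autoImplicit false

namespace Pool.Agent.TCH

namespace DEL_

variable {V ι : Type} [DecidableEq V] [DecidableEq ι]

lemma cov_erase {b : ι → List V} {Y : Finset ι} (p : V) (hnd : ∀ i ∈ Y, (b i).Nodup) :
    cov (fun i => (b i).erase p) Y = (cov b Y).erase p := by
  ext x
  simp only [cov, Finset.mem_biUnion, List.mem_toFinset, Finset.mem_erase]
  constructor
  · rintro ⟨i, hi, hx⟩
    rw [(hnd i hi).mem_erase_iff] at hx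
    exact ⟨hx.1, i, hi, hx.2⟩
  · rintro ⟨hxp, i, hi, hx⟩
    exact ⟨i, hi, (hnd i hi).mem_erase_iff.2 ⟨hxp, hx⟩⟩

lemma weight {l : List V} (p : V) (hl : l.length = 2 ∨ l.length = 3)
    (h : 2 ≤ (l.erase p).length) :
    3 * l.length - 4 = (3 * (l.erase p).length - 4) + (if p ∈ l then 3 else 0) := by
  split_ifs with hp
  · have h1 := List.length_erase_of_mem hp
    omega
  · rw [List.erase_of_not_mem hp]
    omega

end DEL_

open DEL_

theorem del_proof (hFCT : Stmt_FCT) : Stmt_DEL := by
  intro V ι _ _ I b p h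
  have hnd : ∀ i ∈ I, (b i).Nodup := (hFCT V ι I b h).1
  refine ⟨?_, ?_⟩
  · intro i hi
    rw [Finset.mem_filter] at hi
    have h1 := h.len i hi.1
    have h2 : ((b i).erase p).length ≤ (b i).length := List.length_erase_le
    have h3 := hi.2
    show ((b i).erase p).length = 2 ∨ ((b i).erase p).length = 3
    omega
  · intro Y hY hYn
    have hYI : Y ⊆ I := fun i hi => (Finset.mem_filter.1 (hY hi)).1
    have hY2 : ∀ i ∈ Y, 2 ≤ ((b i).erase p).length := fun i hi => (Finset.mem_filter.1 (hY hi)).2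
    have hpot := h.pot Y hYI hYn
    have hw : wt b Y = wt (fun i => (b i).erase p) Y + ∑ i ∈ Y, (if p ∈ b i then 3 else 0) := by
      unfold wt
      rw [← Finset.sum_add_distrib]
      exact Finset.sum_congr rfl fun i hi => weight p (h.len i (hYI hi)) (hY2 i hi)
    rw [cov_erase p fun i hi => hnd i (hYI hi)]
    by_cases hp : p ∈ cov b Y
    · rw [Finset.card_erase_of_mem hp]
      obtain ⟨i, hi, hpi⟩ := Finset.mem_biUnion.1 hp
      have h3 : 3 ≤ ∑ i ∈ Y, (if p ∈ b i then 3 else 0) := by
        calc 3 = (if p ∈ b i then 3 else 0) := by rw [if_pos (List.mem_toFinset.1 hpi)]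
          _ ≤ _ := Finset.single_le_sum (f := fun i => if p ∈ b i then 3 else 0)
            (fun _ _ => Nat.zero_le _) hi
      have h4 : 0 < (cov b Y).card := Finset.card_pos.2 ⟨p, hp⟩
      omega
    · rw [Finset.erase_eq_of_notMem hp]
      omega

end Pool.Agent.TCH
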