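import Pool.Agent.TCH.Api

/-!
# TCH, module DLP: deleting a point on the level of polynomials
-/

set_option autoImplicit false

namespace Pool.Agent.TCH

open MvPolynomial

namespace DLP_

variable {V : Type}

theorem sup_lv {p : V} (l : List V) (h : p ∉ l) :
    lv l ∈ supported ℤ {v : V | v ≠ p} := by
  induction l with
  | nil => exact (supported ℤ {v : V | v ≠ p}).one_mem
  | cons q l ih =>
    have hq : q ≠ p := fun e => h (e ▸ List.mem_cons_self)
    have hl : p ∉ l := fun e => h (List.mem_cons_of_mem _ e)
    unfold lv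
    refine Subalgebra.mul_mem _ ?_ (ih hl)
    refine Subalgebra.list_prod_mem _ fun x hx => ?_
    rw [List.mem_map] at hx
    obtain ⟨r, hr, rfl⟩ := hx
    have hrp : r ≠ p := fun e => hl (e ▸ hr)
    exact Subalgebra.sub_mem _ (X_mem_supported.2 hq) (X_mem_supported.2 hrp)

theorem not_mem_vars {p : V} {P : MvPolynomial V ℤ} (h : P ∈ supported ℤ {v : V | v ≠ p}) :
    p ∉ P.vars := by
  intro hp
  rw [mem_supported] at h
  exact h hp rfl

/-- signs -/
theorem sg_mul {A B C D : MvPolynomial V ℤ} (h1 : A = B ∨ A = -B) (h2 : C = D ∨ C = -D) :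
    A * C = B * D ∨ A * C = -(B * D) := by
  rcases h1 with rfl | rfl <;> rcases h2 with rfl | rfl
  · exact Or.inl rfl
  · right; ring
  · right; ring
  · left; ring

/-- one block -/
theorem block [DecidableEq V] (p : V) (l : List V) (h : l.Nodup) :
    ∃ L : List V, p ∉ L ∧ L.length = (if p ∈ l then l.length - 1 else 0) ∧
      (lv l = (L.map (fun q => (X p - X q : MvPolynomial V ℤ))).prod * lv (l.erase p) ∨
       lv l = -((L.map (fun q => (X p - X q : MvPolynomial V ℤ))).prod * lv (l.erase p))) := by
  by_cases hp : p ∈ l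
  · refine ⟨l.erase p, ?_, ?_, ?_⟩
    · exact h.not_mem_erase
    · rw [if_pos hp, List.length_erase_of_mem hp]
    · exact lv_perm (List.perm_cons_erase hp)
  · refine ⟨[], List.not_mem_nil, ?_, ?_⟩
    · rw [if_neg hp, List.length_nil]
    · left
      rw [List.erase_of_not_mem hp]
      simp

theorem many {ι : Type} [DecidableEq V] [DecidableEq ι] (b : ι → List V) (p : V) (s : Finset ι)
    (h : ∀ i ∈ s, (b i).Nodup) :
    ∃ L : List V, p ∉ L ∧ L.length = dg s b p ∧
      (PP s b = (L.map (fun q => (X p - X q : MvPolynomial V ℤ))).prod *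
          ∏ i ∈ s, lv ((b i).erase p) ∨
       PP s b = -((L.map (fun q => (X p - X q : MvPolynomial V ℤ))).prod *
          ∏ i ∈ s, lv ((b i).erase p))) := by
  induction s using Finset.induction_on with
  | empty =>
    refine ⟨[], List.not_mem_nil, ?_, ?_⟩
    · simp [dg]
    · left
      simp [PP]
  | insert a s ha ih =>
    obtain ⟨L, h1, h2, h3⟩ := ih fun i hi => h i (Finset.mem_insert_of_mem hi)
    obtain ⟨M, g1, g2, g3⟩ := block p (b a) (h a (Finset.mem_insert_self _ _))
    refine ⟨M ++ L, ?_, ?_, ?_⟩
    · rw [List.mem_append]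
      exact fun h => h.elim g1 h1
    · rw [List.length_append, g2, h2]
      unfold dg
      rw [Finset.filter_insert]
      by_cases hp : p ∈ b a
      · rw [if_pos hp, if_pos hp, Finset.sum_insert]
        exact fun hh => ha (Finset.mem_filter.1 hh).1
      · rw [if_neg hp, if_neg hp, zero_add]
    · have e1 : PP (insert a s) b = lv (b a) * PP s b := by
        unfold PP
        rw [Finset.prod_insert ha]
      have e2 := sg_mul g3 h3
      rw [← e1] at e2
      rw [Finset.prod_insert ha, List.map_append, List.prod_append]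
      have e3 : ((M.map (fun q => (X p - X q : MvPolynomial V ℤ))).prod *
          (L.map (fun q => (X p - X q : MvPolynomial V ℤ))).prod) *
          (lv ((b a).erase p) * ∏ i ∈ s, lv ((b i).erase p)) =
          ((M.map (fun q => (X p - X q : MvPolynomial V ℤ))).prod * lv ((b a).erase p)) *
          ((L.map (fun q => (X p - X q : MvPolynomial V ℤ))).prod *
            ∏ i ∈ s, lv ((b i).erase p)) := by ring
      rw [e3]
      exact e2

end DLP_

open DLP_ in
theorem dlp_proof (hFCT : Stmt_FCT) : Stmt_DLP := by
  intro V ι _ _ I b p hC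
  have hnd := (hFCT V ι I b hC).1
  obtain ⟨L, h1, h2, h3⟩ := many b p I hnd
  have e1 : ∏ i ∈ I, lv ((b i).erase p) =
      PP (I.filter (fun i => 2 ≤ ((b i).erase p).length)) (fun i => (b i).erase p) := by
    unfold PP
    symm
    refine Finset.prod_subset (Finset.filter_subset _ _) fun i hi hi' => ?_
    refine lv_of_length_le_one ?_
    show ((b i).erase p).length ≤ 1
    by_contra hlt
    exact hi' (Finset.mem_filter.2 ⟨hi, by omega⟩)
  refine ⟨L, h1, h2, ?_, ?_⟩
  · refine not_mem_vars ?_
    unfold PP
    refine Subalgebra.prod_mem _ fun i hi => ?_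
    exact sup_lv _ (hnd i (Finset.mem_filter.1 hi).1).not_mem_erase
  · rw [← e1]
    exact h3

end Pool.Agent.TCH
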