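import Pool.Agent.TCH.Api

set_option autoImplicit false

namespace Pool.Agent.TCH

namespace EUB_

theorem zmod2_cases (x : ZMod 2) : x = 0 ∨ x = 1 := by
  revert x; decide

theorem natCast_odd {n : ℕ} (h : Odd n) : (n : ZMod 2) = 1 := by
  obtain ⟨k, rfl⟩ := h
  push_cast
  have : (2 : ZMod 2) = 0 := by decide
  rw [this]; ring

theorem natCast_even {n : ℕ} (h : Even n) : (n : ZMod 2) = 0 := by
  obtain ⟨k, rfl⟩ := h
  push_cast
  have : (2 : ZMod 2) = 0 := by decide
  linear_combination (k : ZMod 2) * this

theorem ind_mem_cyc {V : Type} [Fintype V] [DecidableEq V] {X : SimpleGraph V}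
    {C : Finset (Sym2 V)} (h : EvenS X C) : ind C ∈ cyc X := by
  refine ⟨fun e he => ?_, fun v => ?_⟩
  · unfold ind
    rw [if_neg]
    exact fun hc => he (h.1 e hc)
  · unfold ind
    rw [Finset.sum_ite_mem]
    rw [Finset.sum_const, nsmul_eq_mul, mul_one]
    apply natCast_even
    have h2 := h.2 v
    have : (Finset.univ.filter (fun e : Sym2 V => v ∈ e)) ∩ C = C.filter (fun e => v ∈ e) := by
      ext e; simp [and_comm]
    rw [this]; exact h2

theorem exists_even_of_mem {V : Type} [Fintype V] [DecidableEq V] {X : SimpleGraph V}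
    {f : Sym2 V → ZMod 2} (hf : f ∈ cyc X) : ∃ C, EvenS X C ∧ ind C = f := by
  classical
  refine ⟨Finset.univ.filter (fun e => f e = 1), ⟨fun e he => ?_, fun v => ?_⟩, ?_⟩
  · by_contra hne
    have := hf.1 e hne
    rw [Finset.mem_filter] at he
    rw [this] at he
    exact absurd he.2 (by decide)
  · have h2 := hf.2 v
    by_contra hodd
    rw [Nat.not_even_iff_odd] at hodd
    have h3 := natCast_odd hodd
    have h4 : ∑ e ∈ Finset.univ.filter (fun e : Sym2 V => v ∈ e), f e =
        (((Finset.univ.filter (fun e => f e = 1)).filter (fun e => v ∈ e)).card : ZMod 2) := by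
      rw [Finset.card_eq_sum_ones, Nat.cast_sum, Finset.filter_filter, Finset.sum_filter,
        Finset.sum_filter]
      apply Finset.sum_congr rfl
      intro e _
      by_cases h5 : v ∈ e
      · rcases zmod2_cases (f e) with h6 | h6
        · simp [h5, h6]
        · simp [h5, h6]
      · simp [h5]
    rw [← h4, h2] at h3
    exact absurd h3 (by decide)
  · ext e
    unfold ind
    rcases zmod2_cases (f e) with h6 | h6
    · rw [if_neg, h6]
      simp [h6]
    · rw [if_pos, h6]
      simp [h6]

end EUB_

open EUB_ in
/-- EUB: a face system contains a basis of the cycle space -/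
theorem eub_proof : Stmt_EUB := by
  classical
  intro V _ _ X hX
  obtain ⟨κ, _, D, hD1, hD2, hD3⟩ := hX
  -- the span
  have hspan : Submodule.span (ZMod 2) (Set.range (fun k => ind (D k))) = cyc X := by
    apply le_antisymm
    · rw [Submodule.span_le]
      rintro _ ⟨k, rfl⟩
      exact ind_mem_cyc (hD1 k)
    · intro f hf
      obtain ⟨C, hC, rfl⟩ := exists_even_of_mem hf
      obtain ⟨T, hT⟩ := hD3 C hC
      have : ind C = ∑ k ∈ T, ind (D k) := by
        ext e
        rw [Finset.sum_apply]
        have h1 : ∑ k ∈ T, ind (D k) e = ((T.filter (fun k => e ∈ D k)).card : ZMod 2) := by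
          unfold ind
          rw [Finset.card_eq_sum_ones, Nat.cast_sum, Finset.sum_filter]
          simp
        rw [h1]
        by_cases h2 : e ∈ C
        · rw [natCast_odd ((hT e).1 h2)]
          simp [ind, h2]
        · have h3 : ¬ Odd (T.filter (fun k => e ∈ D k)).card := fun h => h2 ((hT e).2 h)
          rw [Nat.not_odd_iff_even] at h3
          rw [natCast_even h3]
          simp [ind, h2]
      rw [this]
      apply Submodule.sum_mem
      intro k _
      exact Submodule.subset_span ⟨k, rfl⟩
  obtain ⟨σ, a, ha, hsp, hli⟩ := exists_linearIndependent' (ZMod 2) (fun k => ind (D k))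
  have hσ : Finite σ := Finite.of_injective a ha
  have : Fintype σ := Fintype.ofFinite σ
  have hcard : Module.finrank (ZMod 2) (cyc X) = Fintype.card σ := by
    rw [← hspan, ← hsp]
    exact finrank_span_eq_card hli
  have e : Fin (Module.finrank (ZMod 2) (cyc X)) ≃ σ :=
    (Fintype.equivFinOfCardEq hcard.symm).symm
  refine ⟨fun k => D (a (e k)), fun k => hD1 _, fun ed => ?_, ?_⟩
  · refine le_trans ?_ (hD2 ed)
    apply Finset.card_le_card_of_injOn (fun k => a (e k))
    · intro k hk
      simp only [Finset.coe_filter, Finset.mem_univ, true_and, Set.mem_ofPred_eq] at hk ⊢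
      exact hk
    · intro k _ k' _ hkk
      exact e.injective (ha hkk)
  · have := hli.comp e e.injective
    exact this

end Pool.Agent.TCH
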