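import Pool.Agent.TCH.Api

/-!
# MP_dbd377_co, squad TCH, module EUC : Euler inequality from a face system
-/

set_option autoImplicit false

namespace Pool.Agent.TCH

theorem euc_proof (hEUD : Stmt_EUD) (hEUB : Stmt_EUB) (hEUT : Stmt_EUT) : Stmt_EUC := by
  classical
  intro V _ _ X hN hF hX
  obtain ⟨D, hD, h2, hli⟩ := hEUB V X hF
  obtain ⟨h3, h8⟩ := hEUT V X hN _ D hD hli
  have h1 := hEUD V X hX
  have hs : ∑ k, (D k).card ≤ 2 * nE X := by
    have e1 : ∀ k, (D k).card = ∑ e ∈ X.edgeSet.toFinset, if e ∈ D k then 1 else 0 := by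
      intro k
      rw [← Finset.card_filter]
      congr 1
      ext e
      simp only [Finset.mem_filter, Set.mem_toFinset]
      exact ⟨fun he => ⟨(hD k).1 e he, he⟩, fun he => he.2⟩
    calc ∑ k, (D k).card = ∑ k, ∑ e ∈ X.edgeSet.toFinset, (if e ∈ D k then 1 else 0) :=
          Finset.sum_congr rfl (fun k _ => e1 k)
      _ = ∑ e ∈ X.edgeSet.toFinset, ∑ k, (if e ∈ D k then 1 else 0) := Finset.sum_comm
      _ = ∑ e ∈ X.edgeSet.toFinset, (Finset.univ.filter (fun k => e ∈ D k)).card := by
          refine Finset.sum_congr rfl (fun e _ => ?_)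
          rw [Finset.card_filter]
      _ ≤ ∑ e ∈ X.edgeSet.toFinset, 2 := Finset.sum_le_sum (fun e _ => h2 e)
      _ = 2 * nE X := by
          rw [Finset.sum_const, smul_eq_mul, mul_comm, nE, Set.ncard_eq_toFinset_card']
  have h4 : 8 * Module.finrank (ZMod 2) (cyc X) ≤
      ∑ k, (D k).card + 5 * (Finset.univ.filter (fun k => (D k).card < 8)).card := by
    have : ∑ k : Fin (Module.finrank (ZMod 2) (cyc X)), 8 ≤
        ∑ k, ((D k).card + 5 * (if (D k).card < 8 then 1 else 0)) := by
      refine Finset.sum_le_sum (fun k _ => ?_)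
      have := h3 k
      split_ifs <;> omega
    rw [Finset.sum_add_distrib, ← Finset.mul_sum, ← Finset.card_filter] at this
    simpa [mul_comm] using this
  omega

end Pool.Agent.TCH
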