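import Pool.Agent.TCH.Api

/-!
# MP_dbd377_co : EUD, the dimension of the cycle space
-/

set_option autoImplicit false

namespace Pool.Agent.TCH

namespace EUD_

noncomputable section

variable {V : Type} [Fintype V] [DecidableEq V] (X : SimpleGraph V)

open Classical in
/-- boundary map -/
def bnd [Fintype X.edgeSet] : (X.edgeSet → ZMod 2) →ₗ[ZMod 2] (X.support → ZMod 2) where
  toFun f v := ∑ e : X.edgeSet, if (v : V) ∈ (e : Sym2 V) then f e else 0
  map_add' f g := by
    funext v
    simp only [Pi.add_apply]
    rw [← Finset.sum_add_distrib]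
    apply Finset.sum_congr rfl
    intro e _
    by_cases h : (v : V) ∈ (e : Sym2 V)
    · simp [h]
    · simp [h]
  map_smul' c f := by
    funext v
    simp only [Pi.smul_apply, smul_eq_mul, RingHom.id_apply]
    rw [Finset.mul_sum]
    apply Finset.sum_congr rfl
    intro e _
    by_cases h : (v : V) ∈ (e : Sym2 V)
    · simp [h]
    · simp [h]

open Classical in
/-- extension by zero -/
def ext0 : (X.edgeSet → ZMod 2) →ₗ[ZMod 2] (Sym2 V → ZMod 2) where
  toFun f e := if h : e ∈ X.edgeSet then f ⟨e, h⟩ else 0
  map_add' f g := by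
    funext e
    by_cases h : e ∈ X.edgeSet
    · simp [h]
    · simp [h]
  map_smul' c f := by
    funext e
    by_cases h : e ∈ X.edgeSet
    · simp [h]
    · simp [h]

theorem ext0_inj : Function.Injective (ext0 X) := by
  intro f g h
  funext e
  have h1 := congrFun h e.1
  simp only [ext0, LinearMap.coe_mk, AddHom.coe_mk] at h1
  rw [dif_pos e.2, dif_pos e.2] at h1
  exact h1

theorem ext0_mem [Fintype X.edgeSet] (f : X.edgeSet → ZMod 2) (hf : bnd X f = 0) :
    ext0 X f ∈ cyc X := by
  classical
  refine ⟨fun e he => ?_, fun v => ?_⟩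
  · simp only [ext0, LinearMap.coe_mk, AddHom.coe_mk]
    rw [dif_neg he]
  · have key : ∑ e ∈ Finset.univ.filter (fun e : Sym2 V => v ∈ e), (ext0 X f) e =
        ∑ e : X.edgeSet, if v ∈ (e : Sym2 V) then f e else 0 := by
      rw [Finset.sum_filter]
      have h1 : ∑ e : Sym2 V, (if v ∈ e then (ext0 X f) e else 0) =
          ∑ e ∈ Finset.univ.filter (fun e : Sym2 V => e ∈ X.edgeSet),
            (if v ∈ e then (ext0 X f) e else 0) := by
        symm
        apply Finset.sum_subset (Finset.filter_subset _ _)
        intro e _ he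
        rw [Finset.mem_filter, not_and] at he
        have he' := he (Finset.mem_univ e)
        have h2 : (ext0 X f) e = 0 := by
          simp only [ext0, LinearMap.coe_mk, AddHom.coe_mk]
          rw [dif_neg he']
        rw [h2, ite_self]
      rw [h1]
      have h3 : ∀ e : X.edgeSet, (if v ∈ (e : Sym2 V) then f e else 0) =
          (fun e : Sym2 V => if v ∈ e then (ext0 X f) e else 0) (e : Sym2 V) := by
        intro e
        have h4 : (ext0 X f) (e : Sym2 V) = f e := by
          simp only [ext0, LinearMap.coe_mk, AddHom.coe_mk]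
          rw [dif_pos e.2]
        simp only [h4]
      rw [Finset.sum_congr rfl (fun e _ => h3 e)]
      exact Finset.sum_subtype (Finset.univ.filter (fun e : Sym2 V => e ∈ X.edgeSet))
        (p := fun e => e ∈ X.edgeSet) (by simp)
        (fun e => if v ∈ e then (ext0 X f) e else 0)
    rw [key]
    by_cases hv : v ∈ X.support
    · have h2 := congrFun hf ⟨v, hv⟩
      exact h2
    · apply Finset.sum_eq_zero
      intro e _
      rw [if_neg]
      intro h3
      apply hv
      obtain ⟨e, he⟩ := e
      induction e using Sym2.ind with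
      | _ a b =>
        simp only [SimpleGraph.mem_edgeSet] at he
        simp only [Sym2.mem_iff] at h3
        rcases h3 with h3 | h3
        · rw [h3]; exact ⟨b, he⟩
        · rw [h3]; exact ⟨a, he.symm⟩

/-- the sum over the support -/
def sm [Fintype X.support] : (X.support → ZMod 2) →ₗ[ZMod 2] ZMod 2 where
  toFun h := ∑ v, h v
  map_add' f g := by
    simp [Finset.sum_add_distrib]
  map_smul' c f := by
    simp [Finset.mul_sum]

theorem sm_bnd [Fintype X.edgeSet] [Fintype X.support] (f : X.edgeSet → ZMod 2) :
    sm X (bnd X f) = 0 := by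
  classical
  simp only [sm, bnd, LinearMap.coe_mk, AddHom.coe_mk]
  rw [Finset.sum_comm]
  apply Finset.sum_eq_zero
  intro e _
  rw [← Finset.sum_filter, Finset.sum_const]
  have h2 : (Finset.univ.filter (fun v : X.support => (v : V) ∈ (e : Sym2 V))).card = 2 := by
    obtain ⟨e, he⟩ := e
    induction e using Sym2.ind with
    | _ a b =>
      simp only [SimpleGraph.mem_edgeSet] at he
      have ha : a ∈ X.support := ⟨b, he⟩
      have hb : b ∈ X.support := ⟨a, he.symm⟩
      have h3 : Finset.univ.filter (fun v : X.support => (v : V) ∈ s(a, b)) =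
          {⟨a, ha⟩, ⟨b, hb⟩} := by
        ext v
        simp only [Finset.mem_filter, Finset.mem_univ, true_and, Sym2.mem_iff,
          Finset.mem_insert, Finset.mem_singleton, Subtype.ext_iff]
      rw [h3, Finset.card_pair]
      intro h4
      exact he.ne (congrArg Subtype.val h4)
  rw [h2, two_smul]
  have : ∀ x : ZMod 2, x + x = 0 := by decide
  exact this _

end

end EUD_

open EUD_ in
theorem eud_proof : Stmt_EUD := by
  classical
  intro V _ _ X hX
  have : Fintype X.edgeSet := Fintype.ofFinite _
  have : Fintype X.support := Fintype.ofFinite _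
  have hE : nE X = Fintype.card X.edgeSet := by
    unfold nE
    rw [← Nat.card_coe_set_eq, Nat.card_eq_fintype_card]
  have hV : nV X = Fintype.card X.support := by
    unfold nV
    rw [← Nat.card_coe_set_eq, Nat.card_eq_fintype_card]
  have h1 := LinearMap.finrank_range_add_finrank_ker (bnd X)
  rw [Module.finrank_fintype_fun_eq_card] at h1
  have h2 : Module.finrank (ZMod 2) (LinearMap.ker (bnd X)) ≤ Module.finrank (ZMod 2) (cyc X) := by
    have h3 : (LinearMap.ker (bnd X)).map (ext0 X) ≤ cyc X := by
      rintro g ⟨f, hf, rfl⟩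
      exact ext0_mem X f hf
    have h9 := Submodule.finrank_mono h3
    have h10 := (Submodule.equivMapOfInjective (ext0 X) (ext0_inj X)
      (LinearMap.ker (bnd X))).finrank_eq
    rw [h10]
    exact h9
  have h4 : LinearMap.range (bnd X) ≤ LinearMap.ker (sm X) := by
    rintro g ⟨f, rfl⟩
    exact sm_bnd X f
  have h5 := LinearMap.finrank_range_add_finrank_ker (sm X)
  rw [Module.finrank_fintype_fun_eq_card] at h5
  have h6 : LinearMap.range (sm X) = ⊤ := by
    have hne : ∃ a b, X.Adj a b := by
      by_contra hcon
      push Not at hcon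
      apply hX
      ext a b
      simp [hcon a b]
    obtain ⟨a, b, hab⟩ := hne
    rw [LinearMap.range_eq_top]
    intro c
    refine ⟨Pi.single (⟨a, ⟨b, hab⟩⟩ : X.support) c, ?_⟩
    simp [sm]
  have h7 : Module.finrank (ZMod 2) (LinearMap.range (sm X)) = 1 := by
    rw [h6, finrank_top, Module.finrank_self]
  have h8 := Submodule.finrank_mono h4
  omega

end Pool.Agent.TCH
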