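import Pool.Agent.TCH.Api

/-! Module EUT: in a graph without cycles of lengths 4..7, at most `nT X` members of an independent
family of even edge sets have fewer than eight edges; all members have at least three. -/

set_option autoImplicit false

namespace Pool.Agent.TCH

namespace EUT_

variable {V : Type}

/-- a nonempty even edge set contains the edges of a cycle -/
theorem exists_cycle [Fintype V] [DecidableEq V] {X : SimpleGraph V} {C : Finset (Sym2 V)}
    (hC : EvenS X C) (hne : C.Nonempty) :
    ∃ (v : V) (c : X.Walk v v), c.IsCycle ∧ ∀ e ∈ c.edges, e ∈ C := by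
  classical
  set Y := SimpleGraph.fromEdgeSet (C : Set (Sym2 V)) with hY
  have hadj : ∀ a b, Y.Adj a b ↔ s(a, b) ∈ C := by
    intro a b
    rw [hY, SimpleGraph.fromEdgeSet_adj]
    constructor
    · intro h; exact_mod_cast h.1
    · intro h
      have h2 : X.Adj a b := (SimpleGraph.mem_edgeSet X).1 (hC.1 _ h)
      exact ⟨by exact_mod_cast h, h2.ne⟩
  have hYX : Y ≤ X := by
    intro a b hab
    exact (SimpleGraph.mem_edgeSet X).1 (hC.1 _ ((hadj a b).1 hab))
  by_cases hac : Y.IsAcyclic
  · exfalso
    obtain ⟨e, he⟩ := hne
    have : Nonempty V := ⟨(Quot.out e).1⟩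
    obtain ⟨u, v, p, hp, hmax⟩ :=
      SimpleGraph.Walk.exists_isPath_forall_isPath_length_le_length Y
    have hlen : 1 ≤ p.length := by
      induction e using Sym2.ind with
      | _ a b =>
        have hab : Y.Adj a b := (hadj a b).2 he
        have h1 : (SimpleGraph.Walk.cons hab SimpleGraph.Walk.nil).IsPath := by
          rw [SimpleGraph.Walk.cons_isPath_iff]
          refine ⟨SimpleGraph.Walk.IsPath.nil, ?_⟩
          simp only [SimpleGraph.Walk.support_nil, List.mem_singleton]
          exact hab.ne
        have := hmax a b _ h1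
        simpa using this
    have hnil : ¬ p.Nil := by
      rw [SimpleGraph.Walk.not_nil_iff_lt_length]
      omega
    have huniq : ∀ w, Y.Adj u w → w = p.snd := by
      intro w hw
      apply hac.eq_snd_of_adj_start hp hw
      by_contra hns
      have h1 : (SimpleGraph.Walk.cons hw.symm p).IsPath := hp.cons hns
      have := hmax w v _ h1
      rw [SimpleGraph.Walk.length_cons] at this
      omega
    have hf : C.filter (fun e => u ∈ e) = {s(u, p.snd)} := by
      ext e'
      rw [Finset.mem_filter, Finset.mem_singleton]
      constructor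
      · rintro ⟨h1, h2⟩
        obtain ⟨w, rfl⟩ := Sym2.mem_iff_exists.1 h2
        rw [huniq w ((hadj u w).2 h1)]
      · rintro rfl
        exact ⟨(hadj u _).1 (p.adj_snd hnil), Sym2.mem_mk_left _ _⟩
    have := hC.2 u
    rw [hf, Finset.card_singleton] at this
    exact (by decide : ¬ Even 1) this
  · unfold SimpleGraph.IsAcyclic at hac
    push Not at hac
    obtain ⟨v, c, hc⟩ := hac
    refine ⟨v, c.mapLe hYX, hc.mapLe _, ?_⟩
    intro e he
    rw [SimpleGraph.Walk.edges_mapLe_eq_edges] at he
    have h1 := SimpleGraph.Walk.edges_subset_edgeSet c he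
    induction e using Sym2.ind with
    | _ a b => exact (hadj a b).1 ((SimpleGraph.mem_edgeSet Y).1 h1)

/-- the number of edges of a cycle inside `C` is at most `C.card` -/
theorem length_le [DecidableEq V] {X : SimpleGraph V} {C : Finset (Sym2 V)} {v : V}
    {c : X.Walk v v} (hc : c.IsCycle) (h : ∀ e ∈ c.edges, e ∈ C) : c.length ≤ C.card := by
  have h1 : c.edges.toFinset ⊆ C := by
    intro e he
    exact h e (List.mem_toFinset.1 he)
  have h2 := Finset.card_le_card h1
  rw [List.toFinset_card_of_nodup hc.isTrail.edges_nodup, SimpleGraph.Walk.length_edges] at h2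
  exact h2

/-- the edges of a triangle -/
theorem exists_triangle [DecidableEq V] {X : SimpleGraph V} {C : Finset (Sym2 V)} {v : V}
    {c : X.Walk v v} (hc : c.IsCycle) (h : ∀ e ∈ c.edges, e ∈ C) (hl : c.length = 3) :
    ∃ a b d : V, X.Adj a b ∧ X.Adj b d ∧ X.Adj a d ∧ s(a, b) ∈ C ∧ s(b, d) ∈ C ∧ s(a, d) ∈ C := by
  match c, hl with
  | SimpleGraph.Walk.cons (v := b) h1 (SimpleGraph.Walk.cons (v := d) h2
      (SimpleGraph.Walk.cons h3 SimpleGraph.Walk.nil)), _ =>
    refine ⟨v, b, d, h1, h2, h3.symm, ?_, ?_, ?_⟩
    · apply h; simp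
    · apply h; simp
    · apply h; simp [Sym2.eq_swap]

/-- edges inside a set of vertices -/
noncomputable def tri [Fintype V] [DecidableEq V] (s : Finset V) : Finset (Sym2 V) :=
  by classical exact Finset.univ.filter (fun e : Sym2 V => ¬ e.IsDiag ∧ ∀ v ∈ e, v ∈ s)

theorem tri_eq [Fintype V] [DecidableEq V] {a b d : V} (hab : a ≠ b) (hbd : b ≠ d) (had : a ≠ d) :
    tri ({a, b, d} : Finset V) = {s(a, b), s(b, d), s(a, d)} := by
  classical
  ext e
  unfold tri
  rw [Finset.mem_filter]
  induction e using Sym2.ind with
  | _ x y =>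
    simp only [Finset.mem_univ, true_and, Sym2.mk_isDiag_iff, Sym2.mem_iff,
      Finset.mem_insert, Finset.mem_singleton, Sym2.eq_iff, forall_eq_or_imp, forall_eq]
    constructor
    · rintro ⟨h1, h2, h3⟩
      rcases h2 with rfl | rfl | rfl <;> rcases h3 with rfl | rfl | rfl <;> simp_all
    · rintro (h | h | h) <;> rcases h with ⟨rfl, rfl⟩ | ⟨rfl, rfl⟩ <;>
        simp [hab, hbd, had, hab.symm, hbd.symm, had.symm]

theorem evenS_tri [Fintype V] [DecidableEq V] {X : SimpleGraph V} {a b d : V} (hab : X.Adj a b)
    (hbd : X.Adj b d) (had : X.Adj a d) : EvenS X (tri ({a, b, d} : Finset V)) := by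
  classical
  rw [tri_eq hab.ne hbd.ne had.ne]
  have n1 : s(a, b) ≠ s(b, d) := by
    intro h; rw [Sym2.eq_iff] at h
    rcases h with ⟨h, _⟩ | ⟨h, _⟩
    · exact hab.ne h
    · exact had.ne h
  have n2 : s(a, b) ≠ s(a, d) := by
    intro h; rw [Sym2.eq_iff] at h
    rcases h with ⟨_, h⟩ | ⟨h, _⟩
    · exact hbd.ne h
    · exact had.ne h
  have n3 : s(b, d) ≠ s(a, d) := by
    intro h; rw [Sym2.eq_iff] at h
    rcases h with ⟨h, _⟩ | ⟨h, _⟩
    · exact hab.ne h.symm
    · exact hbd.ne h
  refine ⟨?_, ?_⟩
  · intro e he
    simp only [Finset.mem_insert, Finset.mem_singleton] at he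
    rcases he with rfl | rfl | rfl
    · exact hab
    · exact hbd
    · exact had
  · intro v
    rw [Finset.filter_insert, Finset.filter_insert, Finset.filter_singleton]
    by_cases h1 : v = a
    · subst h1
      have e1 : v ∈ s(v, b) := Sym2.mem_mk_left _ _
      have e2 : ¬ v ∈ s(b, d) := by
        rw [Sym2.mem_iff]; rintro (h | h)
        · exact hab.ne h
        · exact had.ne h
      have e3 : v ∈ s(v, d) := Sym2.mem_mk_left _ _
      rw [if_pos e1, if_neg e2, if_pos e3, Finset.card_pair n2]
      decide
    · by_cases h2 : v = b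
      · subst h2
        have e1 : v ∈ s(a, v) := Sym2.mem_mk_right _ _
        have e2 : v ∈ s(v, d) := Sym2.mem_mk_left _ _
        have e3 : ¬ v ∈ s(a, d) := by
          rw [Sym2.mem_iff]; rintro (h | h)
          · exact hab.ne h.symm
          · exact hbd.ne h
        rw [if_pos e1, if_pos e2, if_neg e3]
        have : insert s(a, v) (insert s(v, d) (∅ : Finset (Sym2 V))) = {s(a, v), s(v, d)} := rfl
        rw [this, Finset.card_pair n1]
        decide
      · by_cases h3 : v = d
        · subst h3
          have e1 : ¬ v ∈ s(a, b) := by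
            rw [Sym2.mem_iff]; rintro (h | h)
            · exact h1 h
            · exact h2 h
          have e2 : v ∈ s(b, v) := Sym2.mem_mk_right _ _
          have e3 : v ∈ s(a, v) := Sym2.mem_mk_right _ _
          rw [if_neg e1, if_pos e2, if_pos e3, Finset.card_pair n3]
          decide
        · have e1 : ¬ v ∈ s(a, b) := by
            rw [Sym2.mem_iff]; rintro (h | h)
            · exact h1 h
            · exact h2 h
          have e2 : ¬ v ∈ s(b, d) := by
            rw [Sym2.mem_iff]; rintro (h | h)
            · exact h2 h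
            · exact h3 h
          have e3 : ¬ v ∈ s(a, d) := by
            rw [Sym2.mem_iff]; rintro (h | h)
            · exact h1 h
            · exact h3 h
          rw [if_neg e1, if_neg e2, if_neg e3, Finset.card_empty]
          decide

theorem ind_symmDiff [DecidableEq V] (A B : Finset (Sym2 V)) :
    ind (symmDiff A B) = ind A + ind B := by
  funext e
  simp only [ind, Pi.add_apply, Finset.mem_symmDiff]
  by_cases h1 : e ∈ A <;> by_cases h2 : e ∈ B <;> simp [h1, h2]
  decide

theorem ind_empty [DecidableEq V] : ind (∅ : Finset (Sym2 V)) = 0 := by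
  funext e
  simp [ind]

/-- small even sets are in the span of the triangles -/
theorem mem_span [Fintype V] [DecidableEq V] {X : SimpleGraph V} (hX : NoC X) :
    ∀ (n : ℕ) (C : Finset (Sym2 V)), C.card ≤ n → C.card < 8 → EvenS X C →
      ind C ∈ Submodule.span (ZMod 2)
        ((fun s : Finset V => ind (tri s)) '' {s : Finset V | X.IsNClique 3 s}) := by
  intro n
  induction n with
  | zero =>
    intro C h0 _ _
    have : C = ∅ := Finset.card_eq_zero.1 (by omega)
    rw [this, ind_empty]
    exact Submodule.zero_mem _
  | succ n ih =>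
    intro C hn h8 hC
    by_cases hne : C.Nonempty
    · obtain ⟨v, c, hc, hcC⟩ := exists_cycle hC hne
      have hlen := length_le hc hcC
      have h3 := hc.three_le_length
      have hl : c.length = 3 := by
        rcases hX v c hc with h | h <;> omega
      obtain ⟨a, b, d, hab, hbd, had, e1, e2, e3⟩ := exists_triangle hc hcC hl
      have hT : tri ({a, b, d} : Finset V) ⊆ C := by
        rw [tri_eq hab.ne hbd.ne had.ne]
        intro e he
        simp only [Finset.mem_insert, Finset.mem_singleton] at he
        rcases he with rfl | rfl | rfl <;> assumption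
      have hev := evenS_tri hab hbd had
      have hs : symmDiff C (tri ({a, b, d} : Finset V)) = C \ tri ({a, b, d} : Finset V) := by
        rw [symmDiff_def, Finset.sup_eq_union, Finset.sdiff_eq_empty_iff_subset.2 hT,
          Finset.union_empty]
      have hcard : (C \ tri ({a, b, d} : Finset V)).card < C.card := by
        apply Finset.card_lt_card
        refine ⟨Finset.sdiff_subset, ?_⟩
        intro hcon
        have h1 := hcon e1
        rw [Finset.mem_sdiff] at h1
        apply h1.2
        rw [tri_eq hab.ne hbd.ne had.ne]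
        simp
      have hE := evenS_symmDiff hC hev
      have h1 := ih (symmDiff C (tri ({a, b, d} : Finset V))) (by rw [hs]; omega)
        (by rw [hs]; omega) hE
      rw [ind_symmDiff] at h1
      have h2 : ind (tri ({a, b, d} : Finset V)) ∈ Submodule.span (ZMod 2)
          ((fun s : Finset V => ind (tri s)) '' {s : Finset V | X.IsNClique 3 s}) := by
        apply Submodule.subset_span
        refine ⟨{a, b, d}, ?_, rfl⟩
        rw [Set.mem_ofPred_eq, SimpleGraph.is3Clique_triple_iff]
        exact ⟨hab, had, hbd⟩
      have h3 := Submodule.sub_mem _ h1 h2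
      rw [add_sub_cancel_right] at h3
      exact h3
    · rw [Finset.not_nonempty_iff_eq_empty] at hne
      rw [hne, ind_empty]
      exact Submodule.zero_mem _

end EUT_

open EUT_ in
theorem eut_proof : Stmt_EUT := by
  intro V _ _ X hX n D hD hli
  classical
  refine ⟨?_, ?_⟩
  · intro k
    have hne : (D k).Nonempty := by
      rw [Finset.nonempty_iff_ne_empty]
      intro h
      apply hli.ne_zero k
      show ind (D k) = 0
      rw [h, ind_empty]
    obtain ⟨v, c, hc, hcC⟩ := exists_cycle (hD k) hne
    have := length_le hc hcC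
    have := hc.three_le_length
    omega
  · set S := (fun s : Finset V => ind (tri s)) '' {s : Finset V | X.IsNClique 3 s} with hS
    have hSfin : S.Finite := Set.toFinite _
    haveI : Fintype S := hSfin.fintype
    set J := Finset.univ.filter (fun k => (D k).card < 8) with hJ
    have h1 : LinearIndependent (ZMod 2) (fun k : J => ind (D k)) :=
      hli.comp (fun k : J => (k : Fin n)) Subtype.coe_injective
    have hmem : ∀ k : J, ind (D k) ∈ Submodule.span (ZMod 2) S := by
      intro k
      have hk : (D k).card < 8 := (Finset.mem_filter.1 k.2).2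
      exact mem_span hX _ _ le_rfl hk (hD k)
    have h2 : LinearIndependent (ZMod 2)
        (fun k : J => (⟨ind (D k), hmem k⟩ : Submodule.span (ZMod 2) S)) := by
      apply LinearIndependent.of_comp (Submodule.subtype _)
      exact h1
    have h3 := h2.fintype_card_le_finrank
    have h4 : Module.finrank (ZMod 2) (Submodule.span (ZMod 2) S) ≤ S.toFinset.card :=
      finrank_span_le_card S
    have h5 : S.toFinset.card ≤ nT X := by
      rw [← Set.ncard_eq_toFinset_card', hS]
      unfold nT
      exact Set.ncard_image_le (Set.toFinite _)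
    rw [Fintype.card_coe] at h3
    omega

end Pool.Agent.TCH
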