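import Pool.Agent.TCH.Api

/-!
# MP_dbd377_co, squad TCH, module FCT : simple facts about a configuration
-/

set_option autoImplicit false

namespace Pool.Agent.TCH

open MvPolynomial

namespace FCT_

variable {V ι : Type} [DecidableEq V] {I : Finset ι} {b : ι → List V}

theorem nodup (hC : C3 I b) {i : ι} (hi : i ∈ I) : (b i).Nodup := by
  have h1 := hC.pot {i} (by simpa using hi) (by simp)
  have h2 : (cov b {i}).card = (b i).toFinset.card := by simp [cov]
  have h3 : wt b {i} = 3 * (b i).length - 4 := by simp [wt]
  rw [h2, h3] at h1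
  have h4 := List.toFinset_card_le (b i)
  have h5 := hC.len i hi
  have h6 : (b i).toFinset.card = (b i).length := by omega
  have h7 := (Multiset.toFinset_card_eq_card_iff_nodup (m := (b i : Multiset V))).mp (by
    simpa using h6)
  simpa using h7

end FCT_

theorem fct_proof : Stmt_FCT := by
  intro V ι _ _ I b hC
  refine ⟨fun i hi => FCT_.nodup hC hi, ?_⟩
  intro h e1 e2 x1 x2 a a' c g
  have nh : [x1, x2, c].Nodup := g.bh.nodup_iff.mp (FCT_.nodup hC g.hI)
  have n1 : [x1, a].Nodup := g.be1.nodup_iff.mp (FCT_.nodup hC g.e1I)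
  have n2 : [x2, a'].Nodup := g.be2.nodup_iff.mp (FCT_.nodup hC g.e2I)
  simp only [List.nodup_cons, List.mem_cons, List.not_mem_nil, or_false, not_or, not_false_eq_true,
    List.nodup_nil, and_true] at nh n1 n2
  have m1 : ∀ v, v ∈ b h ↔ v = x1 ∨ v = x2 ∨ v = c := by
    intro v; rw [g.bh.mem_iff]; simp
  have m2 : ∀ v, v ∈ b e1 ↔ v = x1 ∨ v = a := by
    intro v; rw [g.be1.mem_iff]; simp
  have m3 : ∀ v, v ∈ b e2 ↔ v = x2 ∨ v = a' := by
    intro v; rw [g.be2.mem_iff]; simp
  have l1 : (b h).length = 3 := by rw [g.bh.length_eq]; rfl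
  have l2 : (b e1).length = 2 := by rw [g.be1.length_eq]; rfl
  have l3 : (b e2).length = 2 := by rw [g.be2.length_eq]; rfl
  refine ⟨nh.1.1, nh.1.2, nh.2, fun h' => n1 h'.symm, ?_, ?_, fun h' => n2 h'.symm, ?_, ?_⟩
  · intro h'
    subst h'
    rcases g.x2_only e1 g.e1I ((m2 _).2 (Or.inr rfl)) with h1 | h1
    · exact g.he1 h1.symm
    · exact g.e12 h1
  · intro h'
    subst h'
    rcases g.x1_only e2 g.e2I ((m3 _).2 (Or.inr rfl)) with h1 | h1
    · exact g.he2 h1.symm
    · exact g.e12 h1.symm
  · intro h'
    subst h'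
    have hp := hC.pot {h, e1} (by
      intro x hx
      simp only [Finset.mem_insert, Finset.mem_singleton] at hx
      rcases hx with rfl | rfl
      · exact g.hI
      · exact g.e1I) (by simp)
    have hc : cov b {h, e1} ⊆ {x1, x2, a} := by
      intro v hv
      simp only [cov, Finset.mem_biUnion, Finset.mem_insert, Finset.mem_singleton,
        List.mem_toFinset] at hv
      rcases hv with ⟨i, rfl | rfl, hv⟩
      · rw [m1] at hv; simp only [Finset.mem_insert, Finset.mem_singleton]; exact hv
      · rw [m2] at hv; simp only [Finset.mem_insert, Finset.mem_singleton]; tauto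
    have hc' := (Finset.card_le_card hc).trans Finset.card_le_three
    have hw : wt b {h, e1} = 7 := by
      rw [wt, Finset.sum_pair g.he1, l1, l2]
    omega
  · intro h'
    subst h'
    have hp := hC.pot {h, e2} (by
      intro x hx
      simp only [Finset.mem_insert, Finset.mem_singleton] at hx
      rcases hx with rfl | rfl
      · exact g.hI
      · exact g.e2I) (by simp)
    have hc : cov b {h, e2} ⊆ {x1, x2, a'} := by
      intro v hv
      simp only [cov, Finset.mem_biUnion, Finset.mem_insert, Finset.mem_singleton,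
        List.mem_toFinset] at hv
      rcases hv with ⟨i, rfl | rfl, hv⟩
      · rw [m1] at hv; simp only [Finset.mem_insert, Finset.mem_singleton]; exact hv
      · rw [m3] at hv; simp only [Finset.mem_insert, Finset.mem_singleton]; tauto
    have hc' := (Finset.card_le_card hc).trans Finset.card_le_three
    have hw : wt b {h, e2} = 7 := by
      rw [wt, Finset.sum_pair g.he2, l1, l3]
    omega

end Pool.Agent.TCH
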