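import Pool.Agent.TCH.Api

/-!
# MP_dbd377_co : module KEY of the squad TCH
-/

set_option autoImplicit false

namespace Pool.Agent.TCH

namespace KEY_

section

variable {V ι : Type} [DecidableEq V] [DecidableEq ι] (F : ι → Finset V) (w : ι → ℕ)

/-- potential -/
def pi (Y : Finset ι) : ℤ := 3 * ((Y.biUnion F).card : ℤ) - ((∑ i ∈ Y, w i : ℕ) : ℤ)

/-- defect -/
def gg (A B : Finset ι) : ℤ :=
  (((A.biUnion F ∩ B.biUnion F) \ (A ∩ B).biUnion F).card : ℤ)

theorem cov_inter_sub (A B : Finset ι) : (A ∩ B).biUnion F ⊆ A.biUnion F ∩ B.biUnion F := by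
  intro x hx
  simp only [Finset.mem_biUnion, Finset.mem_inter] at hx ⊢
  obtain ⟨i, ⟨hA, hB⟩, hi⟩ := hx
  exact ⟨⟨i, hA, hi⟩, ⟨i, hB, hi⟩⟩

theorem star (A B : Finset ι) :
    pi F w A + pi F w B = pi F w (A ∪ B) + pi F w (A ∩ B) + 3 * gg F A B := by
  have h1 : ((A.biUnion F ∪ B.biUnion F).card : ℤ) + (A.biUnion F ∩ B.biUnion F).card =
      (A.biUnion F).card + (B.biUnion F).card := by
    exact_mod_cast Finset.card_union_add_card_inter _ _
  have h2 : (((A.biUnion F ∩ B.biUnion F) \ (A ∩ B).biUnion F).card : ℤ) +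
      ((A ∩ B).biUnion F).card = (A.biUnion F ∩ B.biUnion F).card := by
    exact_mod_cast Finset.card_sdiff_add_card_eq_card (cov_inter_sub F A B)
  have h3 : ((∑ i ∈ A ∪ B, w i : ℕ) : ℤ) + ((∑ i ∈ A ∩ B, w i : ℕ) : ℤ) =
      ((∑ i ∈ A, w i : ℕ) : ℤ) + ((∑ i ∈ B, w i : ℕ) : ℤ) := by
    exact_mod_cast Finset.sum_union_inter
  unfold pi gg
  rw [Finset.union_biUnion]
  linarith

theorem gg_nonneg (A B : Finset ι) : 0 ≤ gg F A B := by
  unfold gg
  positivity

theorem gg_one {A B : Finset ι} {p : V} (hA : p ∈ A.biUnion F) (hB : p ∈ B.biUnion F)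
    (h : p ∉ (A ∩ B).biUnion F) : 1 ≤ gg F A B := by
  unfold gg
  have : 0 < ((A.biUnion F ∩ B.biUnion F) \ (A ∩ B).biUnion F).card :=
    Finset.card_pos.2 ⟨p, Finset.mem_sdiff.2 ⟨Finset.mem_inter.2 ⟨hA, hB⟩, h⟩⟩
  exact_mod_cast this

theorem gg_two {A B : Finset ι} {p q : V} (hpq : p ≠ q) (hA : p ∈ A.biUnion F)
    (hB : p ∈ B.biUnion F) (h : p ∉ (A ∩ B).biUnion F) (hA' : q ∈ A.biUnion F)
    (hB' : q ∈ B.biUnion F) (h' : q ∉ (A ∩ B).biUnion F) : 2 ≤ gg F A B := by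
  unfold gg
  have : 1 < ((A.biUnion F ∩ B.biUnion F) \ (A ∩ B).biUnion F).card :=
    Finset.one_lt_card.2 ⟨p, Finset.mem_sdiff.2 ⟨Finset.mem_inter.2 ⟨hA, hB⟩, h⟩, q,
      Finset.mem_sdiff.2 ⟨Finset.mem_inter.2 ⟨hA', hB'⟩, h'⟩, hpq⟩
  exact_mod_cast this

theorem mem_of_gg_zero {A B : Finset ι} (h0 : gg F A B = 0) {p : V} (hA : p ∈ A.biUnion F)
    (hB : p ∈ B.biUnion F) : p ∈ (A ∩ B).biUnion F := by
  by_contra h
  have := gg_one F hA hB h
  omega

theorem cov_mono {A B : Finset ι} (h : A ⊆ B) {p : V} (hp : p ∈ A.biUnion F) :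
    p ∈ B.biUnion F := Finset.biUnion_subset_biUnion_of_subset_left F h hp

theorem nonempty_of_mem {A : Finset ι} {p : V} (hp : p ∈ A.biUnion F) : A.Nonempty := by
  obtain ⟨i, hi, _⟩ := Finset.mem_biUnion.1 hp
  exact ⟨i, hi⟩

theorem pi_empty : pi F w ∅ = 0 := by simp [pi]

/-- the first step: two sets with a common point `a`, whose union has potential at least `6` -/
theorem step1 {R : Finset ι} (h1 : ∀ Y ⊆ R, Y.Nonempty → 3 ≤ pi F w Y) {A B : Finset ι}
    (hA : A ⊆ R) {a : V} (haA : a ∈ A.biUnion F) (haB : a ∈ B.biUnion F)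
    (h6 : 6 ≤ pi F w (A ∪ B)) (h4 : pi F w A ≤ 4) (h5 : pi F w B ≤ 5) :
    pi F w A = 4 ∧ pi F w B = 5 ∧ pi F w (A ∪ B) = 6 ∧
      ((a ∈ (A ∩ B).biUnion F ∧ pi F w (A ∩ B) = 3 ∧ gg F A B = 0) ∨
        (A ∩ B = ∅ ∧ gg F A B = 1)) := by
  have hs := star F w A B
  have hg := gg_nonneg F A B
  by_cases ha : a ∈ (A ∩ B).biUnion F
  · have := h1 (A ∩ B) (Finset.inter_subset_left.trans hA) (nonempty_of_mem F ha)
    refine ⟨by omega, by omega, by omega, Or.inl ⟨ha, by omega, by omega⟩⟩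
  · have hg1 := gg_one F haA haB ha
    rcases Finset.eq_empty_or_nonempty (A ∩ B) with h0 | h0
    · rw [h0, pi_empty] at hs
      refine ⟨by omega, by omega, by omega, Or.inr ⟨h0, by omega⟩⟩
    · have := h1 (A ∩ B) (Finset.inter_subset_left.trans hA) h0
      omega

end

end KEY_

open KEY_ in
theorem key_proof : Stmt_KEY := by
  intro V ι _ _ R F w a a' c H1 H2 H2' H3 HA HB HC
  have h1 : ∀ Y ⊆ R, Y.Nonempty → 3 ≤ pi F w Y := by
    intro Y hY hn
    have := H1 Y hY hn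
    unfold pi
    omega
  have h3 : ∀ Y ⊆ R, a ∈ Y.biUnion F → a' ∈ Y.biUnion F → c ∈ Y.biUnion F → 6 ≤ pi F w Y := by
    intro Y hY ha ha' hc
    have := H3 Y hY ha ha' hc
    unfold pi
    omega
  obtain ⟨A, hA, haA, ha'A, hcA, hpA⟩ := HA
  obtain ⟨B, hB, haB, hcB, ha'B, hpB⟩ := HB
  obtain ⟨C, hC, ha'C, hcC, haC, hpC⟩ := HC
  have hpA : pi F w A ≤ 4 := by unfold pi; omega
  have hpB : pi F w B ≤ 5 := by unfold pi; omega
  have hpC : pi F w C ≤ 5 := by unfold pi; omega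
  have ha'c : a' ≠ c := fun h => hcA (h ▸ ha'A)
  -- general facts
  have gAB : ∀ A' ⊆ R, a ∈ A'.biUnion F → a' ∈ A'.biUnion F → 6 ≤ pi F w (A' ∪ B) := by
    intro A' hA' h h'
    exact h3 _ (Finset.union_subset hA' hB) (cov_mono F Finset.subset_union_left h)
      (cov_mono F Finset.subset_union_left h') (cov_mono F Finset.subset_union_right hcB)
  have gAC : ∀ C' ⊆ R, a' ∈ C'.biUnion F → c ∈ C'.biUnion F → 6 ≤ pi F w (A ∪ C') := by
    intro C' hC' h h'
    exact h3 _ (Finset.union_subset hA hC') (cov_mono F Finset.subset_union_left haA)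
      (cov_mono F Finset.subset_union_right h) (cov_mono F Finset.subset_union_right h')
  have PA : ∀ A' ⊆ R, a ∈ A'.biUnion F → a' ∈ A'.biUnion F → 4 ≤ pi F w A' := by
    intro A' hA' h h'
    by_contra hlt
    have := (step1 F w h1 hA' h haB (gAB A' hA' h h') (by omega) hpB).1
    omega
  have PC : ∀ C' ⊆ R, a' ∈ C'.biUnion F → c ∈ C'.biUnion F → 5 ≤ pi F w C' := by
    intro C' hC' h h'
    by_contra hlt
    have := (step1 F w h1 hA ha'A h (gAC C' hC' h h') hpA (by omega)).2.1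
    omega
  obtain ⟨eA, eB, eAB, cAB⟩ := step1 F w h1 hA haA haB (gAB A hA haA ha'A) hpA hpB
  obtain ⟨-, eC, -, cAC⟩ := step1 F w h1 hA ha'A ha'C (gAC C hC ha'C hcC) hpA hpC
  -- step 2
  have hABR : A ∪ B ⊆ R := Finset.union_subset hA hB
  have sABC := star F w (A ∪ B) C
  have gABC := gg_nonneg F (A ∪ B) C
  have h6 : 6 ≤ pi F w (A ∪ B ∪ C) :=
    h3 _ (Finset.union_subset hABR hC)
      (cov_mono F (Finset.subset_union_left.trans Finset.subset_union_left) haA)
      (cov_mono F (Finset.subset_union_left.trans Finset.subset_union_left) ha'A)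
      (cov_mono F Finset.subset_union_right hcC)
  have ha'AB : a' ∈ (A ∪ B).biUnion F := cov_mono F Finset.subset_union_left ha'A
  have hcAB : c ∈ (A ∪ B).biUnion F := cov_mono F Finset.subset_union_right hcB
  have hDne : ((A ∪ B) ∩ C).Nonempty := by
    rcases Finset.eq_empty_or_nonempty ((A ∪ B) ∩ C) with h0 | h0
    · exfalso
      have := gg_two F ha'c ha'AB ha'C (by rw [h0]; simp) hcAB hcC (by rw [h0]; simp)
      rw [h0, pi_empty] at sABC
      omega
    · exact h0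
  have hDR : (A ∪ B) ∩ C ⊆ R := Finset.inter_subset_left.trans hABR
  have hD3 := h1 _ hDR hDne
  have hg0 : gg F (A ∪ B) C = 0 := by omega
  have ha'D : a' ∈ ((A ∪ B) ∩ C).biUnion F := mem_of_gg_zero F hg0 ha'AB ha'C
  have hcD : c ∈ ((A ∪ B) ∩ C).biUnion F := mem_of_gg_zero F hg0 hcAB hcC
  have hD5 := PC _ hDR ha'D hcD
  have eD : pi F w ((A ∪ B) ∩ C) = 5 := by omega
  have hDeq : (A ∪ B) ∩ C = (A ∩ C) ∪ (B ∩ C) := Finset.union_inter_distrib_right A B C
  have ha'M : a' ∈ (A ∩ C).biUnion F := by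
    rw [hDeq, Finset.union_biUnion, Finset.mem_union] at ha'D
    rcases ha'D with h | h
    · exact h
    · exact absurd (cov_mono F Finset.inter_subset_left h) ha'B
  have hcN : c ∈ (B ∩ C).biUnion F := by
    rw [hDeq, Finset.union_biUnion, Finset.mem_union] at hcD
    rcases hcD with h | h
    · exact absurd (cov_mono F Finset.inter_subset_left h) hcA
    · exact h
  have hMne : (A ∩ C).Nonempty := nonempty_of_mem F ha'M
  have eM : pi F w (A ∩ C) = 3 := by
    rcases cAC with h | h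
    · exact h.2.1
    · exact absurd h.1 hMne.ne_empty
  have hMR : A ∩ C ⊆ R := Finset.inter_subset_left.trans hA
  have hNR : B ∩ C ⊆ R := Finset.inter_subset_left.trans hB
  -- the set A'
  have hA'R : (A ∩ B) ∪ (A ∩ C) ⊆ R :=
    Finset.union_subset (Finset.inter_subset_left.trans hA) hMR
  have sA' := star F w (A ∩ B) (A ∩ C)
  have gA' := gg_nonneg F (A ∩ B) (A ∩ C)
  have hKeq : (A ∩ B) ∩ (A ∩ C) = (A ∩ C) ∩ (B ∩ C) := by
    ext i; simp only [Finset.mem_inter]; tauto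
  -- step 3
  have hK : (A ∩ C) ∩ (B ∩ C) = ∅ := by
    rcases Finset.eq_empty_or_nonempty ((A ∩ C) ∩ (B ∩ C)) with h0 | h0
    · exact h0
    · exfalso
      rcases cAB with ⟨ha, hp, _⟩ | ⟨h, _⟩
      · have h4 := PA _ hA'R (cov_mono F Finset.subset_union_left ha)
          (cov_mono F Finset.subset_union_right ha'M)
        have hk := h1 _ (Finset.inter_subset_left.trans hMR) h0
        rw [hKeq] at sA'
        omega
      · obtain ⟨i, hi⟩ := h0
        simp only [Finset.mem_inter] at hi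
        have : i ∈ A ∩ B := Finset.mem_inter.2 ⟨hi.1.1, hi.2.1⟩
        rw [h] at this
        simp at this
  -- step 4
  have sMN := star F w (A ∩ C) (B ∩ C)
  rw [← hDeq, hK, pi_empty] at sMN
  have hN3 := h1 _ hNR (nonempty_of_mem F hcN)
  have gMN := gg_nonneg F (A ∩ C) (B ∩ C)
  have hg1 : 0 < gg F (A ∩ C) (B ∩ C) := by
    by_contra hlt
    omega
  have : ∃ p, p ∈ ((A ∩ C).biUnion F ∩ (B ∩ C).biUnion F) \ ((A ∩ C) ∩ (B ∩ C)).biUnion F := by
    have h0 : 0 < (((A ∩ C).biUnion F ∩ (B ∩ C).biUnion F) \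
        ((A ∩ C) ∩ (B ∩ C)).biUnion F).card := by
      unfold gg at hg1
      exact_mod_cast hg1
    exact (Finset.card_pos.1 h0)
  obtain ⟨p, hp⟩ := this
  rw [Finset.mem_sdiff, Finset.mem_inter] at hp
  obtain ⟨⟨hpM, hpN⟩, -⟩ := hp
  have hpA' : p ∈ A.biUnion F := cov_mono F Finset.inter_subset_left hpM
  have hpB' : p ∈ B.biUnion F := cov_mono F Finset.inter_subset_left hpN
  have hpa : p ≠ a := by
    rintro rfl
    exact haC (cov_mono F Finset.inter_subset_right hpM)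
  rcases cAB with ⟨ha, hp3, hg⟩ | ⟨h, hg⟩
  · have hpAB := mem_of_gg_zero F hg hpA' hpB'
    have h4 := PA _ hA'R (cov_mono F Finset.subset_union_left ha)
      (cov_mono F Finset.subset_union_right ha'M)
    have := gg_one F hpAB hpM (by rw [hKeq, hK]; simp)
    rw [hKeq, hK, pi_empty] at sA'
    omega
  · have := gg_two F hpa hpA' hpB' (by rw [h]; simp) haA haB (by rw [h]; simp)
    omega

end Pool.Agent.TCH
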