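import Pool.Agent.TCH.Api

set_option autoImplicit false

namespace Pool.Agent.TCH

open MvPolynomial

namespace LOW_

theorem coeff_zero_of_notMem {V : Type} [DecidableEq V] {p : V} {Q : MvPolynomial V ℤ}
    (hp : p ∉ Q.vars) {m : V →₀ ℕ} (hm : m p ≠ 0) : Q.coeff m = 0 := by
  by_contra h
  apply hp
  rw [mem_vars_iff_mem_support]
  exact ⟨m, by rwa [mem_support_iff], by rwa [Finsupp.mem_support_iff]⟩

theorem high {V : Type} [DecidableEq V] {p : V} {Q : MvPolynomial V ℤ} (hp : p ∉ Q.vars)
    (L : List V) (hL : p ∉ L) :
    ∀ m : V →₀ ℕ, L.length < m p →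
      ((L.map (fun q => (X p - X q : MvPolynomial V ℤ))).prod * Q).coeff m = 0 := by
  induction L with
  | nil =>
    intro m hm
    simp only [List.map_nil, List.prod_nil, one_mul]
    apply coeff_zero_of_notMem hp
    simp only [List.length_nil] at hm
    omega
  | cons q L ih =>
    intro m hm
    rw [List.mem_cons, not_or] at hL
    have ih' := ih hL.2
    simp only [List.length_cons] at hm
    simp only [List.map_cons, List.prod_cons]
    rw [sub_mul, sub_mul, coeff_sub, mul_assoc, mul_assoc, coeff_X_mul', coeff_X_mul']
    have h1 : (m - Finsupp.single p 1 : V →₀ ℕ) p = m p - 1 := by simp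
    have h2 : (m - Finsupp.single q 1 : V →₀ ℕ) p = m p := by
      simp [Ne.symm hL.1]
    rw [ih' (m - Finsupp.single p 1) (by omega), ih' (m - Finsupp.single q 1) (by omega)]
    simp

theorem top {V : Type} [DecidableEq V] {p : V} {Q : MvPolynomial V ℤ} (hp : p ∉ Q.vars)
    (m : V →₀ ℕ) (L : List V) (hL : p ∉ L) :
      ((L.map (fun q => (X p - X q : MvPolynomial V ℤ))).prod * Q).coeff
        (m + Finsupp.single p L.length) = Q.coeff m := by
  induction L with
  | nil => simp
  | cons q L ih =>
    rw [List.mem_cons, not_or] at hL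
    have ih' := ih hL.2
    simp only [List.map_cons, List.prod_cons, List.length_cons]
    rw [sub_mul, sub_mul, coeff_sub, mul_assoc, mul_assoc, coeff_X_mul', coeff_X_mul']
    have h2 : (m + Finsupp.single p (L.length + 1) - Finsupp.single q 1 : V →₀ ℕ) p =
        m p + (L.length + 1) := by
      simp [Ne.symm hL.1]
    have h3 : m + Finsupp.single p (L.length + 1) - Finsupp.single p 1 =
        m + Finsupp.single p L.length := by
      ext v
      by_cases hv : p = v
      · subst hv; simp
      · simp [hv]
    rw [high hp L hL.2 (m + Finsupp.single p (L.length + 1) - Finsupp.single q 1)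
      (by rw [h2]; omega), h3, ih']
    have h4 : p ∈ (m + Finsupp.single p (L.length + 1)).support := by
      rw [Finsupp.mem_support_iff]; simp
    rw [if_pos h4]
    simp

end LOW_

/-- LOW: a point of degree at most two can be removed -/
theorem low_proof : Stmt_LOW := by
  intro V _ p L Q hpL hlen hpQ hQ
  obtain ⟨m, hm, hc⟩ := hQ
  have hmp : m p = 0 := by
    by_contra h
    exact hc (LOW_.coeff_zero_of_notMem hpQ h)
  refine ⟨m + Finsupp.single p L.length, fun v => ?_, ?_⟩
  · by_cases hv : p = v
    · subst hv
      simp [hmp, hlen]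
    · simp only [Finsupp.add_apply, Finsupp.single_apply, hv, if_false, add_zero]
      exact hm v
  · rw [LOW_.top hpQ m L hpL]
    exact hc

end Pool.Agent.TCH
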