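import Pool.Agent.TCH.Api

/-!
# Module POL (squad TCH): the graph polynomial of a structure with a reducible configuration
-/

set_option autoImplicit false

namespace Pool.Agent.TCH

open MvPolynomial

namespace POL_

variable {V : Type} [DecidableEq V]

theorem nv_mul {v : V} {P Q : MvPolynomial V ℤ} (hP : v ∉ P.vars) (hQ : v ∉ Q.vars) :
    v ∉ (P * Q).vars := fun h => by
  have h1 := vars_mul P Q h
  rw [Finset.mem_union] at h1
  exact h1.elim hP hQ

theorem nv_sub {v p q : V} (hp : v ≠ p) (hq : v ≠ q) : v ∉ (X p - X q : MvPolynomial V ℤ).vars := by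
  intro h
  have h1 := vars_sub_subset (X p : MvPolynomial V ℤ) h
  rw [Finset.mem_union, vars_X, vars_X, Finset.mem_singleton, Finset.mem_singleton] at h1
  exact h1.elim hp hq

theorem nv_list {v : V} (L : List (MvPolynomial V ℤ)) (h : ∀ P ∈ L, v ∉ P.vars) : v ∉ L.prod.vars := by
  induction L with
  | nil => simp
  | cons P L ih =>
    rw [List.prod_cons]
    exact nv_mul (h P (List.mem_cons_self)) (ih fun Q hQ => h Q (List.mem_cons_of_mem _ hQ))

theorem nv_lv {v : V} (l : List V) (h : v ∉ l) : v ∉ (lv l).vars := by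
  induction l with
  | nil => simp [lv]
  | cons p l ih =>
    rw [List.mem_cons, not_or] at h
    unfold lv
    refine nv_mul (nv_list _ ?_) (ih h.2)
    intro P hP
    rw [List.mem_map] at hP
    obtain ⟨q, hq, rfl⟩ := hP
    refine nv_sub h.1 ?_
    rintro rfl
    exact h.2 hq

theorem nv_prod {ι : Type} {v : V} (R : Finset ι) (b : ι → List V) (h : ∀ i ∈ R, v ∉ b i) :
    v ∉ (PP R b).vars := by
  classical
  induction R using Finset.induction_on with
  | empty => simp [PP]
  | insert i R hi ih =>
    unfold PP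
    rw [Finset.prod_insert hi]
    exact nv_mul (nv_lv _ (h i (Finset.mem_insert_self _ _)))
      (ih fun j hj => h j (Finset.mem_insert_of_mem hj))

end POL_

open POL_ in
theorem pol_proof (_hF : Stmt_FCT) : Stmt_POL := by
  intro V ι _ _ I b h e1 e2 x1 x2 a a' c _ hc
  have hsub : ({h, e1, e2} : Finset ι) ⊆ I := by
    intro i hi
    simp only [Finset.mem_insert, Finset.mem_singleton] at hi
    rcases hi with rfl | rfl | rfl
    · exact hc.hI
    · exact hc.e1I
    · exact hc.e2I
  have hprod : PP I b = (lv (b h) * (lv (b e1) * lv (b e2))) * PP (I \ {h, e1, e2}) b := by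
    unfold PP
    rw [← Finset.prod_sdiff hsub, mul_comm]
    congr 1
    rw [Finset.prod_insert, Finset.prod_insert, Finset.prod_singleton]
    · simpa using hc.e12
    · simp [hc.he1, hc.he2]
  have h1 : lv (b h) = (X x1 - X x2) * (X x1 - X c) * (X x2 - X c) ∨
      lv (b h) = -((X x1 - X x2) * (X x1 - X c) * (X x2 - X c)) := by
    rw [← lv_triple]
    exact lv_perm hc.bh
  have h2 : lv (b e1) = (X x1 - X a) ∨ lv (b e1) = -(X x1 - X a) := by
    rw [← lv_pair]
    exact lv_perm hc.be1
  have h3 : lv (b e2) = (X x2 - X a') ∨ lv (b e2) = -(X x2 - X a') := by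
    rw [← lv_pair]
    exact lv_perm hc.be2
  refine ⟨?_, ?_, ?_⟩
  · rw [hprod]
    unfold gad
    rcases h1 with h1 | h1 <;> rcases h2 with h2 | h2 <;> rcases h3 with h3 | h3 <;>
      rw [h1, h2, h3]
    · left; ring
    · right; ring
    · right; ring
    · left; ring
    · right; ring
    · left; ring
    · left; ring
    · right; ring
  · refine nv_prod _ b ?_
    intro i hi hx
    rw [Finset.mem_sdiff] at hi
    apply hi.2
    rcases hc.x1_only i hi.1 hx with rfl | rfl <;> simp
  · refine nv_prod _ b ?_
    intro i hi hx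
    rw [Finset.mem_sdiff] at hi
    apply hi.2
    rcases hc.x2_only i hi.1 hx with rfl | rfl <;> simp

end Pool.Agent.TCH
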