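import Pool.Agent.TCH.Api

/-!
# MP_dbd377_co : module RED of the squad TCH
-/

set_option autoImplicit false

namespace Pool.Agent.TCH

namespace RED_

section

variable {V ι : Type} [DecidableEq V] [DecidableEq ι]

theorem mem_cov {b : ι → List V} {Y : Finset ι} {v : V} :
    v ∈ cov b Y ↔ ∃ i ∈ Y, v ∈ b i := by
  simp [cov]

theorem cov_mono {b : ι → List V} {Y Z : Finset ι} (h : Y ⊆ Z) : cov b Y ⊆ cov b Z := by
  intro v hv
  rw [mem_cov] at hv ⊢
  obtain ⟨i, hi, hv⟩ := hv
  exact ⟨i, h hi, hv⟩

/-- the substitution `c ↦ a` -/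
def sb (c a : V) : V → V := fun v => if v = c then a else v

theorem cov_map (b : ι → List V) (Y : Finset ι) (σ : V → V) :
    cov (fun i => (b i).map σ) Y = (cov b Y).image σ := by
  ext v
  simp only [mem_cov, List.mem_map, Finset.mem_image]
  constructor
  · rintro ⟨i, hi, u, hu, rfl⟩
    exact ⟨u, ⟨i, hi, hu⟩, rfl⟩
  · rintro ⟨u, ⟨i, hi, hu⟩, rfl⟩
    exact ⟨i, hi, u, hu, rfl⟩

theorem wt_map (b : ι → List V) (Y : Finset ι) (σ : V → V) :
    wt (fun i => (b i).map σ) Y = wt b Y := by
  simp [wt]

/-- from the failure of an identification to a bad set -/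
theorem bad_ident {I R : Finset ι} {b : ι → List V} (hI : C3 I b) (hR : R ⊆ I) (a c : V)
    (h : ¬ C3 R (fun i => (b i).map (sb c a))) :
    ∃ B ⊆ R, a ∈ cov b B ∧ c ∈ cov b B ∧ 3 * (cov b B).card ≤ wt b B + 5 := by
  by_contra hcon
  push Not at hcon
  apply h
  refine ⟨?_, ?_⟩
  · intro i hi
    simpa using hI.len i (hR hi)
  · intro Y hY hne
    rw [cov_map, wt_map]
    have hp := hI.pot Y (hY.trans hR) hne
    by_cases hac : a ∈ cov b Y ∧ c ∈ cov b Y
    · have h5 := hcon Y hY hac.1 hac.2
      have hsub : (cov b Y).erase c ⊆ (cov b Y).image (sb c a) := by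
        intro v hv
        rw [Finset.mem_erase] at hv
        refine Finset.mem_image.2 ⟨v, hv.2, ?_⟩
        simp [sb, hv.1]
      have h1 := Finset.card_le_card hsub
      rw [Finset.card_erase_of_mem hac.2] at h1
      omega
    · have hinj : Set.InjOn (sb c a) (cov b Y : Set V) := by
        intro u hu v hv huv
        simp only [Finset.mem_coe] at hu hv
        unfold sb at huv
        split_ifs at huv with h1 h2 h2
        · rw [h1, h2]
        · subst h1; subst huv
          exact absurd ⟨hv, hu⟩ hac
        · subst h2; subst huv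
          exact absurd ⟨hu, hv⟩ hac
        · exact huv
      rw [Finset.card_image_of_injOn hinj]
      exact hp

end

end RED_

open RED_ in
theorem red_proof (hKEY : Stmt_KEY) (hFCT : Stmt_FCT) : Stmt_RED := by
  intro V ι _ _ I b h e1 e2 x1 x2 a a' c hI hc
  obtain ⟨hnd, hne⟩ := hFCT V ι I b hI
  obtain ⟨n1, n2, n3, n4, n5, n6, n7, n8, n9⟩ := hne h e1 e2 x1 x2 a a' c hc
  set R : Finset ι := I \ {h, e1, e2} with hRdef
  have hRI : R ⊆ I := Finset.sdiff_subset
  have hRn : ∀ i ∈ R, i ≠ h ∧ i ≠ e1 ∧ i ≠ e2 := by
    intro i hi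
    rw [hRdef, Finset.mem_sdiff] at hi
    simp only [Finset.mem_insert, Finset.mem_singleton, not_or] at hi
    exact hi.2
  have hx1 : ∀ Y ⊆ R, x1 ∉ cov b Y := by
    intro Y hY hx
    obtain ⟨i, hi, hx⟩ := mem_cov.1 hx
    have := hRn i (hY hi)
    rcases hc.x1_only i (hRI (hY hi)) hx with h' | h'
    · exact this.1 h'
    · exact this.2.1 h'
  have hx2 : ∀ Y ⊆ R, x2 ∉ cov b Y := by
    intro Y hY hx
    obtain ⟨i, hi, hx⟩ := mem_cov.1 hx
    have := hRn i (hY hi)
    rcases hc.x2_only i (hRI (hY hi)) hx with h' | h'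
    · exact this.1 h'
    · exact this.2.2 h'
  have lh : (b h).length = 3 := by simpa using hc.bh.length_eq
  have le1 : (b e1).length = 2 := by simpa using hc.be1.length_eq
  have le2 : (b e2).length = 2 := by simpa using hc.be2.length_eq
  have mh : ∀ v, v ∈ b h ↔ v = x1 ∨ v = x2 ∨ v = c := by
    intro v; rw [hc.bh.mem_iff]; simp
  have me1 : ∀ v, v ∈ b e1 ↔ v = x1 ∨ v = a := by
    intro v; rw [hc.be1.mem_iff]; simp
  have me2 : ∀ v, v ∈ b e2 ↔ v = x2 ∨ v = a' := by
    intro v; rw [hc.be2.mem_iff]; simp
  -- the cardinality bound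
  have hcard : ∀ Y ⊆ R, ∀ Z : Finset V, Z ⊆ insert x1 (insert x2 (cov b Y)) →
      Z.card ≤ (cov b Y).card + 2 := by
    intro Y hY Z hZ
    have h1 := Finset.card_le_card hZ
    have h2 := Finset.card_insert_le x1 (insert x2 (cov b Y))
    have h3 := Finset.card_insert_le x2 (cov b Y)
    omega
  have H1 : ∀ Y ⊆ R, Y.Nonempty → wt b Y + 3 ≤ 3 * (cov b Y).card := fun Y hY hn =>
    hI.pot Y (hY.trans hRI) hn
  have H2 : ∀ Y ⊆ R, a ∈ cov b Y → c ∈ cov b Y → wt b Y + 4 ≤ 3 * (cov b Y).card := by
    intro Y hY ha hcY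
    have hhY : h ∉ Y := fun hh => (hRn h (hY hh)).1 rfl
    have h1Y : e1 ∉ Y := fun hh => (hRn e1 (hY hh)).2.1 rfl
    have hp := hI.pot (insert h (insert e1 Y)) (by
      intro i hi
      rw [Finset.mem_insert, Finset.mem_insert] at hi
      rcases hi with rfl | rfl | hi
      · exact hc.hI
      · exact hc.e1I
      · exact hRI (hY hi)) ⟨h, Finset.mem_insert_self _ _⟩
    have hw : wt b (insert h (insert e1 Y)) = 7 + wt b Y := by
      unfold wt
      rw [Finset.sum_insert (by simp [hc.he1, hhY]), Finset.sum_insert h1Y, lh, le1]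
      omega
    have hcv := hcard Y hY (cov b (insert h (insert e1 Y))) (by
      intro v hv
      obtain ⟨i, hi, hv'⟩ := mem_cov.1 hv
      rw [Finset.mem_insert, Finset.mem_insert] at hi ⊢
      rcases hi with rfl | rfl | hi
      · rcases (mh v).1 hv' with rfl | rfl | rfl
        · exact Or.inl rfl
        · exact Or.inr (Or.inl rfl)
        · exact Or.inr (Or.inr hcY)
      · rcases (me1 v).1 hv' with rfl | rfl
        · exact Or.inl rfl
        · exact Or.inr (Or.inr ha)
      · exact Or.inr (Or.inr (mem_cov.2 ⟨i, hi, hv'⟩)))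
    rw [hw] at hp
    omega
  have H2' : ∀ Y ⊆ R, a' ∈ cov b Y → c ∈ cov b Y → wt b Y + 4 ≤ 3 * (cov b Y).card := by
    intro Y hY ha hcY
    have hhY : h ∉ Y := fun hh => (hRn h (hY hh)).1 rfl
    have h1Y : e2 ∉ Y := fun hh => (hRn e2 (hY hh)).2.2 rfl
    have hp := hI.pot (insert h (insert e2 Y)) (by
      intro i hi
      rw [Finset.mem_insert, Finset.mem_insert] at hi
      rcases hi with rfl | rfl | hi
      · exact hc.hI
      · exact hc.e2I
      · exact hRI (hY hi)) ⟨h, Finset.mem_insert_self _ _⟩
    have hw : wt b (insert h (insert e2 Y)) = 7 + wt b Y := by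
      unfold wt
      rw [Finset.sum_insert (by simp [hc.he2, hhY]), Finset.sum_insert h1Y, lh, le2]
      omega
    have hcv := hcard Y hY (cov b (insert h (insert e2 Y))) (by
      intro v hv
      obtain ⟨i, hi, hv'⟩ := mem_cov.1 hv
      rw [Finset.mem_insert, Finset.mem_insert] at hi ⊢
      rcases hi with rfl | rfl | hi
      · rcases (mh v).1 hv' with rfl | rfl | rfl
        · exact Or.inl rfl
        · exact Or.inr (Or.inl rfl)
        · exact Or.inr (Or.inr hcY)
      · rcases (me2 v).1 hv' with rfl | rfl
        · exact Or.inr (Or.inl rfl)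
        · exact Or.inr (Or.inr ha)
      · exact Or.inr (Or.inr (mem_cov.2 ⟨i, hi, hv'⟩)))
    rw [hw] at hp
    omega
  have H3 : ∀ Y ⊆ R, a ∈ cov b Y → a' ∈ cov b Y → c ∈ cov b Y →
      wt b Y + 6 ≤ 3 * (cov b Y).card := by
    intro Y hY ha ha' hcY
    have hhY : h ∉ Y := fun hh => (hRn h (hY hh)).1 rfl
    have h1Y : e1 ∉ Y := fun hh => (hRn e1 (hY hh)).2.1 rfl
    have h2Y : e2 ∉ Y := fun hh => (hRn e2 (hY hh)).2.2 rfl
    have hp := hI.pot (insert h (insert e1 (insert e2 Y))) (by
      intro i hi
      rw [Finset.mem_insert, Finset.mem_insert, Finset.mem_insert] at hi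
      rcases hi with rfl | rfl | rfl | hi
      · exact hc.hI
      · exact hc.e1I
      · exact hc.e2I
      · exact hRI (hY hi)) ⟨h, Finset.mem_insert_self _ _⟩
    have hw : wt b (insert h (insert e1 (insert e2 Y))) = 9 + wt b Y := by
      unfold wt
      rw [Finset.sum_insert (by simp [hc.he1, hc.he2, hhY]),
        Finset.sum_insert (by simp [hc.e12, h1Y]), Finset.sum_insert h2Y, lh, le1, le2]
      omega
    have hcv := hcard Y hY (cov b (insert h (insert e1 (insert e2 Y)))) (by
      intro v hv
      obtain ⟨i, hi, hv'⟩ := mem_cov.1 hv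
      rw [Finset.mem_insert, Finset.mem_insert, Finset.mem_insert] at hi
      rw [Finset.mem_insert, Finset.mem_insert]
      rcases hi with rfl | rfl | rfl | hi
      · rcases (mh v).1 hv' with rfl | rfl | rfl
        · exact Or.inl rfl
        · exact Or.inr (Or.inl rfl)
        · exact Or.inr (Or.inr hcY)
      · rcases (me1 v).1 hv' with rfl | rfl
        · exact Or.inl rfl
        · exact Or.inr (Or.inr ha)
      · rcases (me2 v).1 hv' with rfl | rfl
        · exact Or.inr (Or.inl rfl)
        · exact Or.inr (Or.inr ha')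
      · exact Or.inr (Or.inr (mem_cov.2 ⟨i, hi, hv'⟩)))
    rw [hw] at hp
    omega
  by_contra hcon
  rw [not_or, not_or] at hcon
  obtain ⟨N1, N2, N3⟩ := hcon
  obtain ⟨B, hB, haB, hcB, hpB⟩ := bad_ident hI hRI a c N2
  obtain ⟨C, hC, haC, hcC, hpC⟩ := bad_ident hI hRI a' c N3
  have ha'B : a' ∉ cov b B := by
    intro h'
    have := H3 B hB haB h' hcB
    omega
  have haC' : a ∉ cov b C := by
    intro h'
    have := H3 C hC h' haC hcC
    omega
  have haa' : a ≠ a' := by
    rintro rfl
    exact ha'B haB
  have hA : ∃ A ⊆ R, a ∈ cov b A ∧ a' ∈ cov b A ∧ c ∉ cov b A ∧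
      3 * (cov b A).card ≤ wt b A + 4 := by
    by_contra hno
    push Not at hno
    apply N1
    refine ⟨haa', ?_, ?_⟩
    · intro i hi
      rcases Finset.mem_insert.1 hi with rfl | hi
      · left; simp
      · rw [Function.update_of_ne (hRn i hi).2.1]
        exact hI.len i (hRI hi)
    · intro Y hY hne'
      have hcong : ∀ Z : Finset ι, e1 ∉ Z →
          wt (Function.update b e1 [a, a']) Z = wt b Z ∧
          cov (Function.update b e1 [a, a']) Z = cov b Z := by
        intro Z hZ
        constructor
        · unfold wt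
          refine Finset.sum_congr rfl (fun i hi => ?_)
          rw [Function.update_of_ne (by rintro rfl; exact hZ hi)]
        · unfold cov
          refine Finset.biUnion_congr rfl (fun i hi => ?_)
          rw [Function.update_of_ne (by rintro rfl; exact hZ hi)]
      by_cases h1 : e1 ∈ Y
      · have hY0 : Y.erase e1 ⊆ R := by
          intro i hi
          rw [Finset.mem_erase] at hi
          rcases Finset.mem_insert.1 (hY hi.2) with h' | h'
          · exact absurd h' hi.1
          · exact h'
        obtain ⟨hw, hcv⟩ := hcong (Y.erase e1) (by simp)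
        have hYe : Y = insert e1 (Y.erase e1) := (Finset.insert_erase h1).symm
        have hwY : wt (Function.update b e1 [a, a']) Y = 2 + wt b (Y.erase e1) := by
          rw [← hw]
          conv_lhs => rw [hYe]
          unfold wt
          rw [Finset.sum_insert (by simp)]
          simp
        have hcY : cov (Function.update b e1 [a, a']) Y =
            insert a (insert a' (cov b (Y.erase e1))) := by
          rw [← hcv]
          conv_lhs => rw [hYe]
          unfold cov
          rw [Finset.biUnion_insert]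
          ext v
          simp
        rw [hwY, hcY]
        have key : ∀ v, v ∉ cov b (Y.erase e1) → (Y.erase e1).Nonempty →
            v ∈ insert a (insert a' (cov b (Y.erase e1))) →
            2 + wt b (Y.erase e1) + 3 ≤
              3 * (insert a (insert a' (cov b (Y.erase e1)))).card := by
          intro v hv hn hvi
          have h2 := H1 _ hY0 hn
          have h3 : (insert v (cov b (Y.erase e1))).card ≤
              (insert a (insert a' (cov b (Y.erase e1)))).card := by
            apply Finset.card_le_card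
            intro u hu
            rcases Finset.mem_insert.1 hu with rfl | hu
            · exact hvi
            · exact Finset.mem_insert_of_mem (Finset.mem_insert_of_mem hu)
          rw [Finset.card_insert_of_notMem hv] at h3
          omega
        rcases Finset.eq_empty_or_nonempty (Y.erase e1) with h0 | h0
        · rw [h0]
          simp [cov, wt, haa']
        · by_cases haY : a ∈ cov b (Y.erase e1)
          · by_cases ha'Y : a' ∈ cov b (Y.erase e1)
            · by_cases hcY' : c ∈ cov b (Y.erase e1)
              · have h3 := H3 _ hY0 haY ha'Y hcY'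
                rw [Finset.insert_eq_of_mem ha'Y, Finset.insert_eq_of_mem haY]
                omega
              · have h4 := hno _ hY0 haY ha'Y hcY'
                rw [Finset.insert_eq_of_mem ha'Y, Finset.insert_eq_of_mem haY]
                omega
            · exact key a' ha'Y h0 (by simp)
          · exact key a haY h0 (by simp)
      · obtain ⟨hw, hcv⟩ := hcong Y h1
        rw [hw, hcv]
        refine H1 Y ?_ hne'
        intro i hi
        rcases Finset.mem_insert.1 (hY hi) with rfl | h'
        · exact absurd hi h1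
        · exact h'
  exact hKEY V ι R (fun i => (b i).toFinset) (fun i => 3 * (b i).length - 4) a a' c H1 H2 H2' H3
    hA ⟨B, hB, haB, hcB, ha'B, hpB⟩ ⟨C, hC, haC, hcC, haC', hpC⟩

end Pool.Agent.TCH
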