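import Pool.Agent.TCH.Api

/-!
# MP_dbd377_co : module THA (Theorem A), squad TCH
-/

set_option autoImplicit false

namespace Pool.Agent.TCH

open MvPolynomial

namespace THA_

/-- total length of all blocks -/
def sz {V ι : Type} (I : Finset ι) (b : ι → List V) : ℕ := ∑ i ∈ I, (b i).length

theorem good_one {V : Type} : Good (1 : MvPolynomial V ℤ) := by
  classical
  refine ⟨0, fun v => by simp, ?_⟩
  simp

theorem pp_rename {V ι : Type} (f : V → V) (I : Finset ι) (b : ι → List V) :
    PP I (fun i => (b i).map f) = rename f (PP I b) := by
  unfold PP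
  rw [map_prod]
  exact Finset.prod_congr rfl (fun i _ => (rename_lv f (b i)).symm)

theorem sz_map {V ι : Type} (f : V → V) (I : Finset ι) (b : ι → List V) :
    sz I (fun i => (b i).map f) = sz I b := by
  unfold sz
  exact Finset.sum_congr rfl (fun i _ => by simp)

theorem main {V ι : Type} [DecidableEq V] [DecidableEq ι]
    (hALG : Stmt_ALG) (hLOW : Stmt_LOW) (hFCT : Stmt_FCT) (hRED : Stmt_RED)
    (hCNT : Stmt_CNT) (hPOL : Stmt_POL) (hDEL : Stmt_DEL) (hDLP : Stmt_DLP) :
    ∀ (n : ℕ) (I : Finset ι) (b : ι → List V), sz I b ≤ n → C3 I b → Good (PP I b) := by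
  intro n
  induction n with
  | zero =>
    intro I b hn hC
    have hI : I = ∅ := by
      by_contra hne
      obtain ⟨i, hi⟩ := Finset.nonempty_iff_ne_empty.mpr hne
      have h1 : (b i).length ≤ sz I b :=
        Finset.single_le_sum (f := fun i => (b i).length) (fun _ _ => Nat.zero_le _) hi
      have h2 := hC.len i hi
      omega
    subst hI
    simpa [PP] using (good_one (V := V))
  | succ n ih =>
    intro I b hn hC
    by_cases hI : I.Nonempty
    swap
    · have hI' : I = ∅ := Finset.not_nonempty_iff_eq_empty.mp hI
      subst hI'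
      simpa [PP] using (good_one (V := V))
    by_cases hd : ∀ v ∈ cov b I, 3 ≤ dg I b v
    swap
    · -- a point of small degree
      push Not at hd
      obtain ⟨p, hp, hdp⟩ := hd
      have hC' := hDEL V ι I b p hC
      obtain ⟨L, hpL, hLl, hpv, hPP⟩ := hDLP V ι I b p hC
      have hsz : sz (I.filter (fun i => 2 ≤ ((b i).erase p).length)) (fun i => (b i).erase p) ≤ n := by
        have h1 : sz (I.filter (fun i => 2 ≤ ((b i).erase p).length)) (fun i => (b i).erase p) ≤
            ∑ i ∈ I, ((b i).erase p).length := by
          unfold sz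
          exact Finset.sum_le_sum_of_subset (Finset.filter_subset _ _)
        have h2 : ∑ i ∈ I, ((b i).erase p).length < sz I b := by
          unfold sz
          obtain ⟨i0, hi0, hpi0⟩ := Finset.mem_biUnion.mp hp
          have hpi0' : p ∈ b i0 := by simpa using hpi0
          refine Finset.sum_lt_sum (fun i _ => List.length_erase_le) ⟨i0, hi0, ?_⟩
          rw [List.length_erase_of_mem hpi0']
          have := List.length_pos_of_mem hpi0'
          omega
        omega
      have hg := ih _ _ hsz hC'
      have hg2 := hLOW V p L _ hpL (by omega) hpv hg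
      rcases hPP with h | h
      · rw [h]; exact hg2
      · rw [h]; exact good_neg.mpr hg2
    · obtain ⟨h, e1, e2, x1, x2, a, a', c, hcfg⟩ := hCNT V ι I b hC hI hd
      obtain ⟨h12, h1c, h2c, ha1, ha2, ha'1, ha'2, hac, ha'c⟩ :=
        (hFCT V ι I b hC).2 h e1 e2 x1 x2 a a' c hcfg
      obtain ⟨hpp, hv1, hv2⟩ := hPOL V ι I b h e1 e2 x1 x2 a a' c hC hcfg
      have hlen : sz (I \ {h, e1, e2}) b + 7 = sz I b := by
        have hsub : ({h, e1, e2} : Finset ι) ⊆ I := by
          intro i hi
          simp only [Finset.mem_insert, Finset.mem_singleton] at hi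
          rcases hi with rfl | rfl | rfl
          · exact hcfg.hI
          · exact hcfg.e1I
          · exact hcfg.e2I
        have hs := Finset.sum_sdiff (f := fun i => (b i).length) hsub
        have hs3 : ∑ i ∈ ({h, e1, e2} : Finset ι), (b i).length = 7 := by
          rw [Finset.sum_insert (by
              simp only [Finset.mem_insert, Finset.mem_singleton, not_or]
              exact ⟨hcfg.he1, hcfg.he2⟩),
            Finset.sum_insert (by simpa using hcfg.e12), Finset.sum_singleton,
            hcfg.bh.length_eq, hcfg.be1.length_eq, hcfg.be2.length_eq]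
          rfl
        unfold sz
        omega
      have key : Good (gad x1 x2 a a' c * PP (I \ {h, e1, e2}) b) := by
        rcases hRED V ι I b h e1 e2 x1 x2 a a' c hC hcfg with ⟨haa, h1⟩ | h1 | h1
        · -- first reduction
          have hne : e1 ∉ I \ {h, e1, e2} := by simp
          have hupd : ∀ i ∈ I \ {h, e1, e2}, Function.update b e1 [a, a'] i = b i := by
            intro i hi
            have : i ≠ e1 := fun hh => hne (hh ▸ hi)
            exact Function.update_of_ne this _ _
          have hsz : sz (insert e1 (I \ {h, e1, e2})) (Function.update b e1 [a, a']) ≤ n := by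
            have hs : sz (insert e1 (I \ {h, e1, e2})) (Function.update b e1 [a, a']) =
                2 + sz (I \ {h, e1, e2}) b := by
              unfold sz
              rw [Finset.sum_insert hne]
              congr 1
              · simp
              · exact Finset.sum_congr rfl (fun i hi => by rw [hupd i hi])
            omega
          have hg := ih _ _ hsz h1
          have hPPe : PP (insert e1 (I \ {h, e1, e2})) (Function.update b e1 [a, a']) =
              (X a - X a') * PP (I \ {h, e1, e2}) b := by
            unfold PP
            rw [Finset.prod_insert hne]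
            congr 1
            · simp [lv_pair]
            · exact Finset.prod_congr rfl (fun i hi => by rw [hupd i hi])
          rw [hPPe] at hg
          exact hALG V x1 x2 a a' c _ h12 h1c h2c ha1 ha2 ha'1 ha'2 hac ha'c hv1 hv2 (Or.inl hg)
        · have hsz : sz (I \ {h, e1, e2}) (fun i => (b i).map (fun v => if v = c then a else v)) ≤ n := by
            rw [sz_map]; omega
          have hg := ih _ _ hsz h1
          rw [pp_rename] at hg
          exact hALG V x1 x2 a a' c _ h12 h1c h2c ha1 ha2 ha'1 ha'2 hac ha'c hv1 hv2 (Or.inr hg)
        · have hsz : sz (I \ {h, e1, e2}) (fun i => (b i).map (fun v => if v = c then a' else v)) ≤ n := by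
            rw [sz_map]; omega
          have hg := ih _ _ hsz h1
          rw [pp_rename] at hg
          have hg2 := hALG V x2 x1 a' a c _ h12.symm h2c h1c ha'2 ha'1 ha2 ha1 ha'c hac hv2 hv1
            (Or.inr hg)
          have he : gad x2 x1 a' a c * PP (I \ {h, e1, e2}) b =
              - (gad x1 x2 a a' c * PP (I \ {h, e1, e2}) b) := by
            unfold gad; ring
          rw [he] at hg2
          exact good_neg.mp hg2
      rcases hpp with hh | hh
      · rw [hh]; exact key
      · rw [hh]; exact good_neg.mpr key

end THA_

theorem tha_proof (hALG : Stmt_ALG) (hLOW : Stmt_LOW) (hFCT : Stmt_FCT) (hRED : Stmt_RED)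
    (hCNT : Stmt_CNT) (hPOL : Stmt_POL) (hDEL : Stmt_DEL) (hDLP : Stmt_DLP) : Stmt_THA := by
  intro V ι _ _ I b hC
  exact THA_.main hALG hLOW hFCT hRED hCNT hPOL hDEL hDLP _ I b le_rfl hC

end Pool.Agent.TCH
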