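import Pool.Agent.TCH.Stmts

/-!
# MP_dbd377_co : small common lemmas of the squad TCH
-/

set_option autoImplicit false

namespace Pool.Agent.TCH

open MvPolynomial

section poly

variable {V : Type}

theorem good_neg {P : MvPolynomial V ℤ} : Good (-P) ↔ Good P := by
  simp [Good]

theorem rename_lv {W : Type} (f : V → W) (l : List V) : rename f (lv l) = lv (l.map f) := by
  induction l with
  | nil => simp [lv]
  | cons p l ih =>
    simp only [lv, map_mul, ih, List.map_cons, map_list_prod, List.map_map]
    congr 2
    apply List.map_congr_left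
    intro q _
    simp

theorem lv_pair (p q : V) : lv [p, q] = X p - X q := by simp [lv]

theorem lv_triple (p q r : V) : lv [p, q, r] = (X p - X q) * (X p - X r) * (X q - X r) := by
  simp [lv]

theorem lv_single (p : V) : lv [p] = 1 := by simp [lv]

theorem lv_of_length_le_one {l : List V} (h : l.length ≤ 1) : lv l = 1 := by
  match l, h with
  | [], _ => rfl
  | [p], _ => simp [lv]

/-- `lv` of a permuted list is the same up to sign -/
theorem lv_perm {l l' : List V} (h : l.Perm l') : lv l = lv l' ∨ lv l = - lv l' := by
  induction h with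
  | nil => exact Or.inl rfl
  | cons x h ih =>
    rename_i l l'
    have h1 : (l.map (fun q => (X x - X q : MvPolynomial V ℤ))).prod =
        (l'.map (fun q => (X x - X q : MvPolynomial V ℤ))).prod := (h.map _).prod_eq
    simp only [lv, h1]
    rcases ih with ih | ih
    · left; rw [ih]
    · right; rw [ih]; ring
  | swap x y l =>
    right
    simp only [lv, List.map_cons, List.prod_cons]
    ring
  | trans _ _ ih1 ih2 =>
    rcases ih1 with ih1 | ih1 <;> rcases ih2 with ih2 | ih2
    · left; rw [ih1, ih2]
    · right; rw [ih1, ih2]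
    · right; rw [ih1, ih2]
    · left; rw [ih1, ih2, neg_neg]

end poly

section geom

variable {V : Type} {X : SimpleGraph V}

theorem par_nil (z : ℂ) : par [] z = 0 := rfl

theorem par_cons (s : ℂ × ℂ) (S : List (ℂ × ℂ)) (z : ℂ) :
    par (s :: S) z = chi s z + par S z := rfl

theorem par_append (S T : List (ℂ × ℂ)) (z : ℂ) : par (S ++ T) z = par S z + par T z := by
  simp [par]

theorem mem_supp {S : List (ℂ × ℂ)} {z : ℂ} : z ∈ supp S ↔ ∃ s ∈ S, z ∈ segment ℝ s.1 s.2 :=
  Iff.rfl

theorem supp_nil : supp [] = ∅ := by
  ext z; simp [supp]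

theorem supp_cons (s : ℂ × ℂ) (S : List (ℂ × ℂ)) :
    supp (s :: S) = segment ℝ s.1 s.2 ∪ supp S := by
  ext z; simp [supp]

theorem supp_append (S T : List (ℂ × ℂ)) : supp (S ++ T) = supp S ∪ supp T := by
  ext z; simp [supp, or_and_right, exists_or]

/-- the parity functional is additive, for every point `z` -/
theorem W_symmDiff [DecidableEq V] (D : PD X) (C C' : Finset (Sym2 V)) (z : ℂ) :
    D.W (symmDiff C C') z = D.W C z + D.W C' z := by
  classical
  have h2 : ∀ x : ZMod 2, x + x = 0 := by decide
  have hC : D.W C z = (∑ e ∈ C \ C', par (D.K e) z) + ∑ e ∈ C ∩ C', par (D.K e) z := by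
    unfold PD.W
    rw [← Finset.sum_union (Finset.disjoint_sdiff_inter C C'), Finset.sdiff_union_inter]
  have hC' : D.W C' z = (∑ e ∈ C' \ C, par (D.K e) z) + ∑ e ∈ C ∩ C', par (D.K e) z := by
    unfold PD.W
    rw [Finset.inter_comm, ← Finset.sum_union (Finset.disjoint_sdiff_inter C' C),
      Finset.sdiff_union_inter]
  have hS : D.W (symmDiff C C') z =
      (∑ e ∈ C \ C', par (D.K e) z) + ∑ e ∈ C' \ C, par (D.K e) z := by
    unfold PD.W
    rw [symmDiff_def, Finset.sup_eq_union,
      Finset.sum_union]
    exact disjoint_sdiff_sdiff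
  rw [hC, hC', hS]
  have := h2 (∑ e ∈ C ∩ C', par (D.K e) z)
  linear_combination -this

/-- the symmetric difference of even edge sets is even -/
theorem evenS_symmDiff [DecidableEq V] {C C' : Finset (Sym2 V)} (h : EvenS X C)
    (h' : EvenS X C') : EvenS X (symmDiff C C') := by
  classical
  refine ⟨fun e he => ?_, fun v => ?_⟩
  · rw [Finset.mem_symmDiff] at he
    rcases he with he | he
    · exact h.1 e he.1
    · exact h'.1 e he.1
  · have h1 := h.2 v
    have h2 := h'.2 v
    have e1 : ((C.filter (fun e => v ∈ e))).card =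
        ((C \ C').filter (fun e => v ∈ e)).card + ((C ∩ C').filter (fun e => v ∈ e)).card := by
      rw [← Finset.card_union_of_disjoint, ← Finset.filter_union, Finset.sdiff_union_inter]
      exact Finset.disjoint_filter_filter (Finset.disjoint_sdiff_inter C C')
    have e2 : ((C'.filter (fun e => v ∈ e))).card =
        ((C' \ C).filter (fun e => v ∈ e)).card + ((C ∩ C').filter (fun e => v ∈ e)).card := by
      rw [Finset.inter_comm, ← Finset.card_union_of_disjoint, ← Finset.filter_union,
        Finset.sdiff_union_inter]
      exact Finset.disjoint_filter_filter (Finset.disjoint_sdiff_inter C' C)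
    have e3 : (((symmDiff C C')).filter (fun e => v ∈ e)).card =
        ((C \ C').filter (fun e => v ∈ e)).card + ((C' \ C).filter (fun e => v ∈ e)).card := by
      rw [symmDiff_def, Finset.sup_eq_union, Finset.filter_union,
        Finset.card_union_of_disjoint]
      exact Finset.disjoint_filter_filter disjoint_sdiff_sdiff
    rw [e1] at h1
    rw [e2] at h2
    rw [e3]
    rcases h1 with ⟨a, ha⟩
    rcases h2 with ⟨b, hb⟩
    refine ⟨a + b - ((C ∩ C').filter (fun e => v ∈ e)).card, ?_⟩
    omega

end geom

end Pool.Agent.TCH
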