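import Pool.Agent.TCH.Api

/-!
# TCH, module FIN: the frozen statement from the modules
-/

set_option autoImplicit false

namespace Pool.Agent.TCH

open MvPolynomial

namespace FIN_

theorem dr_mono {V : Type} {G X : SimpleGraph V} (h : X ≤ G) (hG : Dr G) : Dr X := by
  obtain ⟨p, hp, γ, h1, h2⟩ := hG
  exact ⟨p, hp, γ, fun u v huv => h1 u v (h huv),
    fun u v x y huv hxy hne => h2 u v x y (h huv) (h hxy) hne⟩

theorem noc_mono {V : Type} {G X : SimpleGraph V} (h : X ≤ G) (hG : NoC G) : NoC X := by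
  intro v c hc
  have := hG v (c.mapLe h) (hc.mapLe h)
  rwa [SimpleGraph.Walk.mapLe, SimpleGraph.Walk.length_map] at this

theorem nodup_of_c3 {V ι : Type} [DecidableEq V] {I : Finset ι} {b : ι → List V} (h : C3 I b)
    {i : ι} (hi : i ∈ I) : (b i).Nodup := by
  have h1 := h.pot {i} (Finset.singleton_subset_iff.2 hi) (Finset.singleton_nonempty i)
  unfold wt cov at h1
  rw [Finset.sum_singleton, Finset.singleton_biUnion] at h1
  have h2 := h.len i hi
  have h3 : (b i).toFinset.card = (b i).dedup.length := List.card_toFinset _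
  have h4 : (b i).dedup.length ≤ (b i).length := (List.dedup_sublist _).length_le
  have h5 : (b i).dedup.length = (b i).length := by
    rcases h2 with h2 | h2 <;> rw [h2] at h1 h4 ⊢ <;> omega
  have h6 : (b i).dedup = b i := (List.dedup_sublist _).eq_of_length h5
  rw [← h6]
  exact List.nodup_dedup _

end FIN_

open FIN_ in
theorem fin_proof (hBLK : Stmt_BLK) (hCOR : Stmt_COR) (hEUC : Stmt_EUC)
    (hTHA : Stmt_THA) (hCHO : Stmt_CHO)
    (hFS : ∀ (V : Type) [Fintype V] [DecidableEq V] (X : SimpleGraph V), Dr X → FaceSys X) :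
    Stmt_FIN := by
  intro V _ G hD hN L hL
  classical
  have hI : ∀ X : SimpleGraph V, X ≤ G → X ≠ ⊥ → Ineq X := by
    refine hCOR V (fun X => X ≤ G) (fun X Y hYX hX => hYX.trans hX)
      (fun X hX => noc_mono hX hN) ?_
    intro X hX hne
    exact hEUC V X (noc_mono hX hN) (hFS V X (dr_mono hX hD)) hne
  obtain ⟨I, b, hC, hadj⟩ := hBLK V G hN hI
  obtain ⟨f, hf1, hf2⟩ := hCHO V (Finset V) I b (fun i hi => nodup_of_c3 hC hi)
    (hTHA V (Finset V) I b hC) L hL
  refine ⟨f, hf1, fun u v huv => ?_⟩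
  obtain ⟨i, hi, hu, hv⟩ := hadj u v huv
  exact hf2 i hi u hu v hv huv.ne

end Pool.Agent.TCH
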