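import Pool.Agent.TCH.Api

/-!
# MP_dbd377_co : module GE1 (the parity of an even edge set is locally constant)
-/

set_option autoImplicit false

namespace Pool.Agent.TCH

namespace GE1_

variable {V : Type} {X : SimpleGraph V}

theorem endc_append (S T : List (ℂ × ℂ)) (z : ℂ) : endc (S ++ T) z = endc S z + endc T z := by
  simp [endc]

open Classical in
theorem endc_cons (s : ℂ × ℂ) (S : List (ℂ × ℂ)) (z : ℂ) :
    endc (s :: S) z = ((if s.1 = z then 1 else 0) + (if s.2 = z then 1 else 0)) + endc S z := by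
  simp [endc]

theorem endc_flat (D : PD X) (l : List (Sym2 V)) (z : ℂ) :
    endc (l.flatMap D.K) z = (l.map (fun e => endc (D.K e) z)).sum := by
  induction l with
  | nil => simp [endc]
  | cons e l ih => simp [List.flatMap_cons, endc_append, ih]

theorem par_flat (D : PD X) (l : List (Sym2 V)) (z : ℂ) :
    par (l.flatMap D.K) z = (l.map (fun e => par (D.K e) z)).sum := by
  induction l with
  | nil => simp [par]
  | cons e l ih => simp [List.flatMap_cons, par_append, ih]

theorem mem_supp_flat (D : PD X) (l : List (Sym2 V)) (z : ℂ) :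
    z ∈ supp (l.flatMap D.K) ↔ ∃ e ∈ l, z ∈ supp (D.K e) := by
  induction l with
  | nil => simp [supp]
  | cons e l ih => simp [List.flatMap_cons, supp_append, ih]

theorem out_mk (e : Sym2 V) : s((Quot.out e).1, (Quot.out e).2) = e := Quot.out_eq e

theorem p_inj (D : PD X) {v w : V} (h : D.p v = D.p w) : v = w := by
  by_contra hne
  have h1 := D.sep v w hne
  rw [h, dist_self] at h1
  have h2 := D.r_pos
  linarith

/-- mod 2 number of ends of the segments of an edge -/
theorem endc_K [DecidableEq V] (D : PD X) {e : Sym2 V} (he : e ∈ X.edgeSet) (w : V) :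
    ((endc (D.K e) (D.p w) : ℕ) : ZMod 2) = if w ∈ e then 1 else 0 := by
  classical
  have h1 := D.M_ends e he (D.p w)
  rw [endc_cons, ← ZMod.natCast_eq_zero_iff_even] at h1
  unfold PD.K
  rw [endc_cons, endc_cons]
  have hadj : X.Adj (Quot.out e).1 (Quot.out e).2 := by
    rw [← SimpleGraph.mem_edgeSet, out_mk]; exact he
  have hmem : w ∈ e ↔ w = (Quot.out e).1 ∨ w = (Quot.out e).2 := by
    conv_lhs => rw [← out_mk e]
    exact Sym2.mem_iff
  have hu : D.p (Quot.out e).1 = D.p w ↔ w = (Quot.out e).1 :=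
    ⟨fun h => (p_inj D h).symm, fun h => by rw [h]⟩
  have hv : D.p (Quot.out e).2 = D.p w ↔ w = (Quot.out e).2 :=
    ⟨fun h => (p_inj D h).symm, fun h => by rw [h]⟩
  have hne : (Quot.out e).1 ≠ (Quot.out e).2 := hadj.ne
  simp only [hu, hv, hmem]
  push_cast at h1 ⊢
  by_cases c1 : w = (Quot.out e).1
  · have c2 : w ≠ (Quot.out e).2 := by rw [c1]; exact hne
    simp only [if_pos c1, if_neg c2, if_pos (Or.inl c1 : w = (Quot.out e).1 ∨ w = (Quot.out e).2)]
    linear_combination h1
  · by_cases c2 : w = (Quot.out e).2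
    · simp only [if_neg c1, if_pos c2, if_pos (Or.inr c2 : w = (Quot.out e).1 ∨ w = (Quot.out e).2)]
      linear_combination h1
    · have c3 : ¬ (w = (Quot.out e).1 ∨ w = (Quot.out e).2) := by
        rintro (h | h)
        · exact c1 h
        · exact c2 h
      simp only [if_neg c1, if_neg c2, if_neg c3]
      linear_combination h1

theorem endc_K' (D : PD X) {e : Sym2 V} (he : e ∈ X.edgeSet) (z : ℂ)
    (hz : ∀ w, D.p w ≠ z) : ((endc (D.K e) z : ℕ) : ZMod 2) = 0 := by
  classical
  have h1 := D.M_ends e he z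
  rw [endc_cons, ← ZMod.natCast_eq_zero_iff_even] at h1
  unfold PD.K
  rw [endc_cons, endc_cons]
  push_cast at h1 ⊢
  simp only [if_neg (hz _)]
  linear_combination h1

theorem closed [DecidableEq V] (D : PD X) (C : Finset (Sym2 V)) (hC : EvenS X C) :
    ClosedS (C.toList.flatMap D.K) := by
  intro z
  rw [endc_flat, Finset.sum_map_toList, ← ZMod.natCast_eq_zero_iff_even, Nat.cast_sum]
  by_cases hz : ∃ w, D.p w = z
  · obtain ⟨w, rfl⟩ := hz
    rw [Finset.sum_congr rfl (fun e he => endc_K D (hC.1 e he) w)]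
    have h2 := hC.2 w
    rw [← ZMod.natCast_eq_zero_iff_even] at h2
    have h3 : ∑ e ∈ C, (if w ∈ e then (1 : ZMod 2) else 0) =
        (((C.filter (fun e => w ∈ e)).card : ℕ) : ZMod 2) := by
      rw [Finset.sum_ite, Finset.sum_const_zero, add_zero, Finset.sum_const, nsmul_eq_mul,
        mul_one]
    rw [h3, h2]
  · push Not at hz
    exact Finset.sum_eq_zero (fun e he => endc_K' D (hC.1 e he) z hz)

end GE1_

theorem ge1_proof (hPR1 : Stmt_PR1) : Stmt_GE1 := by
  intro V _ _ X D C hC z hz
  have hW : ∀ z, par (C.toList.flatMap D.K) z = D.W C z := by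
    intro z
    rw [GE1_.par_flat, Finset.sum_map_toList]
    rfl
  have hs : z ∉ supp (C.toList.flatMap D.K) := by
    intro h
    rw [GE1_.mem_supp_flat] at h
    obtain ⟨e, he, h⟩ := h
    apply hz
    exact ⟨e, by simpa using he, h⟩
  obtain ⟨ε, hε, h⟩ := hPR1 _ (GE1_.closed D C hC) z hs
  refine ⟨ε, hε, fun z' hz' => ?_⟩
  rw [← hW, ← hW]
  exact h z' hz'

end Pool.Agent.TCH
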