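import Pool.Agent.TCH.Api

/-!
# MP_dbd377_co : squad TCH, module GE2
-/

set_option autoImplicit false

namespace Pool.Agent.TCH

namespace GE2_

variable {V : Type} {X : SimpleGraph V}

/-- half-open radial segment -/
def rad (D : PD X) (u : V) (e : Sym2 V) : Set ℂ :=
  (fun t : ℝ => D.p u + t • (D.a u e - D.p u)) '' Set.Ioc 0 1

theorem rad_preconnected (D : PD X) (u : V) (e : Sym2 V) : IsPreconnected (rad D u e) := by
  apply IsPreconnected.image isPreconnected_Ioc
  fun_prop

theorem mem_segment_iff {a b z : ℂ} :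
    z ∈ segment ℝ a b ↔ ∃ t : ℝ, t ∈ Set.Icc (0 : ℝ) 1 ∧ a + t • (b - a) = z := by
  rw [segment_eq_image']
  rfl

theorem rad_subset (D : PD X) (u : V) (e : Sym2 V) : rad D u e ⊆ segment ℝ (D.p u) (D.a u e) := by
  rintro z ⟨t, ht, rfl⟩
  exact mem_segment_iff.mpr ⟨t, ⟨ht.1.le, ht.2⟩, rfl⟩

theorem a_mem_rad (D : PD X) (u : V) (e : Sym2 V) : D.a u e ∈ rad D u e := by
  refine ⟨1, ⟨zero_lt_one, le_rfl⟩, ?_⟩
  simp

theorem m_mem_rad (D : PD X) (u : V) (e : Sym2 V) : D.m u e ∈ rad D u e :=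
  ⟨1 / 4, ⟨by norm_num, by norm_num⟩, rfl⟩

theorem norm_a (D : PD X) {u : V} {e : Sym2 V} (he : e ∈ X.edgeSet) (hu : u ∈ e) :
    ‖D.a u e - D.p u‖ = D.r := by
  rw [← dist_eq_norm]
  exact D.a_dist e he u hu

theorem dist_of_mem_segment (D : PD X) {u : V} {e : Sym2 V} (he : e ∈ X.edgeSet) (hu : u ∈ e)
    {z : ℂ} (hz : z ∈ segment ℝ (D.p u) (D.a u e)) : dist z (D.p u) ≤ D.r := by
  obtain ⟨t, ht, rfl⟩ := mem_segment_iff.mp hz
  rw [dist_eq_norm, add_sub_cancel_left, norm_smul, norm_a D he hu, Real.norm_eq_abs,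
    abs_of_nonneg ht.1]
  have := D.r_pos
  nlinarith [ht.2]

/-- a point of a half-open radial segment is on no radial segment of another edge -/
theorem rad_disjoint (D : PD X) {u w : V} {e e' : Sym2 V} (he : e ∈ X.edgeSet)
    (he' : e' ∈ X.edgeSet) (hee : e ≠ e') (hu : u ∈ e) (hw : w ∈ e') {z : ℂ}
    (hz : z ∈ rad D u e) : z ∉ segment ℝ (D.p w) (D.a w e') := by
  intro hz'
  by_cases huw : w = u
  · subst huw
    obtain ⟨t, ht, hzt⟩ := hz
    obtain ⟨s, hs, hzs⟩ := mem_segment_iff.mp hz'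
    have h1 : t • (D.a w e - D.p w) = s • (D.a w e' - D.p w) := by
      have h2 : D.p w + t • (D.a w e - D.p w) = D.p w + s • (D.a w e' - D.p w) := by
        rw [hzs]; exact hzt
      exact add_left_cancel h2
    have h3 := congrArg norm h1
    rw [norm_smul, norm_smul, norm_a D he hu, norm_a D he' hw, Real.norm_eq_abs,
      Real.norm_eq_abs, abs_of_pos ht.1, abs_of_nonneg hs.1] at h3
    have h4 : t = s := mul_right_cancel₀ D.r_pos.ne' h3
    rw [← h4] at h1
    have h5 : D.a w e - D.p w = D.a w e' - D.p w := smul_right_injective ℂ ht.1.ne' h1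
    exact D.a_inj e he e' he' w hu hw hee (sub_left_injective h5)
  · have h1 := dist_of_mem_segment D he hu (rad_subset D u e hz)
    have h2 := dist_of_mem_segment D he' hw hz'
    have h3 := D.sep u w (Ne.symm huw)
    have h4 := dist_triangle_left (D.p u) (D.p w) z
    linarith

theorem out_mem (e : Sym2 V) : (Quot.out e).1 ∈ e ∧ (Quot.out e).2 ∈ e := by
  have h : s((Quot.out e).1, (Quot.out e).2) = e := Quot.out_eq e
  have key : ∀ f : Sym2 V, f = e → ∀ x : V, x ∈ f → x ∈ e := fun f hf x hx => hf ▸ hx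
  exact ⟨key _ h _ (Sym2.mem_mk_left _ _), key _ h _ (Sym2.mem_mk_right _ _)⟩

/-- a point is in the support of `K e'` iff it is on a radial segment or on the middle part -/
theorem mem_K (D : PD X) (e' : Sym2 V) {z : ℂ} (h : z ∈ supp (D.K e')) :
    (∃ w ∈ e', z ∈ segment ℝ (D.p w) (D.a w e')) ∨ z ∈ supp (D.M e') := by
  unfold PD.K at h
  rw [supp_cons, supp_cons] at h
  rcases h with h | h | h
  · exact Or.inl ⟨_, (out_mem e').1, h⟩
  · exact Or.inl ⟨_, (out_mem e').2, h⟩
  · exact Or.inr h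

/-- the edge without its ends -/
def body (D : PD X) (u v : V) (e : Sym2 V) : Set ℂ := rad D u e ∪ (supp (D.M e) ∪ rad D v e)

theorem body_preconnected (D : PD X) {u v : V} {e : Sym2 V} (he : e ∈ X.edgeSet) (hu : u ∈ e)
    (hv : v ∈ e) : IsPreconnected (body D u v e) := by
  unfold body
  refine IsPreconnected.union (D.a u e) (a_mem_rad D u e) (Or.inl (D.M_mem e he u hu))
    (rad_preconnected D u e) ?_
  exact IsPreconnected.union (D.a v e) (D.M_mem e he v hv) (a_mem_rad D v e) (D.M_conn e he)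
    (rad_preconnected D v e)

theorem body_disjoint (D : PD X) {u v : V} {e e' : Sym2 V} (he : e ∈ X.edgeSet)
    (he' : e' ∈ X.edgeSet) (hee : e ≠ e') (hu : u ∈ e) (hv : v ∈ e) {z : ℂ}
    (hz : z ∈ body D u v e) : z ∉ supp (D.K e') := by
  intro hK
  have hrad : ∀ x ∈ e, z ∈ rad D x e → False := by
    intro x hx hzx
    rcases mem_K D e' hK with ⟨w, hw, h⟩ | h
    · exact rad_disjoint D he he' hee hx hw hzx h
    · exact Set.disjoint_left.mp (D.M_rad e' he' e he (Ne.symm hee) x hx) h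
        (rad_subset D x e hzx)
  rcases hz with hz | hz | hz
  · exact hrad u hu hz
  · rcases mem_K D e' hK with ⟨w, hw, h⟩ | h
    · exact Set.disjoint_left.mp (D.M_rad e he e' he' hee w hw) hz h
    · exact Set.disjoint_left.mp (D.M_disj e he e' he' hee) hz h
  · exact hrad v hv hz

end GE2_

open GE2_

theorem ge2_proof (hGE1 : Stmt_GE1) : Stmt_GE2 := by
  intro V _ _ X D C hC e he heC u hu v hv
  have hout : ∀ z ∈ body D u v e, z ∉ D.sup (C : Set (Sym2 V)) := by
    rintro z hz ⟨e', he', hz'⟩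
    have he'C : e' ∈ C := by exact_mod_cast he'
    have hne : e ≠ e' := fun h => heC (h ▸ he'C)
    exact body_disjoint D he (hC.1 e' he'C) hne hu hv hz hz'
  let _ : TopologicalSpace (ZMod 2) := ⊥
  have _ : DiscreteTopology (ZMod 2) := ⟨rfl⟩
  have hcont : ContinuousOn (fun z => D.W C z) (body D u v e) := by
    intro z hz
    obtain ⟨ε, hε, h⟩ := hGE1 V X D C hC z (hout z hz)
    have h1 : (fun z => D.W C z) =ᶠ[nhds z] fun _ => D.W C z := by
      rw [Filter.EventuallyEq, Metric.eventually_nhds_iff]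
      exact ⟨ε, hε, fun z' hz' => h z' hz'⟩
    exact (continuousAt_const.congr h1.symm).continuousWithinAt
  exact (body_preconnected D he hu hv).constant hcont (Or.inl (m_mem_rad D u e))
    (Or.inr (Or.inr (m_mem_rad D v e)))

end Pool.Agent.TCH
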