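import Pool.Agent.TCH.Api

/-!
# MP_dbd377_co : module GE3 of the squad TCH (parities near a point of a radial segment)
-/

set_option autoImplicit false

namespace Pool.Agent.TCH

namespace GE3_

/-! ### chains -/

theorem endc_append (S T : List (ℂ × ℂ)) (z : ℂ) : endc (S ++ T) z = endc S z + endc T z := by
  simp [endc]

open Classical in
theorem endc_cons (s : ℂ × ℂ) (S : List (ℂ × ℂ)) (z : ℂ) :
    endc (s :: S) z = ((if s.1 = z then 1 else 0) + (if s.2 = z then 1 else 0)) + endc S z := rfl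

theorem endc_perm {S T : List (ℂ × ℂ)} (h : S.Perm T) (z : ℂ) : endc S z = endc T z := by
  unfold endc
  exact (h.map _).sum_eq

theorem par_perm {S T : List (ℂ × ℂ)} (h : S.Perm T) (z : ℂ) : par S z = par T z := by
  unfold par
  exact (h.map _).sum_eq

theorem endc_flatMap {β : Type} (L : List β) (F : β → List (ℂ × ℂ)) (z : ℂ) :
    endc (L.flatMap F) z = (L.map (fun e => endc (F e) z)).sum := by
  induction L with
  | nil => rfl
  | cons e L ih => rw [List.flatMap_cons, endc_append, ih, List.map_cons, List.sum_cons]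

theorem par_flatMap {β : Type} (L : List β) (F : β → List (ℂ × ℂ)) (z : ℂ) :
    par (L.flatMap F) z = (L.map (fun e => par (F e) z)).sum := by
  induction L with
  | nil => rfl
  | cons e L ih => rw [List.flatMap_cons, par_append, ih, List.map_cons, List.sum_cons]

theorem isClosed_segment (a b : ℂ) : IsClosed (segment ℝ a b) := by
  rw [← convexHull_pair]
  exact (Set.Finite.isCompact_convexHull ℝ (Set.toFinite {a, b})).isClosed

theorem isClosed_supp (S : List (ℂ × ℂ)) : IsClosed (supp S) := by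
  induction S with
  | nil => rw [supp_nil]; exact isClosed_empty
  | cons s S ih => rw [supp_cons]; exact (isClosed_segment _ _).union ih

theorem mem_supp_flatMap {β : Type} (L : List β) (F : β → List (ℂ × ℂ)) (z : ℂ) :
    z ∈ supp (L.flatMap F) ↔ ∃ e ∈ L, z ∈ supp (F e) := by
  constructor
  · rintro ⟨s, hs, hz⟩
    rw [List.mem_flatMap] at hs
    obtain ⟨e, he, hs⟩ := hs
    exact ⟨e, he, s, hs, hz⟩
  · rintro ⟨e, he, s, hs, hz⟩
    exact ⟨s, List.mem_flatMap.2 ⟨e, he, hs⟩, hz⟩

theorem supp_perm {S T : List (ℂ × ℂ)} (h : S.Perm T) (z : ℂ) : z ∈ supp S ↔ z ∈ supp T := by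
  constructor
  · rintro ⟨s, hs, hz⟩
    exact ⟨s, h.mem_iff.1 hs, hz⟩
  · rintro ⟨s, hs, hz⟩
    exact ⟨s, h.mem_iff.2 hs, hz⟩

/-- the side vanishes on the segment -/
theorem side_segment (s : ℂ × ℂ) (z : ℂ) (hz : z ∈ segment ℝ s.1 s.2) : side s z = 0 := by
  rw [segment_eq_image'] at hz
  obtain ⟨t, _, rfl⟩ := hz
  unfold side
  simp only [add_sub_cancel_left, Complex.real_smul, Complex.mul_re, Complex.mul_im,
    Complex.ofReal_re, Complex.ofReal_im, zero_mul, sub_zero, add_zero]
  ring

/-! ### the drawing -/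

variable {V : Type} {X : SimpleGraph V}

/-- concatenation of the chains of the edges in `C` -/
noncomputable def SL (D : PD X) (C : Finset (Sym2 V)) : List (ℂ × ℂ) := C.toList.flatMap D.K

theorem endc_SL (D : PD X) (C : Finset (Sym2 V)) (z : ℂ) :
    endc (SL D C) z = ∑ e ∈ C, endc (D.K e) z := by
  rw [SL, endc_flatMap, Finset.sum_map_toList]

theorem par_SL (D : PD X) (C : Finset (Sym2 V)) (z : ℂ) :
    par (SL D C) z = ∑ e ∈ C, par (D.K e) z := by
  rw [SL, par_flatMap, Finset.sum_map_toList]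

theorem mem_supp_SL (D : PD X) (C : Finset (Sym2 V)) (z : ℂ) :
    z ∈ supp (SL D C) ↔ ∃ e ∈ C, z ∈ supp (D.K e) := by
  rw [SL, mem_supp_flatMap]
  simp

theorem out_ne (e : Sym2 V) (he : e ∈ X.edgeSet) : (Quot.out e).1 ≠ (Quot.out e).2 := by
  intro h
  have h1 : s((Quot.out e).1, (Quot.out e).2) = e := Quot.out_eq e
  rw [← h1, SimpleGraph.mem_edgeSet, h] at he
  exact X.loopless.irrefl _ he

theorem mem_out (e : Sym2 V) (u : V) (hu : u ∈ e) : u = (Quot.out e).1 ∨ u = (Quot.out e).2 := by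
  have h1 : s((Quot.out e).1, (Quot.out e).2) = e := Quot.out_eq e
  rw [← h1, Sym2.mem_iff] at hu
  exact hu

theorem p_inj (D : PD X) {v w : V} (h : D.p v = D.p w) : v = w := by
  by_contra hne
  have h1 := D.sep v w hne
  rw [h, dist_self] at h1
  linarith [D.r_pos]

/-- the chain of an edge, with the radial segment at `u` first -/
theorem K_perm (D : PD X) (e : Sym2 V) (he : e ∈ X.edgeSet) (u : V) (hu : u ∈ e) :
    ∃ v, v ∈ e ∧ v ≠ u ∧ (D.K e).Perm ((D.p u, D.a u e) :: (D.p v, D.a v e) :: D.M e) := by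
  have hne := out_ne e he
  rcases mem_out e u hu with h | h
  · refine ⟨(Quot.out e).2, Sym2.out_snd_mem e, ?_, ?_⟩
    · rw [h]; exact hne.symm
    · rw [h]; exact List.Perm.refl _
  · refine ⟨(Quot.out e).1, Sym2.out_fst_mem e, ?_, ?_⟩
    · rw [h]; exact hne
    · rw [h]; exact List.Perm.swap _ _ _

open Classical in
/-- parity of the ends in the chain of one edge -/
theorem endc_K (D : PD X) (e : Sym2 V) (he : e ∈ X.edgeSet) (z : ℂ) :
    ∃ k : ℕ, endc (D.K e) z + 2 * k =
      (if D.p (Quot.out e).1 = z then 1 else 0) + (if D.p (Quot.out e).2 = z then 1 else 0) + 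
        2 * endc (D.K e) z := by
  obtain ⟨k, hk⟩ := D.M_ends e he z
  rw [endc_cons] at hk
  have h1 : endc (D.K e) z = (if D.p (Quot.out e).1 = z then 1 else 0) +
      (if D.p (Quot.out e).2 = z then 1 else 0) + (k + k) := by
    rw [← hk]
    unfold PD.K
    rw [endc_cons, endc_cons]
    simp only
    ring
  refine ⟨(if D.p (Quot.out e).1 = z then 1 else 0) +
      (if D.p (Quot.out e).2 = z then 1 else 0) + k, ?_⟩
  rw [h1]
  ring

theorem closed_SL [DecidableEq V] (D : PD X) (C : Finset (Sym2 V)) (hC : EvenS X C) :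
    ClosedS (SL D C) := by
  classical
  intro z
  rw [endc_SL]
  have h1 : ∀ e ∈ C, (endc (D.K e) z : ZMod 2) =
      (if D.p (Quot.out e).1 = z then 1 else 0) + (if D.p (Quot.out e).2 = z then 1 else 0) := by
    intro e he
    obtain ⟨k, hk⟩ := endc_K D e (hC.1 e he) z
    have h2 : (2 : ZMod 2) = 0 := rfl
    have h3 := congrArg (fun n : ℕ => (n : ZMod 2)) hk
    push_cast at h3
    rw [h2, zero_mul, zero_mul, add_zero, add_zero] at h3
    exact h3
  rw [← ZMod.natCast_eq_zero_iff_even, Nat.cast_sum, Finset.sum_congr rfl h1]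
  by_cases hz : ∃ w, D.p w = z
  · obtain ⟨w, rfl⟩ := hz
    have h4 : ∀ e ∈ C, ((if D.p (Quot.out e).1 = D.p w then 1 else 0) +
        (if D.p (Quot.out e).2 = D.p w then 1 else 0) : ZMod 2) = if w ∈ e then 1 else 0 := by
      intro e he
      have hne := out_ne e (hC.1 e he)
      by_cases hw : w ∈ e
      · rw [if_pos hw]
        rcases mem_out e w hw with h | h
        · rw [if_pos (by rw [h]), if_neg (fun h' => ?_), add_zero]
          exact hne ((p_inj D h').trans h).symm
        · rw [if_neg (fun h' => ?_), if_pos (by rw [h]), zero_add]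
          exact hne ((p_inj D h').trans h)
      · rw [if_neg hw, if_neg (fun h' => ?_), if_neg (fun h' => ?_), add_zero]
        · apply hw
          rw [← p_inj D h']
          exact Sym2.out_snd_mem e
        · apply hw
          rw [← p_inj D h']
          exact Sym2.out_fst_mem e
    rw [Finset.sum_congr rfl h4, Finset.sum_boole, ZMod.natCast_eq_zero_iff_even]
    exact hC.2 w
  · have hz' : ∀ w, D.p w ≠ z := fun w h => hz ⟨w, h⟩
    apply Finset.sum_eq_zero
    intro e _
    rw [if_neg (hz' _), if_neg (hz' _), add_zero]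

/-! ### distances -/

theorem dist_m (D : PD X) (e : Sym2 V) (he : e ∈ X.edgeSet) (u : V) (hu : u ∈ e) :
    dist (D.m u e) (D.p u) = D.r / 4 := by
  unfold PD.m
  rw [dist_eq_norm, add_sub_cancel_left, norm_smul, ← dist_eq_norm, D.a_dist e he u hu]
  norm_num
  ring

/-- points of the radial segment at `w` are at distance at most `r` from `p w` -/
theorem dist_radial (D : PD X) (e : Sym2 V) (he : e ∈ X.edgeSet) (w : V) (hw : w ∈ e) (z : ℂ)
    (hz : z ∈ segment ℝ (D.p w) (D.a w e)) :
    ∃ t : ℝ, 0 ≤ t ∧ t ≤ 1 ∧ z = D.p w + t • (D.a w e - D.p w) ∧ dist z (D.p w) = t * D.r := by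
  rw [segment_eq_image'] at hz
  obtain ⟨t, ht, rfl⟩ := hz
  refine ⟨t, ht.1, ht.2, rfl, ?_⟩
  simp only
  rw [dist_eq_norm, add_sub_cancel_left, norm_smul, ← dist_eq_norm, D.a_dist e he w hw,
    Real.norm_of_nonneg ht.1]

/-- `m u e` is not on the radial segment of an end `w ≠ u` -/
theorem m_not_radial_ne (D : PD X) (e : Sym2 V) (he : e ∈ X.edgeSet) (u : V) (hu : u ∈ e)
    (e' : Sym2 V) (he' : e' ∈ X.edgeSet) (w : V) (hw : w ∈ e') (hne : w ≠ u) :
    D.m u e ∉ segment ℝ (D.p w) (D.a w e') := by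
  intro h
  obtain ⟨t, ht0, ht1, _, hd⟩ := dist_radial D e' he' w hw _ h
  have h1 := dist_m D e he u hu
  have h2 := D.sep w u hne
  have h3 := dist_triangle (D.p w) (D.m u e) (D.p u)
  rw [dist_comm (D.p w) (D.m u e), hd, h1] at h3
  have hr := D.r_pos
  nlinarith

/-- `m u e` is not on the middle part of any edge -/
theorem m_not_M (D : PD X) (e : Sym2 V) (he : e ∈ X.edgeSet) (u : V) (hu : u ∈ e)
    (e' : Sym2 V) (he' : e' ∈ X.edgeSet) : D.m u e ∉ supp (D.M e') := by
  intro h
  have h1 := D.M_ball e' he' u _ h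
  rw [dist_m D e he u hu] at h1
  linarith [D.r_pos]

/-- `m u e` is not on the radial segment at `u` of another edge -/
theorem m_not_radial_eq (D : PD X) (e : Sym2 V) (he : e ∈ X.edgeSet) (u : V) (hu : u ∈ e)
    (e' : Sym2 V) (he' : e' ∈ X.edgeSet) (hu' : u ∈ e') (hne : e ≠ e') :
    D.m u e ∉ segment ℝ (D.p u) (D.a u e') := by
  intro h
  obtain ⟨t, ht0, ht1, hm, hd⟩ := dist_radial D e' he' u hu' _ h
  have hr := D.r_pos
  rw [dist_m D e he u hu] at hd
  have ht : t = 1 / 4 := by
    have : (t - 1 / 4) * D.r = 0 := by linarith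
    rcases mul_eq_zero.1 this with h | h
    · linarith
    · exact absurd h hr.ne'
  rw [ht] at hm
  unfold PD.m at hm
  have h1 := add_left_cancel hm
  have h2 : D.a u e - D.p u = D.a u e' - D.p u := by
    have h3 : (1 / 4 : ℝ) ≠ 0 := by norm_num
    exact smul_right_injective ℂ h3 h1
  exact D.a_inj e he e' he' u hu hu' hne (sub_left_injective h2)

/-- `m u e` is not covered by another edge -/
theorem m_not_K (D : PD X) (e : Sym2 V) (he : e ∈ X.edgeSet) (u : V) (hu : u ∈ e)
    (e' : Sym2 V) (he' : e' ∈ X.edgeSet) (hne : e ≠ e') : D.m u e ∉ supp (D.K e') := by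
  unfold PD.K
  rw [supp_cons, supp_cons]
  rintro (h | h | h)
  · have hm := Sym2.out_fst_mem e'
    by_cases hw : (Quot.out e').1 = u
    · simp only at h
      rw [hw] at h hm
      exact m_not_radial_eq D e he u hu e' he' hm hne h
    · exact m_not_radial_ne D e he u hu e' he' _ hm hw h
  · have hm := Sym2.out_snd_mem e'
    by_cases hw : (Quot.out e').2 = u
    · simp only at h
      rw [hw] at h hm
      exact m_not_radial_eq D e he u hu e' he' hm hne h
    · exact m_not_radial_ne D e he u hu e' he' _ hm hw h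
  · exact m_not_M D e he u hu e' he' h

/-- the rest of the chain of `e` does not cover `m u e` -/
theorem m_not_rest (D : PD X) (e : Sym2 V) (he : e ∈ X.edgeSet) (u : V) (hu : u ∈ e)
    (v : V) (hv : v ∈ e) (hne : v ≠ u) : D.m u e ∉ supp ((D.p v, D.a v e) :: D.M e) := by
  rw [supp_cons]
  rintro (h | h)
  · exact m_not_radial_ne D e he u hu e he _ hv hne h
  · exact m_not_M D e he u hu e he h

/-- all other segments of the edges in `C` -/
noncomputable def RL [DecidableEq V] (D : PD X) (C : Finset (Sym2 V)) (e : Sym2 V) (v : V) :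
    List (ℂ × ℂ) := ((D.p v, D.a v e) :: D.M e) ++ SL D (C.erase e)

theorem m_not_RL [DecidableEq V] (D : PD X) (e : Sym2 V) (he : e ∈ X.edgeSet) (u : V) (hu : u ∈ e)
    (v : V) (hv : v ∈ e) (hne : v ≠ u) (C : Finset (Sym2 V)) (hC : ∀ e ∈ C, e ∈ X.edgeSet) :
    D.m u e ∉ supp (RL D C e v) := by
  unfold RL
  rw [supp_append]
  rintro (h | h)
  · exact m_not_rest D e he u hu v hv hne h
  · rw [mem_supp_SL] at h
    obtain ⟨e', he', h⟩ := h
    rw [Finset.mem_erase] at he'
    exact m_not_K D e he u hu e' (hC e' he'.2) he'.1.symm h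

theorem endc_RL [DecidableEq V] (D : PD X) (e : Sym2 V) (u v : V)
    (hp : (D.K e).Perm ((D.p u, D.a u e) :: (D.p v, D.a v e) :: D.M e))
    (C : Finset (Sym2 V)) (heC : e ∈ C) (z : ℂ) :
    endc ((D.p u, D.a u e) :: RL D C e v) z = endc (SL D C) z := by
  have h1 : (D.p u, D.a u e) :: RL D C e v =
      ((D.p u, D.a u e) :: (D.p v, D.a v e) :: D.M e) ++ SL D (C.erase e) := rfl
  rw [h1, endc_append, ← endc_perm hp, endc_SL, endc_SL, ← Finset.add_sum_erase C _ heC]

theorem par_RL [DecidableEq V] (D : PD X) (e : Sym2 V) (u v : V)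
    (hp : (D.K e).Perm ((D.p u, D.a u e) :: (D.p v, D.a v e) :: D.M e))
    (C : Finset (Sym2 V)) (heC : e ∈ C) (z : ℂ) :
    par ((D.p u, D.a u e) :: RL D C e v) z = D.W C z := by
  have h1 : (D.p u, D.a u e) :: RL D C e v =
      ((D.p u, D.a u e) :: (D.p v, D.a v e) :: D.M e) ++ SL D (C.erase e) := rfl
  rw [h1, par_append, ← par_perm hp, par_SL, PD.W, ← Finset.add_sum_erase C _ heC]

/-- every point of an edge in `C` is on the segment or in the support of the other segments -/
theorem sup_sub [DecidableEq V] (D : PD X) (e : Sym2 V) (u v : V)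
    (hp : (D.K e).Perm ((D.p u, D.a u e) :: (D.p v, D.a v e) :: D.M e))
    (C : Finset (Sym2 V)) (z : ℂ) (e' : Sym2 V) (he' : e' ∈ C) (hz : z ∈ supp (D.K e')) :
    z ∈ segment ℝ (D.p u) (D.a u e) ∨ z ∈ supp (RL D C e v) := by
  by_cases h : e' = e
  · subst h
    rw [supp_perm hp, supp_cons] at hz
    rcases hz with hz | hz
    · exact Or.inl hz
    · right
      unfold RL
      rw [supp_append]
      exact Or.inl hz
  · right
    unfold RL
    rw [supp_append]
    right
    rw [mem_supp_SL]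
    exact ⟨e', Finset.mem_erase.2 ⟨h, he'⟩, hz⟩

/-- uniform choice of `ε` in a finite family -/
theorem unif {ι : Type} [Finite ι] (P : ι → ℝ → Prop)
    (hmono : ∀ i a b, 0 < a → a ≤ b → P i b → P i a) (h : ∀ i, ∃ ε > 0, P i ε) :
    ∃ ε > 0, ∀ i, P i ε := by
  have := Fintype.ofFinite ι
  choose f hf hP using h
  by_cases hne : Nonempty ι
  · refine ⟨Finset.univ.inf' Finset.univ_nonempty f, ?_, fun i => ?_⟩
    · rw [gt_iff_lt, Finset.lt_inf'_iff]
      intro i _
      exact hf i
    · refine hmono i _ _ ?_ ?_ (hP i)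
      · rw [Finset.lt_inf'_iff]
        intro i _
        exact hf i
      · exact Finset.inf'_le _ (Finset.mem_univ i)
  · exact ⟨1, one_pos, fun i => absurd ⟨i⟩ hne⟩

theorem m_openSegment (D : PD X) (e : Sym2 V) (u : V) :
    D.m u e ∈ openSegment ℝ (D.p u) (D.a u e) := by
  rw [openSegment_eq_image']
  exact ⟨1 / 4, ⟨by norm_num, by norm_num⟩, rfl⟩

end GE3_

open GE3_ in
theorem ge3_proof (h2 : Stmt_PR2) (h1 : Stmt_GE1) : Stmt_GE3 := by
  intro V _ _ X D e he u hu
  classical
  obtain ⟨v, hv, hvu, hp⟩ := K_perm D e he u hu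
  have hau : D.p u ≠ D.a u e := by
    intro h
    have h3 := D.a_dist e he u hu
    rw [← h, dist_self] at h3
    linarith [D.r_pos]
  -- the support of all the other segments
  have hfin : X.edgeSet.Finite := Set.toFinite _
  obtain ⟨ε0, hε0, hE⟩ : ∃ ε0 > 0, ∀ z, dist z (D.m u e) < ε0 →
      z ∉ supp (RL D hfin.toFinset e v) := by
    have hopen : IsOpen (supp (RL D hfin.toFinset e v))ᶜ := (isClosed_supp _).isOpen_compl
    have hm : D.m u e ∈ (supp (RL D hfin.toFinset e v))ᶜ :=
      m_not_RL D e he u hu v hv hvu _ (fun e' he' => hfin.mem_toFinset.1 he')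
    rw [Metric.isOpen_iff] at hopen
    obtain ⟨ε, hε, hb⟩ := hopen _ hm
    exact ⟨ε, hε, fun z hz => hb hz⟩
  -- the parities
  obtain ⟨ε1, hε1, hC⟩ := unif
    (fun (C : Finset (Sym2 V)) (ε : ℝ) => ∀ z z', dist z (D.m u e) < ε →
      dist z' (D.m u e) < ε → side (D.p u, D.a u e) z ≠ 0 → side (D.p u, D.a u e) z' ≠ 0 →
      EvenS X C → (e ∉ C → D.W C z = D.W C (D.m u e)) ∧
        (e ∈ C → (D.W C z = D.W C z' ↔
          0 < side (D.p u, D.a u e) z * side (D.p u, D.a u e) z')))
    (fun C a b _ hab h z z' hz hz' => h z z' (hz.trans_le hab) (hz'.trans_le hab))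
    (fun C => by
      by_cases hev : EvenS X C
      · by_cases heC : e ∈ C
        · have hcl : ClosedS ((D.p u, D.a u e) :: RL D C e v) := by
            intro z
            rw [endc_RL D e u v hp C heC]
            exact closed_SL D C hev z
          obtain ⟨ε, hε, hh⟩ := h2 (D.p u, D.a u e) (RL D C e v) hcl hau (D.m u e)
            (m_openSegment D e u) (m_not_RL D e he u hu v hv hvu C hev.1)
          refine ⟨ε, hε, fun z z' hz hz' hs hs' _ => ⟨fun h => absurd heC h, fun _ => ?_⟩⟩
          have h3 := hh z z' hz hz' hs hs'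
          rw [par_RL D e u v hp C heC, par_RL D e u v hp C heC] at h3
          exact h3
        · obtain ⟨ε, hε, hh⟩ := h1 V X D C hev (D.m u e) (by
            rintro ⟨e', he', hz⟩
            have hne : e ≠ e' := by
              rintro rfl
              exact heC he'
            exact m_not_K D e he u hu e' (hev.1 e' he') hne hz)
          exact ⟨ε, hε, fun z z' hz _ _ _ _ => ⟨fun _ => hh z hz, fun h => absurd h heC⟩⟩
      · exact ⟨1, one_pos, fun _ _ _ _ _ _ h => absurd h hev⟩)
  refine ⟨min ε0 ε1, lt_min hε0 hε1, fun z z' hz hz' hs hs' => ⟨?_, fun C hev => ?_⟩⟩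
  · rintro ⟨e', he', hz''⟩
    rcases sup_sub D e u v hp hfin.toFinset z e' (hfin.mem_toFinset.2 he') hz'' with h | h
    · exact hs (side_segment (D.p u, D.a u e) z h)
    · exact hE z (hz.trans_le (min_le_left _ _)) h
  · exact hC C z z' (hz.trans_le (min_le_right _ _)) (hz'.trans_le (min_le_right _ _)) hs hs' hev

end Pool.Agent.TCH
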