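import Pool.Agent.TCH.Api

/-!
# MP_dbd377_co, squad TCH, module GE4: face boundaries are even edge sets
-/

set_option autoImplicit false

namespace Pool.Agent.TCH

namespace GE4_

variable {V : Type} {X : SimpleGraph V}

/-- the point of the circle of radius `r / 4` around the vertex `u` at the angle `t` -/
noncomputable def cz (D : PD X) (u : V) (t : ℝ) : ℂ :=
  D.p u + ((D.r / 4 : ℝ) : ℂ) * Complex.exp (t * Complex.I)

theorem cz_cont (D : PD X) (u : V) : Continuous (cz D u) := by
  unfold cz
  fun_prop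

theorem cz_periodic (D : PD X) (u : V) (x : ℝ) : cz D u (x + 2 * Real.pi) = cz D u x := by
  unfold cz
  have : Complex.exp (((x + 2 * Real.pi : ℝ) : ℂ) * Complex.I) = Complex.exp (x * Complex.I) := by
    push_cast
    rw [add_mul, Complex.exp_add, Complex.exp_two_pi_mul_I, mul_one]
  rw [this]

theorem cz_dist (D : PD X) (u : V) (t : ℝ) : dist (cz D u t) (D.p u) = D.r / 4 := by
  unfold cz
  have hr := D.r_pos
  rw [dist_eq_norm, add_sub_cancel_left, norm_mul, Complex.norm_exp_ofReal_mul_I, mul_one,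
    Complex.norm_real, Real.norm_eq_abs, abs_of_pos (by positivity)]

theorem exists_angle (w : ℂ) (r : ℝ) (hw : ‖w‖ = r) :
    ∃ t : ℝ, 0 ≤ t ∧ t < 2 * Real.pi ∧ w = r * Complex.exp (t * Complex.I) := by
  have h1 : (‖w‖ : ℂ) * Complex.exp (Complex.arg w * Complex.I) = w :=
    Complex.norm_mul_exp_arg_mul_I w
  have h2 := Complex.neg_pi_lt_arg w
  have h3 := Complex.arg_le_pi w
  have hpi := Real.pi_pos
  by_cases h : 0 ≤ Complex.arg w
  · refine ⟨Complex.arg w, h, by linarith, ?_⟩
    rw [← hw, h1]
  · refine ⟨Complex.arg w + 2 * Real.pi, by linarith, by linarith, ?_⟩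
    push_cast
    rw [add_mul, Complex.exp_add, Complex.exp_two_pi_mul_I, mul_one, ← hw, h1]

theorem side_cz (D : PD X) (u : V) (e : Sym2 V) (θ t : ℝ)
    (h : D.a u e - D.p u = D.r * Complex.exp (θ * Complex.I)) :
    side (D.p u, D.a u e) (cz D u t) = D.r ^ 2 / 4 * Real.sin (t - θ) := by
  unfold side
  have h1 : (D.a u e - D.p u).re = D.r * Real.cos θ := by
    rw [h, Complex.re_ofReal_mul, Complex.exp_ofReal_mul_I_re]
  have h2 : (D.a u e - D.p u).im = D.r * Real.sin θ := by
    rw [h, Complex.im_ofReal_mul, Complex.exp_ofReal_mul_I_im]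
  have h3 : (cz D u t - D.p u).re = D.r / 4 * Real.cos t := by
    unfold cz
    rw [add_sub_cancel_left, Complex.re_ofReal_mul, Complex.exp_ofReal_mul_I_re]
  have h4 : (cz D u t - D.p u).im = D.r / 4 * Real.sin t := by
    unfold cz
    rw [add_sub_cancel_left, Complex.im_ofReal_mul, Complex.exp_ofReal_mul_I_im]
  simp only
  rw [h1, h2, h3, h4, Real.sin_sub]
  ring

theorem cz_eq_m (D : PD X) (u : V) (e : Sym2 V) (θ : ℝ)
    (h : D.a u e - D.p u = D.r * Complex.exp (θ * Complex.I)) : cz D u θ = D.m u e := by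
  unfold cz PD.m
  rw [h, Complex.real_smul]
  push_cast
  ring

/-- points of a segment are within its length of its first end -/
theorem dist_le_of_mem_segment {x y z : ℂ} (h : z ∈ segment ℝ x y) : dist z x ≤ dist y x := by
  rw [segment_eq_image'] at h
  obtain ⟨s, ⟨hs0, hs1⟩, rfl⟩ := h
  simp only [dist_eq_norm, add_sub_cancel_left, norm_smul, Real.norm_eq_abs, abs_of_nonneg hs0]
  have := norm_nonneg (y - x)
  nlinarith

/-- the circle meets the drawing only in the points `m u e` -/
theorem cz_notMem_sup (D : PD X) (u : V) (x : ℝ)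
    (hx : ∀ e ∈ X.edgeSet, u ∈ e → cz D u x ≠ D.m u e) : cz D u x ∉ D.sup X.edgeSet := by
  have hr := D.r_pos
  have hd := cz_dist D u x
  have key : ∀ e ∈ X.edgeSet, ∀ v ∈ e, cz D u x ∉ segment ℝ (D.p v) (D.a v e) := by
    intro e he v hv hz
    by_cases huv : u = v
    · subst huv
      apply hx e he hv
      have ha := D.a_dist e he u hv
      rw [segment_eq_image'] at hz
      obtain ⟨s, ⟨hs0, hs1⟩, hs⟩ := hz
      simp only at hs
      rw [← hs, dist_eq_norm, add_sub_cancel_left, norm_smul, Real.norm_eq_abs,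
        abs_of_nonneg hs0, ← dist_eq_norm, ha] at hd
      have : s = 1 / 4 := by
        have h4 : (s - 1 / 4) * D.r = 0 := by linarith
        rcases mul_eq_zero.1 h4 with h | h
        · linarith
        · exact absurd h hr.ne'
      rw [← hs, this]
      rfl
    · have h1 := dist_le_of_mem_segment hz
      rw [D.a_dist e he v hv] at h1
      have h2 := D.sep u v huv
      have h3 := dist_triangle (D.p u) (cz D u x) (D.p v)
      rw [dist_comm (D.p u) (cz D u x)] at h3
      linarith
  rintro ⟨e, he, hz⟩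
  unfold PD.K at hz
  rw [supp_cons, supp_cons] at hz
  rcases hz with hz | hz | hz
  · exact key e he _ (Sym2.out_fst_mem e) hz
  · exact key e he _ (Sym2.out_snd_mem e) hz
  · have := D.M_ball e he u _ hz
    linarith

end GE4_

open GE4_ in
theorem ge4_proof (hCIR : Stmt_CIR) (hGE1 : Stmt_GE1) (hGE2 : Stmt_GE2) (hGE3 : Stmt_GE3) :
    Stmt_GE4 := by
  classical
  intro V _ _ X D z0
  have hr := D.r_pos
  refine ⟨fun e he => ?_, fun u => ?_⟩
  · unfold PD.fc at he
    rw [Finset.mem_filter] at he
    exact he.2.1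
  -- the angles
  have hang : ∀ e : Sym2 V, ∃ t : ℝ, e ∈ X.edgeSet → u ∈ e →
      (0 ≤ t ∧ t < 2 * Real.pi ∧ D.a u e - D.p u = D.r * Complex.exp (t * Complex.I)) := by
    intro e
    by_cases h : e ∈ X.edgeSet ∧ u ∈ e
    · obtain ⟨t, h1, h2, h3⟩ := exists_angle (D.a u e - D.p u) D.r
        (by rw [← dist_eq_norm]; exact D.a_dist e h.1 u h.2)
      exact ⟨t, fun _ _ => ⟨h1, h2, h3⟩⟩
    · exact ⟨0, fun h1 h2 => absurd ⟨h1, h2⟩ h⟩
  choose θ hθ using hang
  set E : Finset (Sym2 V) := Finset.univ.filter (fun e => e ∈ X.edgeSet ∧ u ∈ e) with hE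
  have hEm : ∀ e, e ∈ E ↔ e ∈ X.edgeSet ∧ u ∈ e := by
    intro e; simp [hE]
  set T : Finset ℝ := E.image θ with hT
  let β := {C : Finset (Sym2 V) // EvenS X C} → ZMod 2
  let f : ℝ → β := fun t C => D.W C.1 (cz D u t)
  have hinj : ∀ e ∈ E, ∀ e' ∈ E, θ e = θ e' → e = e' := by
    intro e he e' he' h
    by_contra hne
    rw [hEm] at he he'
    apply D.a_inj e he.1 e' he'.1 u he.2 he'.2 hne
    have h1 := (hθ e he.1 he.2).2.2
    have h2 := (hθ e' he'.1 he'.2).2.2
    rw [← h, ← h1] at h2
    exact (sub_left_inj.1 h2).symm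
  -- near an edge
  have hloc : ∀ e ∈ E, ∃ ε > 0, ε < Real.pi ∧
      (∀ y y', |y - θ e| < ε → |y' - θ e| < ε → y ≠ θ e → y' ≠ θ e →
        (∀ C : {C : Finset (Sym2 V) // EvenS X C}, (e ∉ C.1 → f y C = D.W C.1 (D.m u e)) ∧
          (e ∈ C.1 → (f y C = f y' C ↔ 0 < (y - θ e) * (y' - θ e))))) := by
    intro e he
    rw [hEm] at he
    obtain ⟨hθ0, hθ1, hθ2⟩ := hθ e he.1 he.2
    obtain ⟨ε, hε, hh⟩ := hGE3 V X D e he.1 u he.2
    have hc : ∀ᶠ y in nhds (θ e), dist (cz D u y) (D.m u e) < ε := by
      have := (cz_cont D u).continuousAt (x := θ e)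
      rw [← cz_eq_m D u e (θ e) hθ2]
      exact Metric.tendsto_nhds.1 this ε hε
    obtain ⟨δ, hδ, hδ'⟩ := Metric.eventually_nhds_iff.1 hc
    refine ⟨min δ (Real.pi / 2), lt_min hδ (by positivity), ?_, ?_⟩
    · have := min_le_right δ (Real.pi / 2)
      have := Real.pi_pos
      linarith
    intro y y' hy hy' hyn hyn' C
    have hy1 : |y - θ e| < δ := lt_of_lt_of_le hy (min_le_left _ _)
    have hy1' : |y' - θ e| < δ := lt_of_lt_of_le hy' (min_le_left _ _)
    have hy2 : |y - θ e| < Real.pi / 2 := lt_of_lt_of_le hy (min_le_right _ _)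
    have hy2' : |y' - θ e| < Real.pi / 2 := lt_of_lt_of_le hy' (min_le_right _ _)
    have sgn : ∀ x : ℝ, |x| < Real.pi / 2 → x ≠ 0 → 0 < x * Real.sin x := by
      intro x hx hx0
      have hpi := Real.pi_pos
      rw [abs_lt] at hx
      rcases lt_or_gt_of_ne hx0 with h | h
      · have : Real.sin x < 0 := Real.sin_neg_of_neg_of_neg_pi_lt h (by linarith)
        exact mul_pos_of_neg_of_neg h this
      · have : 0 < Real.sin x := Real.sin_pos_of_pos_of_lt_pi h (by linarith)
        exact mul_pos h this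
    have s1 := sgn _ hy2 (sub_ne_zero.2 hyn)
    have s2 := sgn _ hy2' (sub_ne_zero.2 hyn')
    have hs1 := side_cz D u e (θ e) y hθ2
    have hs2 := side_cz D u e (θ e) y' hθ2
    have hn1 : side (D.p u, D.a u e) (cz D u y) ≠ 0 := by
      rw [hs1]
      have : Real.sin (y - θ e) ≠ 0 := by
        intro h; rw [h] at s1; simp at s1
      positivity
    have hn2 : side (D.p u, D.a u e) (cz D u y') ≠ 0 := by
      rw [hs2]
      have : Real.sin (y' - θ e) ≠ 0 := by
        intro h; rw [h] at s2; simp at s2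
      positivity
    have := (hh (cz D u y) (cz D u y') (hδ' (by rw [Real.dist_eq]; exact hy1))
      (hδ' (by rw [Real.dist_eq]; exact hy1')) hn1 hn2).2 C.1 C.2
    refine ⟨this.1, fun heC => (this.2 heC).trans ?_⟩
    rw [hs1, hs2]
    have e1 : D.r ^ 2 / 4 * Real.sin (y - θ e) * (D.r ^ 2 / 4 * Real.sin (y' - θ e)) =
        (D.r ^ 2 / 4) ^ 2 * (Real.sin (y - θ e) * Real.sin (y' - θ e)) := by ring
    rw [e1]
    have hp : 0 < (D.r ^ 2 / 4) ^ 2 := by positivity
    have e2 : 0 < ((y - θ e) * (y' - θ e)) * (Real.sin (y - θ e) * Real.sin (y' - θ e)) := by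
      have := mul_pos s1 s2
      nlinarith
    constructor
    · intro h
      have h' : 0 < Real.sin (y - θ e) * Real.sin (y' - θ e) := (mul_pos_iff_of_pos_left hp).1 h
      exact (mul_pos_iff_of_pos_right h').1 e2
    · intro h
      exact mul_pos hp ((mul_pos_iff_of_pos_left h).1 e2)
  choose! ε hε0 hεpi hε using hloc
  let l : ℝ → β := fun t => if h : ∃ e ∈ E, θ e = t then
    f (θ h.choose - ε h.choose / 2) else 0
  let r : ℝ → β := fun t => if h : ∃ e ∈ E, θ e = t then
    f (θ h.choose + ε h.choose / 2) else 0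
  have hl : ∀ e ∈ E, l (θ e) = f (θ e - ε e / 2) := by
    intro e he
    have h : ∃ e' ∈ E, θ e' = θ e := ⟨e, he, rfl⟩
    have : h.choose = e := hinj _ h.choose_spec.1 _ he h.choose_spec.2
    simp only [l]
    rw [dif_pos h, this]
  have hrr : ∀ e ∈ E, r (θ e) = f (θ e + ε e / 2) := by
    intro e he
    have h : ∃ e' ∈ E, θ e' = θ e := ⟨e, he, rfl⟩
    have : h.choose = e := hinj _ h.choose_spec.1 _ he h.choose_spec.2
    simp only [r]
    rw [dif_pos h, this]
  have hC := hCIR β f T l r ?_ ?_ ?_ ?_ (fun C => D.W C.1 z0)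
  · -- comparison
    have hfc : ∀ e ∈ E, (e ∈ D.fc (fun C => D.W C z0) ↔
        (l (θ e) ≠ r (θ e) ∧ ((fun C => D.W C.1 z0 : β) = l (θ e) ∨
          (fun C => D.W C.1 z0 : β) = r (θ e)))) := by
      intro e he
      have he' := (hEm e).1 he
      have hp := hε0 e he
      have habs1 : |θ e - ε e / 2 - θ e| < ε e := by
        rw [abs_lt]; constructor <;> linarith
      have habs2 : |θ e + ε e / 2 - θ e| < ε e := by
        rw [abs_lt]; constructor <;> linarith
      have H1 := hε e he (θ e - ε e / 2) (θ e + ε e / 2) habs1 habs2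
        (by intro h; linarith) (by intro h; linarith)
      have H2 := hε e he (θ e + ε e / 2) (θ e - ε e / 2) habs2 habs1
        (by intro h; linarith) (by intro h; linarith)
      have hneg : ¬ 0 < (θ e - ε e / 2 - θ e) * (θ e + ε e / 2 - θ e) := by
        nlinarith
      have hm : ∀ C : Finset (Sym2 V), EvenS X C → e ∉ C →
          D.W C (D.m (Quot.out e).1 e) = D.W C (D.m u e) := by
        intro C hC heC
        exact hGE2 V X D C hC e he'.1 heC _ (Sym2.out_fst_mem e) _ he'.2
      have hdiff : ∀ C : {C : Finset (Sym2 V) // EvenS X C}, e ∈ C.1 →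
          l (θ e) C ≠ r (θ e) C := by
        intro C heC h
        rw [hl e he, hrr e he] at h
        exact hneg (((H1 C).2 heC).1 h)
      have hsame1 : ∀ C : {C : Finset (Sym2 V) // EvenS X C}, e ∉ C.1 →
          l (θ e) C = D.W C.1 (D.m u e) := by
        intro C heC
        rw [hl e he]
        exact (H1 C).1 heC
      have hsame2 : ∀ C : {C : Finset (Sym2 V) // EvenS X C}, e ∉ C.1 →
          r (θ e) C = D.W C.1 (D.m u e) := by
        intro C heC
        rw [hrr e he]
        exact (H2 C).1 heC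
      have hladd : ∀ C C' : {C : Finset (Sym2 V) // EvenS X C},
          l (θ e) ⟨symmDiff C.1 C'.1, evenS_symmDiff C.2 C'.2⟩ = l (θ e) C + l (θ e) C' := by
        intro C C'
        rw [hl e he]
        exact W_symmDiff D C.1 C'.1 _
      have hradd : ∀ C C' : {C : Finset (Sym2 V) // EvenS X C},
          r (θ e) ⟨symmDiff C.1 C'.1, evenS_symmDiff C.2 C'.2⟩ = r (θ e) C + r (θ e) C' := by
        intro C C'
        rw [hrr e he]
        exact W_symmDiff D C.1 C'.1 _
      unfold PD.fc
      rw [Finset.mem_filter]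
      constructor
      · rintro ⟨-, -, ⟨C0, hC0, heC0⟩, hall⟩
        refine ⟨fun h => hdiff ⟨C0, hC0⟩ heC0 (congrFun h _), ?_⟩
        have hgen : ∀ g : β, (∀ C : {C : Finset (Sym2 V) // EvenS X C}, e ∉ C.1 →
              g C = D.W C.1 (D.m u e)) →
            (∀ C C' : {C : Finset (Sym2 V) // EvenS X C},
              g ⟨symmDiff C.1 C'.1, evenS_symmDiff C.2 C'.2⟩ = g C + g C') →
            D.W C0 z0 = g ⟨C0, hC0⟩ → (fun C => D.W C.1 z0 : β) = g := by
          intro g hg1 hg2 hg3
          funext C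
          by_cases heC : e ∈ C.1
          · have h1 : e ∉ symmDiff C.1 C0 := by
              rw [Finset.mem_symmDiff]; tauto
            have h2 := hall _ (evenS_symmDiff C.2 hC0) h1
            rw [hm _ (evenS_symmDiff C.2 hC0) h1] at h2
            have h3 := hg1 ⟨symmDiff C.1 C0, evenS_symmDiff C.2 hC0⟩ h1
            have h4 := hg2 C ⟨C0, hC0⟩
            simp only at h2 h3 h4
            rw [W_symmDiff D C.1 C0 z0] at h2
            rw [← h3, h4, hg3] at h2
            exact add_right_cancel h2
          · have h2 := hall _ C.2 heC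
            rw [hm _ C.2 heC] at h2
            simp only at h2
            rw [h2, hg1 C heC]
        have h2 : ∀ a b c : ZMod 2, a ≠ b → c = a ∨ c = b := by decide
        rcases h2 _ _ (D.W C0 z0) (hdiff ⟨C0, hC0⟩ heC0) with h | h
        · left
          exact hgen _ hsame1 hladd h
        · right
          exact hgen _ hsame2 hradd h
      · rintro ⟨hne, hor⟩
        refine ⟨Finset.mem_univ _, he'.1, ?_, ?_⟩
        · by_contra hcon
          push Not at hcon
          apply hne
          funext C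
          have := hcon C.1 C.2
          rw [hsame1 C this, hsame2 C this]
        · intro C hC heC
          rw [hm C hC heC]
          rcases hor with h | h
          · have := congrFun h ⟨C, hC⟩
            exact this.trans (hsame1 ⟨C, hC⟩ heC)
          · have := congrFun h ⟨C, hC⟩
            exact this.trans (hsame2 ⟨C, hC⟩ heC)
    have hset : {t | t ∈ T ∧ l t ≠ r t ∧ ((fun C => D.W C.1 z0 : β) = l t ∨
        (fun C => D.W C.1 z0 : β) = r t)} =
        (((D.fc (fun C => D.W C z0)).filter (fun e => u ∈ e)).image θ : Finset ℝ) := by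
      ext t
      simp only [Set.mem_setOf_eq, Finset.coe_image, Set.mem_image, Finset.mem_coe,
        Finset.mem_filter]
      constructor
      · rintro ⟨ht, hh⟩
        rw [hT, Finset.mem_image] at ht
        obtain ⟨e, he, rfl⟩ := ht
        exact ⟨e, ⟨(hfc e he).2 hh, ((hEm e).1 he).2⟩, rfl⟩
      · rintro ⟨e, ⟨he1, he2⟩, rfl⟩
        have he : e ∈ E := by
          rw [hEm]
          refine ⟨?_, he2⟩
          unfold PD.fc at he1
          rw [Finset.mem_filter] at he1
          exact he1.2.1
        exact ⟨Finset.mem_image_of_mem _ he, (hfc e he).1 he1⟩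
    rw [hset, Set.ncard_coe_finset, Finset.card_image_of_injOn] at hC
    · exact hC
    · intro e he e' he' h
      rw [Finset.mem_coe, Finset.mem_filter] at he he'
      refine hinj e ?_ e' ?_ h
      · rw [hEm]
        refine ⟨?_, he.2⟩
        have := he.1
        unfold PD.fc at this
        rw [Finset.mem_filter] at this
        exact this.2.1
      · rw [hEm]
        refine ⟨?_, he'.2⟩
        have := he'.1
        unfold PD.fc at this
        rw [Finset.mem_filter] at this
        exact this.2.1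
  · intro t ht
    rw [hT, Finset.mem_image] at ht
    obtain ⟨e, he, rfl⟩ := ht
    have he' := (hEm e).1 he
    exact ⟨(hθ e he'.1 he'.2).1, (hθ e he'.1 he'.2).2.1⟩
  · intro x
    funext C
    simp only [f]
    rw [cz_periodic]
  · intro x hx
    have hns : cz D u x ∉ D.sup X.edgeSet := by
      apply cz_notMem_sup
      intro e he hu heq
      have he' : e ∈ E := (hEm e).2 ⟨he, hu⟩
      have h1 := (hθ e he hu).2.2
      rw [← cz_eq_m D u e (θ e) h1] at heq
      unfold cz at heq
      have h2 : Complex.exp (x * Complex.I) = Complex.exp (θ e * Complex.I) := by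
        have hne : ((D.r / 4 : ℝ) : ℂ) ≠ 0 := by
          rw [Complex.ofReal_ne_zero]; positivity
        exact mul_left_cancel₀ hne (add_left_cancel heq)
      rw [Complex.exp_eq_exp_iff_exists_int] at h2
      obtain ⟨n, hn⟩ := h2
      have h3 : (x : ℂ) = θ e + 2 * Real.pi * n := by
        have h4 : (x : ℂ) * Complex.I = (θ e + 2 * Real.pi * n) * Complex.I := by
          rw [hn]; ring
        exact mul_right_cancel₀ Complex.I_ne_zero h4
      exact hx (θ e) (Finset.mem_image_of_mem _ he') n (by exact_mod_cast h3)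
    have hev : ∀ C : {C : Finset (Sym2 V) // EvenS X C},
        ∀ᶠ y in nhds x, f y C = f x C := by
      intro C
      have hz : cz D u x ∉ D.sup (C.1 : Set (Sym2 V)) := by
        rintro ⟨e, he, h⟩
        exact hns ⟨e, C.2.1 e he, h⟩
      obtain ⟨δ, hδ, hh⟩ := hGE1 V X D C.1 C.2 _ hz
      have := Metric.tendsto_nhds.1 ((cz_cont D u).continuousAt (x := x)) δ hδ
      filter_upwards [this] with y hy
      exact hh _ hy
    have hev2 : ∀ᶠ y in nhds x, ∀ C : {C : Finset (Sym2 V) // EvenS X C}, f y C = f x C :=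
      Filter.eventually_all.2 hev
    obtain ⟨δ, hδ, hh⟩ := Metric.eventually_nhds_iff.1 hev2
    refine ⟨δ, hδ, fun y hy => ?_⟩
    funext C
    exact hh (by rw [Real.dist_eq]; exact hy) C
  · intro t ht
    rw [hT, Finset.mem_image] at ht
    obtain ⟨e, he, rfl⟩ := ht
    have hp := hε0 e he
    have hgen : ∀ y y', |y - θ e| < ε e → |y' - θ e| < ε e → 0 < (y - θ e) * (y' - θ e) →
        f y = f y' := by
      intro y y' hy hy' hpos
      have hy0 : y ≠ θ e := by
        rintro rfl; simp at hpos
      have hy0' : y' ≠ θ e := by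
        rintro rfl; simp at hpos
      funext C
      by_cases heC : e ∈ C.1
      · exact ((hε e he y y' hy hy' hy0 hy0' C).2 heC).2 hpos
      · rw [(hε e he y y' hy hy' hy0 hy0' C).1 heC, (hε e he y' y hy' hy hy0' hy0 C).1 heC]
    refine ⟨ε e, hp, ?_, ?_⟩
    · intro y hy1 hy2
      rw [hl e he]
      apply hgen
      · rw [abs_lt]; constructor <;> linarith
      · rw [abs_lt]; constructor <;> linarith
      · nlinarith
    · intro y hy1 hy2
      rw [hrr e he]
      apply hgen
      · rw [abs_lt]; constructor <;> linarith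
      · rw [abs_lt]; constructor <;> linarith
      · nlinarith

end Pool.Agent.TCH
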