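import Pool.Agent.TCH.Api

/-!
# Squad TCH, module PR1: the crossing parity of a closed chain is locally constant
-/

set_option autoImplicit false

namespace Pool.Agent.TCH

namespace PR1_

open Classical in
/-- sums over the ends of a closed chain vanish -/
theorem ends_sum (h : ℂ → ZMod 2) (E : Finset ℂ) (S : List (ℂ × ℂ))
    (hE : ∀ s ∈ S, s.1 ∈ E ∧ s.2 ∈ E) :
    (S.map (fun s => h s.1 + h s.2)).sum = ∑ p ∈ E, h p * ((endc S p : ℕ) : ZMod 2) := by
  induction S with
  | nil => simp [endc]
  | cons s S ih =>
    have ih' := ih (fun t ht => hE t (List.mem_cons_of_mem _ ht))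
    obtain ⟨h1, h2⟩ := hE s List.mem_cons_self
    have hc : ∀ p, endc (s :: S) p =
        ((if s.1 = p then 1 else 0) + (if s.2 = p then 1 else 0)) + endc S p := by
      intro p
      simp only [endc, List.map_cons, List.sum_cons]
    rw [List.map_cons, List.sum_cons, ih']
    have : ∀ p ∈ E, h p * ((endc (s :: S) p : ℕ) : ZMod 2) =
        ((if s.1 = p then h p else 0) + (if s.2 = p then h p else 0)) +
          h p * ((endc S p : ℕ) : ZMod 2) := by
      intro p _
      rw [hc p]
      push_cast
      split_ifs <;> ring
    rw [Finset.sum_congr rfl this, Finset.sum_add_distrib, Finset.sum_add_distrib,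
      Finset.sum_ite_eq, Finset.sum_ite_eq, if_pos h1, if_pos h2]

open Classical in
theorem closed_sum (h : ℂ → ZMod 2) (S : List (ℂ × ℂ)) (hS : ClosedS S) :
    (S.map (fun s => h s.1 + h s.2)).sum = 0 := by
  rw [ends_sum h ((S.map Prod.fst).toFinset ∪ (S.map Prod.snd).toFinset) S]
  · apply Finset.sum_eq_zero
    intro p _
    rw [(ZMod.natCast_eq_zero_iff_even).2 (hS p), mul_zero]
  · intro s hs
    refine ⟨Finset.mem_union_left _ ?_, Finset.mem_union_right _ ?_⟩
    · rw [List.mem_toFinset]
      exact List.mem_map_of_mem hs
    · rw [List.mem_toFinset]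
      exact List.mem_map_of_mem hs

open Classical in
/-- is the abscissa of `z` smaller than that of `p` -/
noncomputable def th (p z : ℂ) : ZMod 2 := if z.re < p.re then 1 else 0

open Classical in
/-- is `z0` below the line of `s` -/
noncomputable def kk (z0 : ℂ) (s : ℂ × ℂ) : ZMod 2 := if z0.im < lineval s z0.re then 1 else 0

open Classical in
/-- is `p` straight above `z0` -/
noncomputable def up (z0 p : ℂ) : ZMod 2 := if p.re = z0.re ∧ z0.im < p.im then 1 else 0

theorem line_fst (s : ℂ × ℂ) : lineval s s.1.re = s.1.im := by
  unfold lineval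
  rw [sub_self, mul_zero, add_zero]

theorem line_snd (s : ℂ × ℂ) (h : s.1.re ≠ s.2.re) : lineval s s.2.re = s.2.im := by
  unfold lineval
  have : s.2.re - s.1.re ≠ 0 := sub_ne_zero.2 h.symm
  rw [div_mul_cancel₀ _ this]
  ring

theorem line_vert (s : ℂ × ℂ) (h : s.1.re = s.2.re) (x : ℝ) : lineval s x = s.1.im := by
  unfold lineval
  rw [h, sub_self, div_zero, zero_mul, add_zero]

/-- a point on the line with abscissa between the ends lies on the segment -/
theorem on_seg (s : ℂ × ℂ) (h : s.1.re ≠ s.2.re) (z : ℂ) (h1 : min s.1.re s.2.re ≤ z.re)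
    (h2 : z.re ≤ max s.1.re s.2.re) (h3 : z.im = lineval s z.re) : z ∈ segment ℝ s.1 s.2 := by
  have hne : s.2.re - s.1.re ≠ 0 := sub_ne_zero.2 h.symm
  rw [segment_eq_image']
  refine ⟨(z.re - s.1.re) / (s.2.re - s.1.re), ?_, ?_⟩
  · rcases lt_or_gt_of_ne h with hlt | hlt
    · rw [min_eq_left hlt.le] at h1
      rw [max_eq_right hlt.le] at h2
      have hp : 0 < s.2.re - s.1.re := by linarith
      constructor
      · exact div_nonneg (by linarith) hp.le
      · rw [div_le_one hp]
        linarith
    · rw [min_eq_right hlt.le] at h1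
      rw [max_eq_left hlt.le] at h2
      have hp : s.2.re - s.1.re < 0 := by linarith
      constructor
      · exact div_nonneg_of_nonpos (by linarith) hp.le
      · rw [div_le_one_of_neg hp]
        linarith
  · apply Complex.ext
    · simp only [Complex.add_re, Complex.real_smul, Complex.mul_re, Complex.sub_re,
        Complex.ofReal_re, Complex.ofReal_im, zero_mul, sub_zero]
      rw [div_mul_cancel₀ _ hne]
      ring
    · simp only [Complex.add_im, Complex.real_smul, Complex.mul_im, Complex.sub_im,
        Complex.ofReal_re, Complex.ofReal_im, zero_mul, add_zero]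
      rw [h3]
      unfold lineval
      field_simp

theorem vert_seg (s : ℂ × ℂ) (h : s.1.re = s.2.re) (z : ℂ) (h1 : z.re = s.1.re)
    (h2 : min s.1.im s.2.im ≤ z.im) (h3 : z.im ≤ max s.1.im s.2.im) :
    z ∈ segment ℝ s.1 s.2 := by
  by_cases hi : s.1.im = s.2.im
  · have e1 : s.1 = s.2 := Complex.ext h hi
    rw [← e1, segment_same, Set.mem_singleton_iff]
    rw [← hi, min_self] at h2
    rw [← hi, max_self] at h3
    exact Complex.ext h1 (le_antisymm h3 h2)
  · have hne : s.2.im - s.1.im ≠ 0 := sub_ne_zero.2 (Ne.symm hi)
    rw [segment_eq_image']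
    refine ⟨(z.im - s.1.im) / (s.2.im - s.1.im), ?_, ?_⟩
    · rcases lt_or_gt_of_ne hi with hlt | hlt
      · rw [min_eq_left hlt.le] at h2
        rw [max_eq_right hlt.le] at h3
        have hp : 0 < s.2.im - s.1.im := by linarith
        constructor
        · exact div_nonneg (by linarith) hp.le
        · rw [div_le_one hp]
          linarith
      · rw [min_eq_right hlt.le] at h2
        rw [max_eq_left hlt.le] at h3
        have hp : s.2.im - s.1.im < 0 := by linarith
        constructor
        · exact div_nonneg_of_nonpos (by linarith) hp.le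
        · rw [div_le_one_of_neg hp]
          linarith
    · apply Complex.ext
      · simp only [Complex.add_re, Complex.real_smul, Complex.mul_re, Complex.sub_re,
          Complex.ofReal_re, Complex.ofReal_im, zero_mul, sub_zero]
        rw [h1, h]
        ring
      · simp only [Complex.add_im, Complex.real_smul, Complex.mul_im, Complex.sub_im,
          Complex.ofReal_re, Complex.ofReal_im, zero_mul, add_zero]
        rw [div_mul_cancel₀ _ hne]
        ring

/-- the value of `kk` at a segment with an end straight above or below -/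
theorem kk_end (z0 : ℂ) (s : ℂ × ℂ) (hz : z0 ∉ segment ℝ s.1 s.2) :
    kk z0 s * (if s.1.re = z0.re then 1 else 0) = up z0 s.1 ∧
    kk z0 s * (if s.2.re = z0.re then 1 else 0) = up z0 s.2 := by
  unfold kk up
  constructor
  · by_cases h : s.1.re = z0.re
    · have hl : lineval s z0.re = s.1.im := by rw [← h]; exact line_fst s
      rw [hl]
      simp only [h, if_true, mul_one, true_and]
    · simp only [h, if_false, mul_zero, false_and]
  · by_cases h : s.2.re = z0.re
    · by_cases hv : s.1.re = s.2.re
      · rw [line_vert s hv]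
        have hiff : z0.im < s.1.im ↔ z0.im < s.2.im := by
          constructor
          · intro hlt
            by_contra hge
            push_neg at hge
            exact hz (vert_seg s hv z0 (by rw [hv, h]) (le_trans (min_le_right _ _) hge)
              (le_trans hlt.le (le_max_left _ _)))
          · intro hlt
            by_contra hge
            push_neg at hge
            exact hz (vert_seg s hv z0 (by rw [hv, h]) (le_trans (min_le_left _ _) hge)
              (le_trans hlt.le (le_max_right _ _)))
        simp only [h, if_true, mul_one, true_and, hiff]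
      · have hl : lineval s z0.re = s.2.im := by rw [← h]; exact line_snd s hv
        rw [hl]
        simp only [h, if_true, mul_one, true_and]
    · simp only [h, if_false, mul_zero, false_and]

theorem line_cont (s : ℂ × ℂ) : Continuous (fun z : ℂ => lineval s z.re) := by
  unfold lineval
  fun_prop

open Classical in
/-- the local form of `chi` -/
theorem chi_near (z0 : ℂ) (s : ℂ × ℂ) (hz : z0 ∉ segment ℝ s.1 s.2) :
    ∀ᶠ z in nhds z0, chi s z = kk z0 s * (th s.1 z + th s.2 z) := by
  have hre : Continuous (fun z : ℂ => z.re) := Complex.continuous_re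
  have him : Continuous (fun z : ℂ => z.im) := Complex.continuous_im
  have htt : (1 : ZMod 2) + 1 = 0 := by decide
  by_cases hv : s.1.re = s.2.re
  · apply Filter.Eventually.of_forall
    intro z
    have h1 : th s.1 z = th s.2 z := by unfold th; rw [hv]
    rw [h1, CharTwo.add_self_eq_zero, mul_zero]
    unfold chi
    rw [if_neg]
    rintro ⟨h2, h3, _⟩
    rw [hv, min_self] at h2
    rw [hv, max_self] at h3
    linarith
  · by_cases h1 : z0.re < min s.1.re s.2.re
    · filter_upwards [hre.continuousAt.eventually (gt_mem_nhds h1)] with z hzz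
      have h2 : z.re < s.1.re := lt_of_lt_of_le hzz (min_le_left _ _)
      have h3 : z.re < s.2.re := lt_of_lt_of_le hzz (min_le_right _ _)
      unfold th chi
      rw [if_pos h2, if_pos h3, htt, mul_zero, if_neg]
      rintro ⟨h4, _⟩
      exact absurd hzz (not_lt.2 h4)
    · by_cases h2 : max s.1.re s.2.re < z0.re
      · filter_upwards [hre.continuousAt.eventually (lt_mem_nhds h2)] with z hzz
        have h3 : ¬ z.re < s.1.re := not_lt.2 (le_trans (le_max_left _ _) (le_of_lt hzz))
        have h4 : ¬ z.re < s.2.re := not_lt.2 (le_trans (le_max_right _ _) (le_of_lt hzz))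
        unfold th chi
        rw [if_neg h3, if_neg h4, add_zero, mul_zero, if_neg]
        rintro ⟨_, h5, _⟩
        exact absurd h5 (not_lt.2 (le_of_lt hzz))
      · push_neg at h1 h2
        have hne : z0.im ≠ lineval s z0.re := fun h => hz (on_seg s hv z0 h1 h2 h)
        have hth : ∀ z : ℂ, th s.1 z + th s.2 z =
            if min s.1.re s.2.re ≤ z.re ∧ z.re < max s.1.re s.2.re then 1 else 0 := by
          intro z
          unfold th
          rcases lt_or_ge z.re s.1.re with ha | ha <;> rcases lt_or_ge z.re s.2.re with hb | hb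
          · rw [if_pos ha, if_pos hb, htt, if_neg]
            rintro ⟨h5, _⟩
            exact absurd (lt_min ha hb) (not_lt.2 h5)
          · rw [if_pos ha, if_neg (not_lt.2 hb), add_zero, if_pos]
            exact ⟨le_trans (min_le_right _ _) hb, lt_of_lt_of_le ha (le_max_left _ _)⟩
          · rw [if_neg (not_lt.2 ha), if_pos hb, zero_add, if_pos]
            exact ⟨le_trans (min_le_left _ _) ha, lt_of_lt_of_le hb (le_max_right _ _)⟩
          · rw [if_neg (not_lt.2 ha), if_neg (not_lt.2 hb), add_zero, if_neg]
            rintro ⟨_, h6⟩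
            exact absurd h6 (not_lt.2 (max_le ha hb))
        rcases lt_or_gt_of_ne hne with hlt | hgt
        · have hk : kk z0 s = 1 := if_pos hlt
          filter_upwards [(isOpen_lt him (line_cont s)).mem_nhds hlt] with z hzz
          rw [hk, one_mul, hth z]
          have hzz' : z.im < lineval s z.re := hzz
          unfold chi
          by_cases h5 : min s.1.re s.2.re ≤ z.re ∧ z.re < max s.1.re s.2.re
          · rw [if_pos h5, if_pos ⟨h5.1, h5.2, hzz'⟩]
          · rw [if_neg h5, if_neg (fun h6 => h5 ⟨h6.1, h6.2.1⟩)]
        · have hk : kk z0 s = 0 := if_neg (not_lt.2 (le_of_lt hgt))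
          filter_upwards [(isOpen_lt (line_cont s) him).mem_nhds hgt] with z hzz
          have hzz' : lineval s z.re < z.im := hzz
          rw [hk, zero_mul]
          unfold chi
          rw [if_neg]
          rintro ⟨_, _, h6⟩
          linarith

open Classical in
/-- the local form of `th` -/
theorem th_near (z0 p : ℂ) :
    ∀ᶠ z in nhds z0, th p z = th p z0 +
      (if z.re < z0.re then 1 else 0) * (if p.re = z0.re then 1 else 0) := by
  have hre : Continuous (fun z : ℂ => z.re) := Complex.continuous_re
  rcases lt_trichotomy p.re z0.re with h | h | h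
  · filter_upwards [hre.continuousAt.eventually (lt_mem_nhds h)] with z hzz
    unfold th
    rw [if_neg (not_lt.2 (le_of_lt hzz)), if_neg (not_lt.2 h.le), if_neg (ne_of_lt h), mul_zero,
      add_zero]
  · apply Filter.Eventually.of_forall
    intro z
    unfold th
    rw [h, if_pos rfl, mul_one, if_neg (lt_irrefl _), zero_add]
  · filter_upwards [hre.continuousAt.eventually (gt_mem_nhds h)] with z hzz
    unfold th
    rw [if_pos hzz, if_pos h, if_neg (ne_of_gt h), mul_zero, add_zero]

open Classical in
theorem par_near (z0 : ℂ) (S : List (ℂ × ℂ)) (hz : ∀ s ∈ S, z0 ∉ segment ℝ s.1 s.2) :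
    ∀ᶠ z in nhds z0, par S z = par S z0 +
      (if z.re < z0.re then 1 else 0) * (S.map (fun s => up z0 s.1 + up z0 s.2)).sum := by
  induction S with
  | nil =>
    apply Filter.Eventually.of_forall
    intro z
    simp [par]
  | cons s S ih =>
    have hs := hz s List.mem_cons_self
    have h1 := chi_near z0 s hs
    have h0 := h1.self_of_nhds
    have ih' := ih (fun t ht => hz t (List.mem_cons_of_mem _ ht))
    filter_upwards [h1, ih', th_near z0 s.1, th_near z0 s.2] with z e1 e2 e3 e4
    obtain ⟨k1, k2⟩ := kk_end z0 s hs
    have p1 : par (s :: S) z = chi s z + par S z := by simp [par]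
    have p2 : par (s :: S) z0 = chi s z0 + par S z0 := by simp [par]
    rw [p1, p2, e1, e2, h0, e3, e4, List.map_cons, List.sum_cons, ← k1, ← k2]
    ring

end PR1_

open PR1_ in
theorem pr1_proof : Stmt_PR1 := by
  intro S hS z hz
  have h := par_near z S (fun s hs hmem => hz ⟨s, hs, hmem⟩)
  rw [closed_sum (up z) S hS] at h
  simp only [mul_zero, add_zero] at h
  obtain ⟨ε, hε, H⟩ := Metric.eventually_nhds_iff.1 h
  exact ⟨ε, hε, fun z' hz' => H hz'⟩

end Pool.Agent.TCH
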