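import Pool.Agent.TCH.Api

/-!
# MP_dbd377_co : PR2, the crossing parity flips across a segment
-/

set_option autoImplicit false

namespace Pool.Agent.TCH

namespace PR2_

noncomputable section

open Classical in
/-- is the point `p` on the open vertical ray above `w` -/
def ray (w p : ℂ) : ZMod 2 := if p.re = w.re ∧ w.im < p.im then 1 else 0

open Classical in
/-- is `z` to the left of `w` -/
def lft (w z : ℂ) : ZMod 2 := if z.re < w.re then 1 else 0

theorem sum_ends (r : ℂ → ZMod 2) (F : Finset ℂ) (S : List (ℂ × ℂ))
    (hF : ∀ t ∈ S, t.1 ∈ F ∧ t.2 ∈ F) :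
    (S.map (fun t => r t.1 + r t.2)).sum = ∑ p ∈ F, (endc S p : ZMod 2) * r p := by
  classical
  induction S with
  | nil => simp [endc]
  | cons s S ih =>
    have h1 := ih (fun t ht => hF t (List.mem_cons_of_mem _ ht))
    have h2 := hF s List.mem_cons_self
    have h3 : ∀ p, (endc (s :: S) p : ZMod 2) * r p =
        (if s.1 = p then r p else 0) + (if s.2 = p then r p else 0) + (endc S p : ZMod 2) * r p := by
      intro p
      unfold endc
      simp only [List.map_cons, List.sum_cons, Nat.cast_add, Nat.cast_ite, Nat.cast_one,
        Nat.cast_zero]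
      by_cases a1 : s.1 = p <;> by_cases a2 : s.2 = p <;> simp [a1, a2] <;> ring
    rw [List.map_cons, List.sum_cons, h1, Finset.sum_congr rfl (fun p _ => h3 p),
      Finset.sum_add_distrib, Finset.sum_add_distrib, Finset.sum_ite_eq, Finset.sum_ite_eq,
      if_pos h2.1, if_pos h2.2]

theorem sum_closed (r : ℂ → ZMod 2) (S : List (ℂ × ℂ)) (hS : ClosedS S) :
    (S.map (fun t => r t.1 + r t.2)).sum = 0 := by
  classical
  rw [sum_ends r ((S.map Prod.fst ++ S.map Prod.snd).toFinset) S]
  · apply Finset.sum_eq_zero
    intro p _
    have h1 : (endc S p : ZMod 2) = 0 := (ZMod.natCast_eq_zero_iff_even).mpr (hS p)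
    rw [h1, zero_mul]
  · intro t ht
    simp only [List.toFinset_append, Finset.mem_union, List.mem_toFinset, List.mem_map]
    exact ⟨Or.inl ⟨t, ht, rfl⟩, Or.inr ⟨t, ht, rfl⟩⟩

/-- if the abscissae of the ends agree, `chi` vanishes -/
theorem chi_vert (s : ℂ × ℂ) (h : s.1.re = s.2.re) (z : ℂ) : chi s z = 0 := by
  unfold chi
  rw [if_neg]
  rintro ⟨h1, h2, -⟩
  rw [h, min_self] at h1
  rw [h, max_self] at h2
  linarith

theorem lineval_left (s : ℂ × ℂ) : lineval s s.1.re = s.1.im := by
  simp [lineval]

theorem lineval_right (s : ℂ × ℂ) (h : s.1.re ≠ s.2.re) : lineval s s.2.re = s.2.im := by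
  unfold lineval
  have h1 : s.2.re - s.1.re ≠ 0 := sub_ne_zero.mpr (Ne.symm h)
  field_simp
  ring

theorem cont_lineval (s : ℂ × ℂ) : Continuous (fun z : ℂ => lineval s z.re) := by
  unfold lineval
  fun_prop

/-- a point on the line with abscissa between those of the ends is on the segment -/
theorem mem_seg (s : ℂ × ℂ) (w : ℂ) (h : s.1.re ≠ s.2.re) (h1 : w.im = lineval s w.re)
    (h2 : min s.1.re s.2.re ≤ w.re) (h3 : w.re ≤ max s.1.re s.2.re) : w ∈ segment ℝ s.1 s.2 := by
  rw [segment_eq_image']
  have h4 : s.2.re - s.1.re ≠ 0 := sub_ne_zero.mpr (Ne.symm h)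
  refine ⟨(w.re - s.1.re) / (s.2.re - s.1.re), ?_, ?_⟩
  · rcases lt_or_gt_of_ne h with h5 | h5
    · rw [min_eq_left h5.le] at h2
      rw [max_eq_right h5.le] at h3
      have h6 : 0 < s.2.re - s.1.re := by linarith
      constructor
      · apply div_nonneg <;> linarith
      · rw [div_le_one h6]; linarith
    · rw [min_eq_right h5.le] at h2
      rw [max_eq_left h5.le] at h3
      have h6 : s.2.re - s.1.re < 0 := by linarith
      constructor
      · apply div_nonneg_of_nonpos <;> linarith
      · rw [div_le_one_of_neg h6]; linarith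
  · apply Complex.ext
    · simp only [Complex.add_re, Complex.real_smul, Complex.mul_re, Complex.ofReal_re,
        Complex.sub_re, Complex.ofReal_im, zero_mul, sub_zero]
      field_simp
      ring
    · simp only [Complex.add_im, Complex.real_smul, Complex.mul_im, Complex.ofReal_re,
        Complex.sub_im, Complex.ofReal_im, zero_mul, add_zero]
      rw [h1]
      unfold lineval
      field_simp

/-- a point on the vertical line of a vertical segment, between the ends -/
theorem mem_seg_vert (s : ℂ × ℂ) (w : ℂ) (h : s.1.re = s.2.re) (h1 : w.re = s.1.re)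
    (h2 : min s.1.im s.2.im ≤ w.im) (h3 : w.im ≤ max s.1.im s.2.im) : w ∈ segment ℝ s.1 s.2 := by
  rw [segment_eq_image']
  by_cases h0 : s.1.im = s.2.im
  · refine ⟨0, ⟨le_refl _, zero_le_one⟩, ?_⟩
    rw [h0, min_self] at h2
    rw [h0, max_self] at h3
    simp only [zero_smul, add_zero]
    apply Complex.ext
    · exact h1.symm
    · linarith
  have h4 : s.2.im - s.1.im ≠ 0 := sub_ne_zero.mpr (Ne.symm h0)
  refine ⟨(w.im - s.1.im) / (s.2.im - s.1.im), ?_, ?_⟩
  · rcases lt_or_gt_of_ne h0 with h5 | h5
    · rw [min_eq_left h5.le] at h2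
      rw [max_eq_right h5.le] at h3
      have h6 : 0 < s.2.im - s.1.im := by linarith
      constructor
      · apply div_nonneg <;> linarith
      · rw [div_le_one h6]; linarith
    · rw [min_eq_right h5.le] at h2
      rw [max_eq_left h5.le] at h3
      have h6 : s.2.im - s.1.im < 0 := by linarith
      constructor
      · apply div_nonneg_of_nonpos <;> linarith
      · rw [div_le_one_of_neg h6]; linarith
  · apply Complex.ext
    · simp only [Complex.add_re, Complex.real_smul, Complex.mul_re, Complex.ofReal_re,
        Complex.sub_re, Complex.ofReal_im, zero_mul, sub_zero]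
      rw [h1, h, sub_self, mul_zero, add_zero]
    · simp only [Complex.add_im, Complex.real_smul, Complex.mul_im, Complex.ofReal_re,
        Complex.sub_im, Complex.ofReal_im, zero_mul, add_zero]
      field_simp
      ring

/-- strict inequalities between continuous functions persist -/
theorem near_lt (w : ℂ) (f g : ℂ → ℝ) (hf : Continuous f) (hg : Continuous g) (h : f w < g w) :
    ∃ ε > 0, ∀ z, dist z w < ε → f z < g z := by
  have h1 : IsOpen {z | f z < g z} := isOpen_lt hf hg
  obtain ⟨ε, he, hb⟩ := Metric.isOpen_iff.mp h1 w h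
  exact ⟨ε, he, fun z hz => hb (Metric.mem_ball.mpr hz)⟩

/-- near `w` the half open condition at an end -/
theorem th_near (w p : ℂ) : ∃ a : ZMod 2, ∃ ε > 0, ∀ z, dist z w < ε →
    (lft p z = a + lft w z * (if p.re = w.re then 1 else 0)) ∧ (p.re = w.re → a = 0) := by
  classical
  rcases lt_trichotomy p.re w.re with h | h | h
  · obtain ⟨ε, he, hb⟩ := near_lt w (fun _ => p.re) (fun z => z.re) continuous_const
      Complex.continuous_re h
    refine ⟨0, ε, he, fun z hz => ⟨?_, fun _ => rfl⟩⟩
    have h1 := hb z hz
    have e1 : lft p z = 0 := by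
      unfold lft
      rw [if_neg (by linarith)]
    rw [e1, if_neg h.ne]
    simp
  · refine ⟨0, 1, one_pos, fun z _ => ⟨?_, fun _ => rfl⟩⟩
    unfold lft
    rw [h, if_pos rfl]
    simp
  · obtain ⟨ε, he, hb⟩ := near_lt w (fun z => z.re) (fun _ => p.re) Complex.continuous_re
      continuous_const h
    refine ⟨1, ε, he, fun z hz => ⟨?_, fun h2 => by linarith⟩⟩
    have h1 := hb z hz
    have e1 : lft p z = 1 := by
      unfold lft
      rw [if_pos h1]
    rw [e1, if_neg h.ne']
    simp

open Classical in
/-- `chi` in terms of the half open conditions -/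
theorem chi_eq (s : ℂ × ℂ) (z : ℂ) :
    chi s z = (lft s.1 z + lft s.2 z) * (if z.im < lineval s z.re then 1 else 0) := by
  unfold chi lft
  rcases le_total s.1.re s.2.re with h | h
  · rw [min_eq_left h, max_eq_right h]
    by_cases h1 : z.re < s.1.re
    · have h2 : z.re < s.2.re := lt_of_lt_of_le h1 h
      rw [if_neg (by intro h3; linarith [h3.1]), if_pos h1, if_pos h2]
      have : (1 : ZMod 2) + 1 = 0 := by decide
      rw [this, zero_mul]
    · by_cases h2 : z.re < s.2.re
      · by_cases h3 : z.im < lineval s z.re
        · rw [if_pos ⟨not_lt.mp h1, h2, h3⟩, if_neg h1, if_pos h2, if_pos h3]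
          simp
        · rw [if_neg (by intro h4; exact h3 h4.2.2), if_neg h3]
          simp
      · rw [if_neg (by intro h4; exact h2 h4.2.1), if_neg h1, if_neg h2]
        simp
  · rw [min_eq_right h, max_eq_left h]
    by_cases h1 : z.re < s.2.re
    · have h2 : z.re < s.1.re := lt_of_lt_of_le h1 h
      rw [if_neg (by intro h3; linarith [h3.1]), if_pos h1, if_pos h2]
      have : (1 : ZMod 2) + 1 = 0 := by decide
      rw [this, zero_mul]
    · by_cases h2 : z.re < s.1.re
      · by_cases h3 : z.im < lineval s z.re
        · rw [if_pos ⟨not_lt.mp h1, h2, h3⟩, if_neg h1, if_pos h2, if_pos h3]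
          simp
        · rw [if_neg (by intro h4; exact h3 h4.2.2), if_neg h3]
          simp
      · rw [if_neg (by intro h4; exact h2 h4.2.1), if_neg h1, if_neg h2]
        simp

/-- `chi` of one segment near a point outside the segment -/
theorem chi_near (s : ℂ × ℂ) (w : ℂ) (hw : w ∉ segment ℝ s.1 s.2) :
    ∃ a : ZMod 2, ∃ ε > 0, ∀ z, dist z w < ε →
      chi s z = a + lft w z * (ray w s.1 + ray w s.2) := by
  classical
  by_cases hv : s.1.re = s.2.re
  · refine ⟨0, 1, one_pos, fun z _ => ?_⟩
    rw [chi_vert s hv]
    have h1 : ray w s.1 + ray w s.2 = 0 := by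
      unfold ray
      by_cases h2 : s.1.re = w.re
      · have h3 : s.2.re = w.re := by rw [← hv, h2]
        have h4 : (w.im < s.1.im ↔ w.im < s.2.im) := by
          by_contra hcon
          apply hw
          apply mem_seg_vert s w hv h2.symm
          · rcases le_total s.1.im s.2.im with h5 | h5
            · rw [min_eq_left h5]
              by_contra h6
              push Not at h6
              exact hcon ⟨fun _ => by linarith, fun _ => h6⟩
            · rw [min_eq_right h5]
              by_contra h6
              push Not at h6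
              exact hcon ⟨fun _ => h6, fun _ => by linarith⟩
          · rcases le_total s.1.im s.2.im with h5 | h5
            · rw [max_eq_right h5]
              by_contra h6
              push Not at h6
              exact hcon ⟨fun _ => by linarith, fun _ => by linarith⟩
            · rw [max_eq_left h5]
              by_contra h6
              push Not at h6
              exact hcon ⟨fun _ => by linarith, fun _ => by linarith⟩
        by_cases h5 : w.im < s.1.im
        · rw [if_pos ⟨h2, h5⟩, if_pos ⟨h3, h4.mp h5⟩]
          decide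
        · rw [if_neg (fun h6 => h5 h6.2), if_neg (fun h6 => h5 (h4.mpr h6.2))]
          simp
      · have h3 : s.2.re ≠ w.re := by rw [← hv]; exact h2
        rw [if_neg (fun h6 => h2 h6.1), if_neg (fun h6 => h3 h6.1)]
        simp
    rw [h1, mul_zero, add_zero]
  · by_cases hl : w.im = lineval s w.re
    · -- on the line, outside the segment
      have h1 : w.re < min s.1.re s.2.re ∨ max s.1.re s.2.re < w.re := by
        by_contra hcon
        push Not at hcon
        exact hw (mem_seg s w hv hl hcon.1 hcon.2)
      have hr1 : s.1.re ≠ w.re := by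
        intro h2
        rcases h1 with h1 | h1
        · linarith [min_le_left s.1.re s.2.re]
        · linarith [le_max_left s.1.re s.2.re]
      have hr2 : s.2.re ≠ w.re := by
        intro h2
        rcases h1 with h1 | h1
        · linarith [min_le_right s.1.re s.2.re]
        · linarith [le_max_right s.1.re s.2.re]
      have hr : ray w s.1 + ray w s.2 = 0 := by
        unfold ray
        rw [if_neg (fun h6 => hr1 h6.1), if_neg (fun h6 => hr2 h6.1)]
        simp
      rw [hr]
      rcases h1 with h1 | h1
      · obtain ⟨ε, he, hb⟩ := near_lt w (fun z => z.re) (fun _ => min s.1.re s.2.re)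
          Complex.continuous_re continuous_const h1
        refine ⟨0, ε, he, fun z hz => ?_⟩
        have h2 := hb z hz
        unfold chi
        rw [if_neg (by intro h3; linarith [h3.1])]
        simp
      · obtain ⟨ε, he, hb⟩ := near_lt w (fun _ => max s.1.re s.2.re) (fun z => z.re)
          continuous_const Complex.continuous_re h1
        refine ⟨0, ε, he, fun z hz => ?_⟩
        have h2 := hb z hz
        unfold chi
        rw [if_neg (by intro h3; linarith [h3.2.1])]
        simp
    · -- off the line
      have hB : ∃ ε > 0, ∀ z, dist z w < ε →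
          (z.im < lineval s z.re ↔ w.im < lineval s w.re) := by
        rcases lt_or_gt_of_ne hl with h1 | h1
        · obtain ⟨ε, he, hb⟩ := near_lt w (fun z => z.im) (fun z => lineval s z.re)
            Complex.continuous_im (cont_lineval s) h1
          exact ⟨ε, he, fun z hz => ⟨fun _ => h1, fun _ => hb z hz⟩⟩
        · obtain ⟨ε, he, hb⟩ := near_lt w (fun z => lineval s z.re) (fun z => z.im)
            (cont_lineval s) Complex.continuous_im h1
          refine ⟨ε, he, fun z hz => ⟨fun h2 => ?_, fun h2 => ?_⟩⟩
          · have h3 := hb z hz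
            linarith
          · linarith
      obtain ⟨ε0, he0, hb0⟩ := hB
      obtain ⟨a1, ε1, he1, hb1⟩ := th_near w s.1
      obtain ⟨a2, ε2, he2, hb2⟩ := th_near w s.2
      refine ⟨(a1 + a2) * (if w.im < lineval s w.re then 1 else 0), min ε0 (min ε1 ε2),
        lt_min he0 (lt_min he1 he2), fun z hz => ?_⟩
      have hz0 := hb0 z (lt_of_lt_of_le hz (min_le_left _ _))
      have hz1 := (hb1 z (lt_of_lt_of_le hz ((min_le_right _ _).trans (min_le_left _ _)))).1
      have hz2 := (hb2 z (lt_of_lt_of_le hz ((min_le_right _ _).trans (min_le_right _ _)))).1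
      rw [chi_eq, hz1, hz2]
      have hr1 : ray w s.1 = (if s.1.re = w.re then 1 else 0) *
          (if w.im < lineval s w.re then 1 else 0) := by
        unfold ray
        by_cases h2 : s.1.re = w.re
        · have h3 : lineval s w.re = s.1.im := by rw [← h2]; exact lineval_left s
          rw [h3]
          by_cases h4 : w.im < s.1.im
          · rw [if_pos ⟨h2, h4⟩, if_pos h2, if_pos h4, one_mul]
          · rw [if_neg (fun h6 => h4 h6.2), if_neg h4, mul_zero]
        · rw [if_neg (fun h6 => h2 h6.1), if_neg h2, zero_mul]
      have hr2 : ray w s.2 = (if s.2.re = w.re then 1 else 0) *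
          (if w.im < lineval s w.re then 1 else 0) := by
        unfold ray
        by_cases h2 : s.2.re = w.re
        · have h3 : lineval s w.re = s.2.im := by rw [← h2]; exact lineval_right s hv
          rw [h3]
          by_cases h4 : w.im < s.2.im
          · rw [if_pos ⟨h2, h4⟩, if_pos h2, if_pos h4, one_mul]
          · rw [if_neg (fun h6 => h4 h6.2), if_neg h4, mul_zero]
        · rw [if_neg (fun h6 => h2 h6.1), if_neg h2, zero_mul]
      rw [hr1, hr2]
      by_cases h4 : w.im < lineval s w.re
      · rw [if_pos (hz0.mpr h4), if_pos h4]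
        ring
      · rw [if_neg (fun h5 => h4 (hz0.mp h5)), if_neg h4]
        ring

/-- the crossing parity near a point outside the support -/
theorem par_near (S : List (ℂ × ℂ)) (w : ℂ) (hw : w ∉ supp S) :
    ∃ a : ZMod 2, ∃ ε > 0, ∀ z, dist z w < ε →
      par S z = a + lft w z * (S.map (fun t => ray w t.1 + ray w t.2)).sum := by
  induction S with
  | nil =>
    refine ⟨0, 1, one_pos, fun z _ => ?_⟩
    simp [par]
  | cons s S ih =>
    rw [supp_cons, Set.mem_union, not_or] at hw
    obtain ⟨a1, ε1, he1, hb1⟩ := chi_near s w hw.1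
    obtain ⟨a2, ε2, he2, hb2⟩ := ih hw.2
    refine ⟨a1 + a2, min ε1 ε2, lt_min he1 he2, fun z hz => ?_⟩
    rw [par_cons, hb1 z (lt_of_lt_of_le hz (min_le_left _ _)),
      hb2 z (lt_of_lt_of_le hz (min_le_right _ _)), List.map_cons, List.sum_cons]
    ring

/-- the side in terms of the height above the line -/
theorem side_eq (s : ℂ × ℂ) (h : s.1.re ≠ s.2.re) (z : ℂ) :
    side s z = (s.2.re - s.1.re) * (z.im - lineval s z.re) := by
  unfold side lineval
  have h1 : s.2.re - s.1.re ≠ 0 := sub_ne_zero.mpr (Ne.symm h)
  simp only [Complex.sub_re, Complex.sub_im]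
  field_simp
  ring

end

end PR2_

open PR2_ in
theorem pr2_proof : Stmt_PR2 := by
  classical
  intro s S hS hne m hm hmS
  obtain ⟨a, ε, he, hb⟩ := par_near S m hmS
  have hN : (S.map (fun t => ray m t.1 + ray m t.2)).sum = ray m s.1 + ray m s.2 := by
    have h1 := sum_closed (ray m) (s :: S) hS
    rw [List.map_cons, List.sum_cons] at h1
    have h2 : ∀ x y : ZMod 2, x + y = 0 → y = x := by decide
    exact h2 _ _ h1
  rw [hN] at hb
  obtain ⟨α, β, hα, hβ, hαβ, hmeq⟩ := hm
  have hmre : m.re = α * s.1.re + β * s.2.re := by
    rw [← hmeq]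
    simp
  have hmim : m.im = α * s.1.im + β * s.2.im := by
    rw [← hmeq]
    simp
  have hβ' : β = 1 - α := by linarith
  have key : ∀ x y : ZMod 2, x = y ∨ x = y + 1 := by decide
  by_cases hv : s.1.re = s.2.re
  · -- vertical segment
    have him : s.1.im ≠ s.2.im := fun h => hne (Complex.ext hv h)
    have hr : ray m s.1 + ray m s.2 = 1 := by
      have e1 : s.1.re = m.re := by rw [hmre, ← hv, hβ']; ring
      have e2 : s.2.re = m.re := by rw [← hv, e1]
      unfold ray
      rcases lt_or_gt_of_ne him with h1 | h1
      · have h2 : ¬ (m.im < s.1.im) := by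
          rw [hmim, hβ']; nlinarith
        have h3 : m.im < s.2.im := by
          rw [hmim, hβ']; nlinarith
        rw [if_neg (fun h6 => h2 h6.2), if_pos ⟨e2, h3⟩, zero_add]
      · have h2 : m.im < s.1.im := by
          rw [hmim, hβ']; nlinarith
        have h3 : ¬ (m.im < s.2.im) := by
          rw [hmim, hβ']; nlinarith
        rw [if_pos ⟨e1, h2⟩, if_neg (fun h6 => h3 h6.2), add_zero]
    rw [hr] at hb
    have e1 : s.1.re = m.re := by rw [hmre, ← hv, hβ']; ring
    have hside : ∀ z, side s z = -((s.2.im - s.1.im) * (z.re - m.re)) := by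
      intro z
      unfold side
      simp only [Complex.sub_re, Complex.sub_im]
      rw [← hv, e1]
      ring
    refine ⟨ε, he, fun z z' hz hz' hsz hsz' => ?_⟩
    rw [par_cons, par_cons, chi_vert s hv, chi_vert s hv, zero_add, zero_add, hb z hz, hb z' hz',
      mul_one, mul_one]
    rw [hside] at hsz hsz'
    rw [hside, hside]
    have d0 : s.2.im - s.1.im ≠ 0 := sub_ne_zero.mpr (Ne.symm him)
    have d1 : z.re ≠ m.re := by
      intro h
      rw [h] at hsz
      apply hsz
      ring
    have d2 : z'.re ≠ m.re := by
      intro h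
      rw [h] at hsz'
      apply hsz'
      ring
    have hsq : 0 < (s.2.im - s.1.im) ^ 2 := by positivity
    have hprod : -((s.2.im - s.1.im) * (z.re - m.re)) * -((s.2.im - s.1.im) * (z'.re - m.re))
        = (s.2.im - s.1.im) ^ 2 * ((z.re - m.re) * (z'.re - m.re)) := by ring
    rw [hprod, mul_pos_iff_of_pos_left hsq]
    unfold lft
    rcases lt_or_gt_of_ne d1 with h1 | h1 <;> rcases lt_or_gt_of_ne d2 with h2 | h2
    · rw [if_pos h1, if_pos h2]
      exact ⟨fun _ => mul_pos_of_neg_of_neg (by linarith) (by linarith), fun _ => rfl⟩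
    · rw [if_pos h1, if_neg (by linarith)]
      constructor
      · intro h3
        exfalso
        have : (1 : ZMod 2) = 0 := add_left_cancel h3
        exact absurd this (by decide)
      · intro h3
        exfalso
        have := mul_neg_of_neg_of_pos (show z.re - m.re < 0 by linarith)
          (show 0 < z'.re - m.re by linarith)
        linarith
    · rw [if_neg (by linarith), if_pos h2]
      constructor
      · intro h3
        exfalso
        have : (0 : ZMod 2) = 1 := add_left_cancel h3
        exact absurd this (by decide)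
      · intro h3
        exfalso
        have := mul_neg_of_pos_of_neg (show 0 < z.re - m.re by linarith)
          (show z'.re - m.re < 0 by linarith)
        linarith
    · rw [if_neg (by linarith), if_neg (by linarith)]
      exact ⟨fun _ => mul_pos (by linarith) (by linarith), fun _ => rfl⟩
  · -- non-vertical segment
    have hd : s.2.re - s.1.re ≠ 0 := sub_ne_zero.mpr (Ne.symm hv)
    have q1 : s.1.re ≠ m.re := by
      intro h
      rw [hmre, hβ'] at h
      have : (1 - α) * (s.2.re - s.1.re) = 0 := by linarith
      rcases mul_eq_zero.mp this with h2 | h2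
      · linarith
      · exact hd h2
    have q2 : s.2.re ≠ m.re := by
      intro h
      rw [hmre, hβ'] at h
      have : α * (s.2.re - s.1.re) = 0 := by linarith
      rcases mul_eq_zero.mp this with h2 | h2
      · linarith
      · exact hd h2
    have hr : ray m s.1 + ray m s.2 = 0 := by
      unfold ray
      rw [if_neg (fun h6 => q1 h6.1), if_neg (fun h6 => q2 h6.1)]
      simp
    rw [hr] at hb
    -- the abscissa of `m` is strictly between
    have hth : ∃ δ > 0, ∀ z, dist z m < δ → lft s.1 z + lft s.2 z = 1 := by
      rcases lt_or_gt_of_ne hv with h1 | h1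
      · have h2 : s.1.re < m.re := by rw [hmre, hβ']; nlinarith
        have h3 : m.re < s.2.re := by rw [hmre, hβ']; nlinarith
        obtain ⟨δ1, hd1, hb1⟩ := near_lt m (fun _ => s.1.re) (fun z => z.re) continuous_const
          Complex.continuous_re h2
        obtain ⟨δ2, hd2, hb2⟩ := near_lt m (fun z => z.re) (fun _ => s.2.re)
          Complex.continuous_re continuous_const h3
        refine ⟨min δ1 δ2, lt_min hd1 hd2, fun z hz => ?_⟩
        have h4 := hb1 z (lt_of_lt_of_le hz (min_le_left _ _))
        have h5 := hb2 z (lt_of_lt_of_le hz (min_le_right _ _))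
        unfold lft
        rw [if_neg (by linarith), if_pos h5, zero_add]
      · have h2 : s.2.re < m.re := by rw [hmre, hβ']; nlinarith
        have h3 : m.re < s.1.re := by rw [hmre, hβ']; nlinarith
        obtain ⟨δ1, hd1, hb1⟩ := near_lt m (fun _ => s.2.re) (fun z => z.re) continuous_const
          Complex.continuous_re h2
        obtain ⟨δ2, hd2, hb2⟩ := near_lt m (fun z => z.re) (fun _ => s.1.re)
          Complex.continuous_re continuous_const h3
        refine ⟨min δ1 δ2, lt_min hd1 hd2, fun z hz => ?_⟩
        have h4 := hb1 z (lt_of_lt_of_le hz (min_le_left _ _))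
        have h5 := hb2 z (lt_of_lt_of_le hz (min_le_right _ _))
        unfold lft
        rw [if_pos h5, if_neg (by linarith), add_zero]
    obtain ⟨δ, hδ, hbδ⟩ := hth
    refine ⟨min ε δ, lt_min he hδ, fun z z' hz hz' hsz hsz' => ?_⟩
    rw [par_cons, par_cons, chi_eq, chi_eq, hbδ z (lt_of_lt_of_le hz (min_le_right _ _)),
      hbδ z' (lt_of_lt_of_le hz' (min_le_right _ _)), hb z (lt_of_lt_of_le hz (min_le_left _ _)),
      hb z' (lt_of_lt_of_le hz' (min_le_left _ _)), mul_zero, mul_zero, add_zero, one_mul,
      one_mul, add_left_inj]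
    rw [side_eq s hv] at hsz hsz'
    rw [side_eq s hv, side_eq s hv]
    have d1 : z.im ≠ lineval s z.re := by
      intro h
      rw [h, sub_self, mul_zero] at hsz
      exact hsz rfl
    have d2 : z'.im ≠ lineval s z'.re := by
      intro h
      rw [h, sub_self, mul_zero] at hsz'
      exact hsz' rfl
    have hsq : 0 < (s.2.re - s.1.re) ^ 2 := by positivity
    have hprod : (s.2.re - s.1.re) * (z.im - lineval s z.re) *
        ((s.2.re - s.1.re) * (z'.im - lineval s z'.re))
        = (s.2.re - s.1.re) ^ 2 * ((z.im - lineval s z.re) * (z'.im - lineval s z'.re)) := by ring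
    rw [hprod, mul_pos_iff_of_pos_left hsq]
    rcases lt_or_gt_of_ne d1 with h1 | h1 <;> rcases lt_or_gt_of_ne d2 with h2 | h2
    · rw [if_pos h1, if_pos h2]
      exact ⟨fun _ => mul_pos_of_neg_of_neg (by linarith) (by linarith), fun _ => rfl⟩
    · rw [if_pos h1, if_neg (by linarith)]
      constructor
      · intro h3
        exact absurd h3 (by decide)
      · intro h3
        exfalso
        have := mul_neg_of_neg_of_pos (show z.im - lineval s z.re < 0 by linarith)
          (show 0 < z'.im - lineval s z'.re by linarith)
        linarith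
    · rw [if_neg (by linarith), if_pos h2]
      constructor
      · intro h3
        exact absurd h3 (by decide)
      · intro h3
        exfalso
        have := mul_neg_of_pos_of_neg (show 0 < z.im - lineval s z.re by linarith)
          (show z'.im - lineval s z'.re < 0 by linarith)
        linarith
    · rw [if_neg (by linarith), if_neg (by linarith)]
      exact ⟨fun _ => mul_pos (by linarith) (by linarith), fun _ => rfl⟩

end Pool.Agent.TCH
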