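import Pool.Agent.TCH.Defs


/-!
# MP_dbd377_co : statements of the modules of the squad TCH
-/

set_option autoImplicit false

namespace Pool.Agent.TCH

open MvPolynomial

/-! ## Part A -/

/-- ALG: the two reductions on the level of polynomials -/
def Stmt_ALG : Prop :=
  ∀ (V : Type) [DecidableEq V] (x1 x2 a a' c : V) (Q : MvPolynomial V ℤ),
    x1 ≠ x2 → x1 ≠ c → x2 ≠ c → a ≠ x1 → a ≠ x2 → a' ≠ x1 → a' ≠ x2 → a ≠ c → a' ≠ c →
    x1 ∉ Q.vars → x2 ∉ Q.vars →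
    (Good ((X a - X a') * Q) ∨ Good (rename (fun v => if v = c then a else v) Q)) →
    Good (gad x1 x2 a a' c * Q)

/-- LOW: a point of degree at most two can be removed -/
def Stmt_LOW : Prop :=
  ∀ (V : Type) [DecidableEq V] (p : V) (L : List V) (Q : MvPolynomial V ℤ),
    p ∉ L → L.length ≤ 2 → p ∉ Q.vars → Good Q →
    Good ((L.map (fun q => (X p - X q : MvPolynomial V ℤ))).prod * Q)

/-- KEY: the key lemma (submodularity of the potential) -/
def Stmt_KEY : Prop :=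
  ∀ (V ι : Type) [DecidableEq V] [DecidableEq ι] (R : Finset ι) (F : ι → Finset V) (w : ι → ℕ)
    (a a' c : V),
    (∀ Y ⊆ R, Y.Nonempty → ∑ i ∈ Y, w i + 3 ≤ 3 * (Y.biUnion F).card) →
    (∀ Y ⊆ R, a ∈ Y.biUnion F → c ∈ Y.biUnion F → ∑ i ∈ Y, w i + 4 ≤ 3 * (Y.biUnion F).card) →
    (∀ Y ⊆ R, a' ∈ Y.biUnion F → c ∈ Y.biUnion F → ∑ i ∈ Y, w i + 4 ≤ 3 * (Y.biUnion F).card) →
    (∀ Y ⊆ R, a ∈ Y.biUnion F → a' ∈ Y.biUnion F → c ∈ Y.biUnion F →
      ∑ i ∈ Y, w i + 6 ≤ 3 * (Y.biUnion F).card) →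
    (∃ A ⊆ R, a ∈ A.biUnion F ∧ a' ∈ A.biUnion F ∧ c ∉ A.biUnion F ∧
      3 * (A.biUnion F).card ≤ ∑ i ∈ A, w i + 4) →
    (∃ B ⊆ R, a ∈ B.biUnion F ∧ c ∈ B.biUnion F ∧ a' ∉ B.biUnion F ∧
      3 * (B.biUnion F).card ≤ ∑ i ∈ B, w i + 5) →
    (∃ C ⊆ R, a' ∈ C.biUnion F ∧ c ∈ C.biUnion F ∧ a ∉ C.biUnion F ∧
      3 * (C.biUnion F).card ≤ ∑ i ∈ C, w i + 5) →
    False

/-- FCT: simple facts about a configuration -/
def Stmt_FCT : Prop :=
  ∀ (V ι : Type) [DecidableEq V] [DecidableEq ι] (I : Finset ι) (b : ι → List V), C3 I b →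
    (∀ i ∈ I, (b i).Nodup) ∧
    ∀ (h e1 e2 : ι) (x1 x2 a a' c : V), Cfg I b h e1 e2 x1 x2 a a' c →
      x1 ≠ x2 ∧ x1 ≠ c ∧ x2 ≠ c ∧ a ≠ x1 ∧ a ≠ x2 ∧ a' ≠ x1 ∧ a' ≠ x2 ∧ a ≠ c ∧ a' ≠ c

/-- RED: one of the three reductions keeps `C3` -/
def Stmt_RED : Prop :=
  ∀ (V ι : Type) [DecidableEq V] [DecidableEq ι] (I : Finset ι) (b : ι → List V)
    (h e1 e2 : ι) (x1 x2 a a' c : V), C3 I b → Cfg I b h e1 e2 x1 x2 a a' c →
    (a ≠ a' ∧ C3 (insert e1 (I \ {h, e1, e2})) (Function.update b e1 [a, a'])) ∨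
    C3 (I \ {h, e1, e2}) (fun i => (b i).map (fun v => if v = c then a else v)) ∨
    C3 (I \ {h, e1, e2}) (fun i => (b i).map (fun v => if v = c then a' else v))

/-- CNT: if all degrees are at least three there is a reducible configuration -/
def Stmt_CNT : Prop :=
  ∀ (V ι : Type) [DecidableEq V] [DecidableEq ι] (I : Finset ι) (b : ι → List V),
    C3 I b → I.Nonempty → (∀ v ∈ cov b I, 3 ≤ dg I b v) →
    ∃ (h e1 e2 : ι) (x1 x2 a a' c : V), Cfg I b h e1 e2 x1 x2 a a' c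

/-- POL: the graph polynomial of a structure with a reducible configuration -/
def Stmt_POL : Prop :=
  ∀ (V ι : Type) [DecidableEq V] [DecidableEq ι] (I : Finset ι) (b : ι → List V)
    (h e1 e2 : ι) (x1 x2 a a' c : V), C3 I b → Cfg I b h e1 e2 x1 x2 a a' c →
    (PP I b = gad x1 x2 a a' c * PP (I \ {h, e1, e2}) b ∨
      PP I b = - (gad x1 x2 a a' c * PP (I \ {h, e1, e2}) b)) ∧
    x1 ∉ (PP (I \ {h, e1, e2}) b).vars ∧ x2 ∉ (PP (I \ {h, e1, e2}) b).vars

/-- DEL: deleting a point keeps `C3` -/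
def Stmt_DEL : Prop :=
  ∀ (V ι : Type) [DecidableEq V] [DecidableEq ι] (I : Finset ι) (b : ι → List V) (p : V),
    C3 I b → C3 (I.filter (fun i => 2 ≤ ((b i).erase p).length)) (fun i => (b i).erase p)

/-- DLP: deleting a point on the level of polynomials -/
def Stmt_DLP : Prop :=
  ∀ (V ι : Type) [DecidableEq V] [DecidableEq ι] (I : Finset ι) (b : ι → List V) (p : V),
    C3 I b →
    ∃ L : List V, p ∉ L ∧ L.length = dg I b p ∧
      p ∉ (PP (I.filter (fun i => 2 ≤ ((b i).erase p).length)) (fun i => (b i).erase p)).vars ∧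
      (PP I b = (L.map (fun q => (X p - X q : MvPolynomial V ℤ))).prod *
          PP (I.filter (fun i => 2 ≤ ((b i).erase p).length)) (fun i => (b i).erase p) ∨
       PP I b = - ((L.map (fun q => (X p - X q : MvPolynomial V ℤ))).prod *
          PP (I.filter (fun i => 2 ≤ ((b i).erase p).length)) (fun i => (b i).erase p)))

/-- THA: Theorem A -/
def Stmt_THA : Prop :=
  ∀ (V ι : Type) [DecidableEq V] [DecidableEq ι] (I : Finset ι) (b : ι → List V),
    C3 I b → Good (PP I b)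

/-- CHO: from the polynomial to colourings from lists -/
def Stmt_CHO : Prop :=
  ∀ (V ι : Type) [Fintype V] [DecidableEq V] [DecidableEq ι] (I : Finset ι) (b : ι → List V),
    (∀ i ∈ I, (b i).Nodup) → Good (PP I b) →
    ∀ L : V → Finset ℕ, (∀ v, 3 ≤ (L v).card) →
      ∃ f : V → ℕ, (∀ v, f v ∈ L v) ∧ ∀ i ∈ I, ∀ u ∈ b i, ∀ v ∈ b i, u ≠ v → f u ≠ f v

/-! ## Part B, combinatorics -/

/-- BLK: the block structure of a graph without short cycles -/
def Stmt_BLK : Prop :=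
  ∀ (V : Type) [Fintype V] [DecidableEq V] (G : SimpleGraph V), NoC G →
    (∀ X : SimpleGraph V, X ≤ G → X ≠ ⊥ → Ineq X) →
    ∃ (I : Finset (Finset V)) (b : Finset V → List V), C3 I b ∧
      ∀ u v, G.Adj u v → ∃ i ∈ I, u ∈ b i ∧ v ∈ b i

/-- COR: reduction of the inequality `Ineq` to the Euler inequality -/
def Stmt_COR : Prop :=
  ∀ (V : Type) [Fintype V] [DecidableEq V] (K : SimpleGraph V → Prop),
    (∀ X Y, Y ≤ X → K X → K Y) → (∀ X, K X → NoC X) →
    (∀ X, K X → X ≠ ⊥ → 6 * nE X + 8 ≤ 5 * nT X + 8 * nV X) →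
    ∀ X, K X → X ≠ ⊥ → Ineq X

/-- EUD: dimension of the cycle space -/
def Stmt_EUD : Prop :=
  ∀ (V : Type) [Fintype V] [DecidableEq V] (X : SimpleGraph V), X ≠ ⊥ →
    nE X + 1 ≤ nV X + Module.finrank (ZMod 2) (cyc X)

/-- EUB: a face system contains a basis of the cycle space -/
def Stmt_EUB : Prop :=
  ∀ (V : Type) [Fintype V] [DecidableEq V] (X : SimpleGraph V), FaceSys X →
    ∃ D : Fin (Module.finrank (ZMod 2) (cyc X)) → Finset (Sym2 V),
      (∀ k, EvenS X (D k)) ∧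
      (∀ e, (Finset.univ.filter (fun k => e ∈ D k)).card ≤ 2) ∧
      LinearIndependent (ZMod 2) (fun k => ind (D k))

/-- EUT: in a graph without cycles of lengths 4..7, at most `nT X` members of an independent
family of even edge sets have fewer than eight edges; all members have at least three -/
def Stmt_EUT : Prop :=
  ∀ (V : Type) [Fintype V] [DecidableEq V] (X : SimpleGraph V), NoC X →
    ∀ (n : ℕ) (D : Fin n → Finset (Sym2 V)), (∀ k, EvenS X (D k)) →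
      LinearIndependent (ZMod 2) (fun k => ind (D k)) →
      (∀ k, 3 ≤ (D k).card) ∧ (Finset.univ.filter (fun k => (D k).card < 8)).card ≤ nT X

/-- EUC: Euler inequality from a face system -/
def Stmt_EUC : Prop :=
  ∀ (V : Type) [Fintype V] [DecidableEq V] (X : SimpleGraph V), NoC X → FaceSys X → X ≠ ⊥ →
    6 * nE X + 8 ≤ 5 * nT X + 8 * nV X

/-! ## Part B, geometry -/

/-- PR1: the crossing parity of a closed chain is locally constant -/
def Stmt_PR1 : Prop :=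
  ∀ S : List (ℂ × ℂ), ClosedS S → ∀ z, z ∉ supp S →
    ∃ ε > 0, ∀ z', dist z' z < ε → par S z' = par S z

/-- PR2: the crossing parity flips across a segment -/
def Stmt_PR2 : Prop :=
  ∀ (s : ℂ × ℂ) (S : List (ℂ × ℂ)), ClosedS (s :: S) → s.1 ≠ s.2 →
    ∀ m ∈ openSegment ℝ s.1 s.2, m ∉ supp S →
    ∃ ε > 0, ∀ z z', dist z m < ε → dist z' m < ε → side s z ≠ 0 → side s z' ≠ 0 →
      (par (s :: S) z = par (s :: S) z' ↔ 0 < side s z * side s z')

/-- CIR: telescoping around a circle -/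
def Stmt_CIR : Prop :=
  ∀ (β : Type) (f : ℝ → β) (T : Finset ℝ) (l r : ℝ → β),
    (∀ t ∈ T, 0 ≤ t ∧ t < 2 * Real.pi) →
    (∀ x, f (x + 2 * Real.pi) = f x) →
    (∀ x, (∀ t ∈ T, ∀ k : ℤ, x ≠ t + 2 * Real.pi * k) → ∃ ε > 0, ∀ y, |y - x| < ε → f y = f x) →
    (∀ t ∈ T, ∃ ε > 0, (∀ y, t - ε < y → y < t → f y = l t) ∧
      (∀ y, t < y → y < t + ε → f y = r t)) →
    ∀ φ : β, Even {t | t ∈ T ∧ l t ≠ r t ∧ (φ = l t ∨ φ = r t)}.ncard

/-- GE1: the parity of an even edge set is locally constant off the edge set -/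
def Stmt_GE1 : Prop :=
  ∀ (V : Type) [Fintype V] [DecidableEq V] (X : SimpleGraph V) (D : PD X)
    (C : Finset (Sym2 V)), EvenS X C → ∀ z, z ∉ D.sup (C : Set (Sym2 V)) →
    ∃ ε > 0, ∀ z', dist z' z < ε → D.W C z' = D.W C z

/-- GE2: the parity of `C` is the same at both ends of an edge `e ∉ C` -/
def Stmt_GE2 : Prop :=
  ∀ (V : Type) [Fintype V] [DecidableEq V] (X : SimpleGraph V) (D : PD X)
    (C : Finset (Sym2 V)), EvenS X C → ∀ e ∈ X.edgeSet, e ∉ C → ∀ u ∈ e, ∀ v ∈ e,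
    D.W C (D.m u e) = D.W C (D.m v e)

/-- GE3: the parities near a point of a radial segment -/
def Stmt_GE3 : Prop :=
  ∀ (V : Type) [Fintype V] [DecidableEq V] (X : SimpleGraph V) (D : PD X),
    ∀ e ∈ X.edgeSet, ∀ u ∈ e, ∃ ε > 0, ∀ z z', dist z (D.m u e) < ε → dist z' (D.m u e) < ε →
      side (D.p u, D.a u e) z ≠ 0 → side (D.p u, D.a u e) z' ≠ 0 →
      z ∉ D.sup X.edgeSet ∧
      ∀ C, EvenS X C → (e ∉ C → D.W C z = D.W C (D.m u e)) ∧
        (e ∈ C → (D.W C z = D.W C z' ↔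
          0 < side (D.p u, D.a u e) z * side (D.p u, D.a u e) z'))

/-- GE4: face boundaries are even edge sets -/
def Stmt_GE4 : Prop :=
  ∀ (V : Type) [Fintype V] [DecidableEq V] (X : SimpleGraph V) (D : PD X),
    ∀ z, EvenS X (D.fc (fun C => D.W C z))

/-- GE5: a polygonal drawing gives a face system -/
def Stmt_GE5 : Prop :=
  ∀ (V : Type) [Fintype V] [DecidableEq V] (X : SimpleGraph V), PD X → FaceSys X

/-- PL1: cut off the arcs near the vertices -/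
def Stmt_PL1 : Prop :=
  ∀ (V : Type) [Fintype V] (X : SimpleGraph V), Dr X → Nonempty (TD X)

/-- PL2: polygonal approximation -/
def Stmt_PL2 : Prop :=
  ∀ (V : Type) [Fintype V] (X : SimpleGraph V), TD X → Nonempty (PD X)

/-- FIN: the frozen statement -/
def Stmt_FIN : Prop :=
  ∀ (V : Type) [Fintype V] (G : SimpleGraph V), Dr G → NoC G →
    ∀ L : V → Finset ℕ, (∀ v, 3 ≤ (L v).card) →
      ∃ f : V → ℕ, (∀ v, f v ∈ L v) ∧ ∀ u v, G.Adj u v → f u ≠ f v

end Pool.Agent.TCH
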